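import Mathlib
import Pool.Agent.TH314.PD.Core
import Pool.Agent.Y201.C3.Stm

/-! # Project LI: lines through the generic point of a smooth hypersurface; parametrizations of
degree three of smooth cubic fourfolds (statements) -/

set_option autoImplicit false

namespace Pool.Agent.Y201.LI

open MvPolynomial Pool.Agent.TH314.PD IntermediateField Module

noncomputable section

/-! ## degrees of closed points -/

/-- job PL -/
def S_PL : Prop :=
  ∀ (k N : Type) [Field k] [CharZero k] [Field N] [Algebra k N] (r e : ℕ)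
    (y : Fin r → N) (P Q : MvPolynomial (Fin r) k) (f : N),
    P.IsHomogeneous e → Q.IsHomogeneous e → Transcendental k f → FiniteDimensional k⟮f⟯ N →
    aeval y Q ≠ 0 → aeval y P = f * aeval y Q →
    ∀ c₀ c₁ : ℕ, c₁ ∣ e * c₀ →
    (∀ (κ : Type) [Field κ] [Algebra k κ] [FiniteDimensional k κ] (z : Fin r → κ), z ≠ 0 →
      (∀ (d : ℕ) (G : MvPolynomial (Fin r) k), G.IsHomogeneous d → aeval y G = 0 →
        aeval z G = 0) →
      c₀ ∣ finrank k κ ∧ (aeval z P = 0 → aeval z Q = 0 → c₁ ∣ finrank k κ)) →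
    c₁ ∣ finrank k⟮f⟯ N

/-- the forms `Φ` have no common zero, over any field, on the closed set defined by `Z` -/
def Bpf {B : Type} [Field B] {r m : ℕ} (Z : Set (MvPolynomial (Fin r) B))
    (Φ : Fin m → MvPolynomial (Fin r) B) : Prop :=
  ∀ (κ : Type) [Field κ] (φ : B →+* κ) (z : Fin r → κ), (∀ G ∈ Z, eval₂ φ z G = 0) →
    (∀ i, eval₂ φ z (Φ i) = 0) → z = 0

/-- job ONE (proved from `S_PL`) -/
def S_ONE : Prop :=
  ∀ (B : Type) [Field B] [CharZero B] (r e m : ℕ) (Z : Set (MvPolynomial (Fin r) B))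
    (Φ : Fin m → MvPolynomial (Fin r) B),
    (∀ G ∈ Z, ∃ d, G.IsHomogeneous d) → (∀ i, (Φ i).IsHomogeneous e) → Bpf Z Φ →
    ∀ (ι K E : Type) [Field K] [Field E] [Algebra B K] [Algebra K E] [FiniteDimensional K E]
      (a : Fin m → K) (c : ι → K),
      AlgebraicIndependent B (Sum.elim a c) → adjoin B (Set.range a ∪ Set.range c) = ⊤ →
      ∀ y : Fin r → E, y ≠ 0 →
      (∀ G ∈ Z, eval₂ ((algebraMap K E).comp (algebraMap B K)) y G = 0) →
      ∑ i, algebraMap K E (a i) * eval₂ ((algebraMap K E).comp (algebraMap B K)) y (Φ i) = 0 →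
      e ∣ finrank K E

/-- job TWO (proved from `S_PL` and `S_ONE`) -/
def S_TWO : Prop :=
  ∀ (B : Type) [Field B] [CharZero B] (r e m : ℕ) (Z : Set (MvPolynomial (Fin r) B))
    (Φ : Fin m → MvPolynomial (Fin r) B),
    (∀ G ∈ Z, ∃ d, G.IsHomogeneous d) → (∀ i, (Φ i).IsHomogeneous e) → Bpf Z Φ →
    ∀ (ι K E : Type) [Field K] [Field E] [Algebra B K] [Algebra K E] [FiniteDimensional K E]
      (a b : Fin m → K) (c : ι → K),
      AlgebraicIndependent B (Sum.elim (Sum.elim a b) c) →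
      adjoin B (Set.range a ∪ Set.range b ∪ Set.range c) = ⊤ →
      ∀ y : Fin r → E, y ≠ 0 →
      (∀ G ∈ Z, eval₂ ((algebraMap K E).comp (algebraMap B K)) y G = 0) →
      ∑ i, algebraMap K E (a i) * eval₂ ((algebraMap K E).comp (algebraMap B K)) y (Φ i) = 0 →
      ∑ i, algebraMap K E (b i) * eval₂ ((algebraMap K E).comp (algebraMap B K)) y (Φ i) = 0 →
      e ^ 2 ∣ finrank K E

/-! ## field extensions -/

/-- job EXT -/
def S_EXT : Prop :=
  ∀ (R M Ω ι : Type) [Field R] [CharZero R] [Field M] [Field Ω] [Algebra R M] [Algebra M Ω]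
    [Algebra R Ω] [IsScalarTower R M Ω] [FiniteDimensional R M] (τ : ι → Ω),
    AlgebraicIndependent M τ → adjoin M (Set.range τ) = ⊤ →
    FiniteDimensional (adjoin R (Set.range τ)) Ω ∧
      finrank (adjoin R (Set.range τ)) Ω = finrank R M

/-- job IND -/
def S_IND : Prop :=
  ∀ (r d : ℕ) (F : MvPolynomial (Fin r) ℂ), F.IsHomogeneous d → 1 ≤ d → F ≠ 0 →
    ∀ (M Ω : Type) [Field M] [Field Ω] [Algebra ℂ M] [Algebra M Ω] [Algebra ℂ Ω]
      [IsScalarTower ℂ M Ω] (x : Fin r → M),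
      aeval x F = 0 →
      (∀ (e : ℕ) (H : MvPolynomial (Fin r) ℂ), H.IsHomogeneous e → aeval x H = 0 → F ∣ H) →
      ∀ (v₁ v₂ v₃ : Fin r → Ω) (γ β₁ β₂ : Ω),
      AlgebraicIndependent M (Sum.elim (Sum.elim v₁ v₂) ![γ, β₁, β₂]) →
      (∀ i, v₃ i = γ * algebraMap M Ω (x i) + β₁ * v₁ i + β₂ * v₂ i) →
      AlgebraicIndependent ℂ (Sum.elim (Sum.elim v₁ v₂) (Sum.elim v₃ ![β₂]))

/-- job IRR -/
def S_IRR : Prop :=
  ∀ (r d : ℕ) (F : MvPolynomial (Fin r) ℂ), F.IsHomogeneous d → 1 ≤ d → Irreducible F →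
    ∀ (Ω : Type) [Field Ω] [Algebra ℂ Ω] (v₁ v₂ v₃ : Fin r → Ω) (β₁ β₂ : Ω),
      AlgebraicIndependent ℂ (Sum.elim (Sum.elim v₁ v₂) (Sum.elim v₃ ![β₂])) →
      aeval (fun i => v₃ i - β₁ * v₁ i - β₂ * v₂ i) F = 0 →
      finrank (adjoin ℂ (Set.range v₁ ∪ Set.range v₂ ∪ Set.range v₃ ∪ {β₂}))
        (adjoin (adjoin ℂ (Set.range v₁ ∪ Set.range v₂ ∪ Set.range v₃ ∪ {β₂})) {β₁}) = d

/-- job DG (proved from `S_EXT`, `S_IND`, `S_IRR`) -/
def S_DG : Prop :=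
  ∀ (r d : ℕ) (F : MvPolynomial (Fin r) ℂ), F.IsHomogeneous d → 1 ≤ d → Irreducible F →
    ∀ (M Ω : Type) [Field M] [Field Ω] [Algebra ℂ M] [Algebra M Ω] [Algebra ℂ Ω]
      [IsScalarTower ℂ M Ω] (x : Fin r → M) [FiniteDimensional (ratioField x) M],
      aeval x F = 0 → (∃ j, x j = 1) →
      (∀ (e : ℕ) (H : MvPolynomial (Fin r) ℂ), H.IsHomogeneous e → aeval x H = 0 → F ∣ H) →
      ∀ (v₁ v₂ v₃ : Fin r → Ω) (γ β₁ β₂ : Ω),
      AlgebraicIndependent M (Sum.elim (Sum.elim v₁ v₂) ![γ, β₁, β₂]) →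
      adjoin M (Set.range v₁ ∪ Set.range v₂ ∪ {γ, β₁, β₂}) = ⊤ →
      (∀ i, v₃ i = γ * algebraMap M Ω (x i) + β₁ * v₁ i + β₂ * v₂ i) →
      AlgebraicIndependent ℂ (Sum.elim (Sum.elim v₁ v₂) (Sum.elim v₃ ![β₂])) ∧
      FiniteDimensional (adjoin ℂ (Set.range v₁ ∪ Set.range v₂ ∪ Set.range v₃ ∪ {β₂})) Ω ∧
      finrank (adjoin ℂ (Set.range v₁ ∪ Set.range v₂ ∪ Set.range v₃ ∪ {β₂})) Ω =
        d * finrank (ratioField x) M

/-- job FA (proved from `S_PL`, `S_ONE`, `S_TWO`, `S_DG`) -/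
def S_FA : Prop :=
  ∀ (r d : ℕ) (F : MvPolynomial (Fin r) ℂ), F.IsHomogeneous d → 2 ≤ d → Irreducible F →
    (∀ z : Fin r → ℂ, (∀ i, eval z (pderiv i F) = 0) → z = 0) →
    ∀ (M Ω N : Type) [Field M] [Field Ω] [Field N] [Algebra ℂ M] [Algebra M Ω] [Algebra ℂ Ω]
      [IsScalarTower ℂ M Ω] [Algebra Ω N] [FiniteDimensional Ω N]
      (L : IntermediateField ℂ M) (t : M), Transcendental L t →
      ∀ (u w : Fin r → M), (∀ i, u i ∈ L) → (∀ i, w i ∈ L) →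
      aeval (fun i => t * u i + w i) F = 0 →
      FiniteDimensional (ratioField fun i => t * u i + w i) M →
      (∀ (e : ℕ) (H : MvPolynomial (Fin r) ℂ), H.IsHomogeneous e →
        aeval (fun i => t * u i + w i) H = 0 → F ∣ H) →
      ∀ (v₁ v₂ : Fin r → Ω) (γ β₁ β₂ : Ω),
      AlgebraicIndependent M (Sum.elim (Sum.elim v₁ v₂) ![γ, β₁, β₂]) →
      adjoin M (Set.range v₁ ∪ Set.range v₂ ∪ {γ, β₁, β₂}) = ⊤ →
      ∀ θ : N, ∑ i, algebraMap Ω N (v₁ i) * eval₂ ((algebraMap Ω N).comp (algebraMap ℂ Ω))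
          (fun j => θ * algebraMap Ω N (algebraMap M Ω (u j)) +
            algebraMap Ω N (algebraMap M Ω (w j))) (pderiv i F) = 0 →
      (d - 1) ^ 2 ∣ finrank Ω N * (d * finrank (ratioField fun i => t * u i + w i) M)

/-- job T1 (proved from `S_FA`) -/
def S_T1 : Prop :=
  ∀ (r d : ℕ) (F : MvPolynomial (Fin r) ℂ), F.IsHomogeneous d → 2 ≤ d → Irreducible F →
    (∀ z : Fin r → ℂ, (∀ i, eval z (pderiv i F) = 0) → z = 0) →
    ∀ (M : Type) [Field M] [Algebra ℂ M] (L : IntermediateField ℂ M) (t : M),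
      Transcendental L t → ∀ (u w : Fin r → M), (∀ i, u i ∈ L) → (∀ i, w i ∈ L) →
      aeval (fun i => t * u i + w i) F = 0 →
      (∀ (e : ℕ) (H : MvPolynomial (Fin r) ℂ), H.IsHomogeneous e →
        aeval (fun i => t * u i + w i) H = 0 → F ∣ H) →
      d - 1 ∣ finrank (ratioField fun i => t * u i + w i) M

end

end Pool.Agent.Y201.LI
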