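import Mathlib
import Pool.Agent.Y201.LI.Stm

/-! # Project LI, second part: smooth cubic fourfolds (statements) -/

set_option autoImplicit false

namespace Pool.Agent.Y201.LI

open MvPolynomial Pool.Agent.TH314.PD IntermediateField Module Pool.Agent.Y201.C3

noncomputable section

/-- job BPF -/
def S_BPF : Prop :=
  ∀ (r : ℕ) (F : MvPolynomial (Fin r) ℂ),
    (∀ z : Fin r → ℂ, (∀ i, eval z (pderiv i F) = 0) → z = 0) →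
    ∀ (d : ℕ), F.IsHomogeneous d → Bpf ∅ (fun i => pderiv i F)

/-- job NET -/
def S_NET : Prop :=
  ∀ T : Fin 6 → Fin 6 → Fin 6 → ℂ, SymT T → SmoothT T →
    ∀ v : Fin 3 → Fin 6 → ℂ, LinearIndependent ℂ v → (∀ i j k, Bf T (v i) (v j) (v k) = 0) →
    ∃ x : Fin 6 → ℂ, (Matrix.of fun i j : Fin 3 => Bf T x (v i) (v j)).det ≠ 0

/-- job RIG -/
def S_RIG : Prop :=
  ∀ k : Subfield ℂ, IsAlgClosed k →
    ∀ T : Fin 6 → Fin 6 → Fin 6 → ℂ, SymT T → SmoothT T → (∀ i j l, T i j l ∈ k) →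
    ∀ v : Fin 3 → Fin 6 → ℂ, LinearIndependent ℂ v → (∀ i j l, Bf T (v i) (v j) (v l) = 0) →
    ∃ v' : Fin 3 → Fin 6 → ℂ, (∀ i j, v' i j ∈ k) ∧ LinearIndependent ℂ v' ∧
      Submodule.span ℂ (Set.range v') = Submodule.span ℂ (Set.range v)

/-- job AVOID (proved from `S_NET` and `S_RIG`) -/
def S_AVOID : Prop :=
  ∀ T : Fin 6 → Fin 6 → Fin 6 → ℂ, SymT T → SmoothT T →
    ∀ (e : ℕ) (W : MvPolynomial (Fin 6) ℂ), W.IsHomogeneous e → ¬ frm T ∣ W →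
    ∃ p q : Fin 6 → ℂ, LinearIndependent ℂ ![p, q] ∧
      (∀ i j k : Fin 2, Bf T (![p, q] i) (![p, q] j) (![p, q] k) = 0) ∧ eval p W ≠ 0 ∧
      ∀ v : Fin 3 → Fin 6 → ℂ, LinearIndependent ℂ v → (∀ i j k, Bf T (v i) (v j) (v k) = 0) →
      ∀ a b : ℂ, a • p + b • q ∈ Submodule.span ℂ (Set.range v) → a = 0 ∧ b = 0

/-- job ARC -/
def S_ARC : Prop :=
  ∀ T : Fin 6 → Fin 6 → Fin 6 → ℂ, SymT T → SmoothT T →
    ∀ (G : Fin 6 → MvPolynomial (Fin 5) ℂ), (∀ i, (G i).IsHomogeneous 3) →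
    aeval G (frm T) = 0 →
    ∀ (m : ℕ) (H : Fin 5 → MvPolynomial (Fin 6) ℂ), (∀ i, (H i).IsHomogeneous m) →
    (∀ i j, frm T ∣ aeval H (G i) * X j - aeval H (G j) * X i) →
    ∀ p q : Fin 6 → ℂ, LinearIndependent ℂ ![p, q] →
    (∀ i j k : Fin 2, Bf T (![p, q] i) (![p, q] j) (![p, q] k) = 0) →
    (∃ i, eval p (aeval H (G i)) ≠ 0) →
    ∃ b : Fin 5 → ℂ, b ≠ 0 ∧ (∀ i, eval b (G i) = 0) ∧
      ∃ x₀ : Fin 6 → ℂ, x₀ ≠ 0 ∧ (∃ α β : ℂ, x₀ = α • p + β • q) ∧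
        ∀ (s : ℂ) (w : Fin 5 → ℂ),
          eval (fun i => s * x₀ i + ∑ l, w l * eval b (pderiv l (G i))) (frm T) = 0

/-- job INV -/
def S_INV : Prop :=
  ∀ (F : MvPolynomial (Fin 6) ℂ), F.IsHomogeneous 3 → F ≠ 0 →
    ∀ (M : Type) [Field M] [Algebra ℂ M] (s : Fin 5 → M),
    (∀ (e : ℕ) (H : MvPolynomial (Fin 5) ℂ), H.IsHomogeneous e → aeval s H = 0 → H = 0) →
    ∀ (G : Fin 6 → MvPolynomial (Fin 5) ℂ), (∀ i, (G i).IsHomogeneous 3) →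
    aeval G F = 0 →
    (∀ (e : ℕ) (H : MvPolynomial (Fin 6) ℂ), H.IsHomogeneous e →
      aeval (fun i => aeval s (G i)) H = 0 → F ∣ H) →
    (∀ i j, s i / s j ∈ ratioField fun l => aeval s (G l)) →
    ∃ (m : ℕ) (H : Fin 5 → MvPolynomial (Fin 6) ℂ), (∀ i, (H i).IsHomogeneous m) ∧
      (∀ i j, F ∣ aeval H (G i) * X j - aeval H (G j) * X i) ∧ ∃ i, ¬ F ∣ aeval H (G i)

/-- job ANI2 (proved from `S_AN` and `S_ETA`, copy of `Y37.C3.Ani`) -/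
def S_ANI2 : Prop :=
  ∀ T : Fin 6 → Fin 6 → Fin 6 → ℂ, SymT T → SmoothT T → LineT T →
    (∀ y : Fin 6 → ℂ, y 0 = 0 → y 1 = 0 → y ≠ 0 →
      ∃ i j k : Fin 3, Bf T ((![E 0, E 1, y] : Fin 3 → Fin 6 → ℂ) i)
        ((![E 0, E 1, y] : Fin 3 → Fin 6 → ℂ) j) ((![E 0, E 1, y] : Fin 3 → Fin 6 → ℂ) k) ≠ 0) →
    ∀ V : Fin 3 → MvPolynomial (Fin 4) ℂ, ∑ i, ∑ j, V i * cm T yy i j * V j = 0 → V = 0

end

end Pool.Agent.Y201.LI
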