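import Mathlib
import Pool.Agent.TH314.PD.Core
import Pool.Agent.Y201.LI.Stm2

/-! # Project LI, third part: families of conics of odd degree on smooth cubic hypersurfaces
(statements) -/

set_option autoImplicit false

namespace Pool.Agent.Y201.LI

open MvPolynomial Pool.Agent.TH314.PD IntermediateField Module

noncomputable section

/-- `ρ` identifies the residue field of `O` with `κ`, compatibly with the complex numbers -/
def IsRes {N κ : Type} [Field N] [Field κ] [Algebra ℂ N] [Algebra ℂ κ] (O : ValuationSubring N)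
    (ρ : O →+* κ) : Prop :=
  Function.Surjective ρ ∧
    ∀ (c : ℂ) (h : algebraMap ℂ N c ∈ O), ρ ⟨algebraMap ℂ N c, h⟩ = algebraMap ℂ κ c

/-- `O` lies over the local ring of projective space at the generic point of `F = 0` -/
def Over {N : Type} [Field N] [Algebra ℂ N] {r : ℕ} (F : MvPolynomial (Fin r) ℂ) (z : Fin r → N)
    (O : ValuationSubring N) : Prop :=
  ∀ (e : ℕ) (H H' : MvPolynomial (Fin r) ℂ), H.IsHomogeneous e → H'.IsHomogeneous e → ¬ F ∣ H →
    aeval z H' / aeval z H ∈ O ∧ (F ∣ H' → aeval z H' / aeval z H ∈ O.nonunits)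

/-- `x` is the reduction of the point `z` -/
def Red {N κ : Type} [Field N] [Field κ] (O : ValuationSubring N) (ρ : O →+* κ) {r : ℕ}
    (z : Fin r → N) (x : Fin r → κ) : Prop :=
  ∃ j, z j ≠ 0 ∧ ∀ i, ∃ h : z i / z j ∈ O, x i = ρ ⟨z i / z j, h⟩

/-- job FI: the fundamental identity modulo two -/
def S_FI : Prop :=
  ∀ (r d : ℕ) (F : MvPolynomial (Fin r) ℂ), F.IsHomogeneous d → 2 ≤ d → Irreducible F →
    ∀ (N : Type) [Field N] [Algebra ℂ N] (z : Fin r → N),
      (∀ (e : ℕ) (H : MvPolynomial (Fin r) ℂ), H.IsHomogeneous e → aeval z H = 0 → H = 0) →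
      FiniteDimensional (ratioField z) N →
      ∀ (O₀ : ValuationSubring N) (κ₀ : Type) [Field κ₀] [Algebra ℂ κ₀] (ρ₀ : O₀ →+* κ₀)
        (x₀ : Fin r → κ₀), IsRes O₀ ρ₀ → Over F z O₀ → Red O₀ ρ₀ z x₀ →
        (∀ a ∈ O₀.nonunits, ∀ j, z j ^ d * a / aeval z F ∈ O₀) →
        Odd (finrank (ratioField x₀) κ₀) →
        (∀ (O : ValuationSubring N) (κ : Type) [Field κ] [Algebra ℂ κ] (ρ : O →+* κ)
          (x : Fin r → κ), IsRes O ρ → Over F z O → Red O ρ z x → O ≠ O₀ →
          Even (finrank (ratioField x) κ)) →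
        Odd (finrank (ratioField z) N)

/-- job THREE (proved from `S_T1` and `S_FI`) -/
def S_THREE : Prop :=
  ∀ (r : ℕ) (F : MvPolynomial (Fin r) ℂ), F.IsHomogeneous 3 → Irreducible F →
    (∀ z : Fin r → ℂ, (∀ i, eval z (pderiv i F) = 0) → z = 0) →
    ∀ (M N : Type) [Field M] [Field N] [Algebra ℂ M] [Algebra M N] [Algebra ℂ N]
      [IsScalarTower ℂ M N] (x lam : Fin r → M) (s : N),
      aeval x F = 0 →
      (∀ (e : ℕ) (H : MvPolynomial (Fin r) ℂ), H.IsHomogeneous e → aeval x H = 0 → F ∣ H) →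
      Odd (finrank (ratioField x) M) →
      (∃ (e : ℕ) (H : MvPolynomial (Fin r) ℂ), H.IsHomogeneous e ∧ aeval lam H = 0 ∧ ¬ F ∣ H) →
      Transcendental M s → adjoin M {s} = ⊤ →
      ∀ A B : M, A ≠ 0 →
        (aeval (fun i => Polynomial.C (x i) + Polynomial.X * Polynomial.C (lam i)) F :
          Polynomial M) = Polynomial.X * Polynomial.C A + Polynomial.X ^ 2 * Polynomial.C B →
        (B ≠ 0 → Even (finrank (ratioField fun i => B * x i - A * lam i) M)) →
        (∀ (e : ℕ) (H : MvPolynomial (Fin r) ℂ), H.IsHomogeneous e →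
          aeval (fun i => algebraMap M N (x i) + s * algebraMap M N (lam i)) H = 0 → H = 0) ∧
        Odd (finrank (ratioField fun i => algebraMap M N (x i) + s * algebraMap M N (lam i)) N)

/-- the projection from the linear subspace of `F = 0` spanned by the `p a` has a rational
section -/
def HasSection {r m : ℕ} (F : MvPolynomial (Fin r) ℂ) (p : Fin m → Fin r → ℂ) : Prop :=
  ∃ (V : Fin m → MvPolynomial (Fin r) ℂ) (W : MvPolynomial (Fin r) ℂ), W ≠ 0 ∧
    aeval (fun i => W * X i + ∑ a, V a * C (p a i)) F = 0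

/-- job SEC (Springer's theorem for the quadric fibration; proved from `S_ONE` and `S_BPF`) -/
def S_SEC : Prop :=
  ∀ (r m : ℕ) (F : MvPolynomial (Fin r) ℂ), F.IsHomogeneous 3 →
    (∀ z : Fin r → ℂ, (∀ i, eval z (pderiv i F) = 0) → z = 0) →
    ∀ p : Fin m → Fin r → ℂ, LinearIndependent ℂ p →
    (∀ c : Fin m → ℂ, eval (∑ a, c a • p a) F = 0) →
    ∀ (N : Type) [Field N] [Algebra ℂ N] (z : Fin r → N),
      (∀ (e : ℕ) (H : MvPolynomial (Fin r) ℂ), H.IsHomogeneous e → aeval z H = 0 → H = 0) →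
      Odd (finrank (ratioField z) N) →
      ∀ c : Fin m → N, aeval (fun i => z i + ∑ a, c a * algebraMap ℂ N (p a i)) F = 0 →
      HasSection F p

/-- job LAM: a point over a field of odd degree over `ℂ(z)` is not on the polar quadric of the
generic point `z` (proved from `S_ONE`, `S_EXT` and `S_BPF`) -/
def S_LAM : Prop :=
  ∀ (r d : ℕ) (F : MvPolynomial (Fin r) ℂ), F.IsHomogeneous d → 2 ≤ d →
    (∀ z : Fin r → ℂ, (∀ i, eval z (pderiv i F) = 0) → z = 0) →
    ∀ (N : Type) [Field N] [Algebra ℂ N] (z : Fin r → N),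
      (∀ (e : ℕ) (H : MvPolynomial (Fin r) ℂ), H.IsHomogeneous e → aeval z H = 0 → H = 0) →
      ∀ y : Fin r → N, y ≠ 0 → ∑ i, z i * aeval y (pderiv i F) = 0 →
      d - 1 ∣ finrank (ratioField z) N

/-- job NOPT: the projection from a point of a smooth cubic hypersurface has no section -/
def S_NOPT : Prop :=
  ∀ (r : ℕ) (F : MvPolynomial (Fin r) ℂ), F.IsHomogeneous 3 → Irreducible F →
    (∀ z : Fin r → ℂ, (∀ i, eval z (pderiv i F) = 0) → z = 0) →
    ∀ p : Fin r → ℂ, p ≠ 0 → eval p F = 0 → ¬ HasSection F ![p]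

/-- job NOLN: the projection from a line which is contained in no plane of a smooth cubic
hypersurface of dimension at least four has no section -/
def S_NOLN : Prop :=
  ∀ (r : ℕ) (F : MvPolynomial (Fin r) ℂ), F.IsHomogeneous 3 → 6 ≤ r →
    (∀ z : Fin r → ℂ, (∀ i, eval z (pderiv i F) = 0) → z = 0) →
    ∀ p : Fin 2 → Fin r → ℂ, LinearIndependent ℂ p →
    (∀ c : Fin 2 → ℂ, eval (∑ a, c a • p a) F = 0) →
    (∀ y : Fin r → ℂ, y ∉ Submodule.span ℂ (Set.range p) →
      ∃ a b c : ℂ, eval (a • p 0 + b • p 1 + c • y) F ≠ 0) →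
    ¬ HasSection F p

end

end Pool.Agent.Y201.LI
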