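import Mathlib
import Pool.Agent.Y201.LI.Stm

/-! # Project LI: the degree over the field of the generic plane -/

set_option autoImplicit false

namespace Pool.Agent.Y201.LI

open MvPolynomial Pool.Agent.TH314.PD IntermediateField Module

/-- degrees over two fields with the same image -/
theorem finrank_same {A B Ω : Type} [Field A] [Field B] [Field Ω] [Algebra A Ω] [Algebra B Ω]
    (h : ∀ z : Ω, z ∈ Set.range (algebraMap A Ω) ↔ z ∈ Set.range (algebraMap B Ω)) :
    (FiniteDimensional A Ω ↔ FiniteDimensional B Ω) ∧ finrank A Ω = finrank B Ω := by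
  have hinjA := (algebraMap A Ω).injective
  have hinjB := (algebraMap B Ω).injective
  let eA : A ≃+* (algebraMap A Ω).range := (RingEquiv.ofBijective (algebraMap A Ω).rangeRestrict
    ⟨fun a b hab => hinjA (congrArg Subtype.val hab), (algebraMap A Ω).rangeRestrict_surjective⟩)
  let eB : B ≃+* (algebraMap B Ω).range := (RingEquiv.ofBijective (algebraMap B Ω).rangeRestrict
    ⟨fun a b hab => hinjB (congrArg Subtype.val hab), (algebraMap B Ω).rangeRestrict_surjective⟩)
  have hr : (algebraMap A Ω).range = (algebraMap B Ω).range := by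
    ext z
    exact h z
  let e : A ≃+* B := (eA.trans (RingEquiv.subringCongr hr)).trans eB.symm
  have he : ∀ a, algebraMap B Ω (e a) = algebraMap A Ω a := by
    intro a
    have h1 : (eB (e a) : Ω) = algebraMap B Ω (e a) := rfl
    rw [← h1]
    have h2 : eB (e a) = RingEquiv.subringCongr hr (eA a) := by
      simp only [e, RingEquiv.trans_apply, RingEquiv.apply_symm_apply]
    rw [h2]
    rfl
  refine ⟨⟨fun h => ?_, fun h => ?_⟩, ?_⟩
  · exact Module.Finite.of_equiv_equiv (A₁ := A) (B₁ := Ω) e (RingEquiv.refl Ω) (by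
      ext a
      exact he a)
  · refine Module.Finite.of_equiv_equiv (A₁ := B) (B₁ := Ω) e.symm (RingEquiv.refl Ω) ?_
    ext b
    have := he (e.symm b)
    rw [RingEquiv.apply_symm_apply] at this
    exact this.symm
  · exact Algebra.finrank_eq_of_equiv_equiv e (RingEquiv.refl Ω) (by
      ext a
      exact he a)

theorem dg (hext : S_EXT) (hind : S_IND) (hirr : S_IRR) : S_DG := by
  intro r d F hF hd hFi M Ω _ _ _ _ _ _ x _ hx0 hx1 hx v₁ v₂ v₃ γ β₁ β₂ hτ htop hv₃
  have hI := hind r d F hF hd hFi.ne_zero M Ω x hx0 hx v₁ v₂ v₃ γ β₁ β₂ hτ hv₃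
  refine ⟨hI, ?_⟩
  set S0 : Set Ω := Set.range v₁ ∪ Set.range v₂ ∪ Set.range v₃ ∪ {β₂} with hS0
  set A : IntermediateField ℂ Ω := adjoin ℂ S0 with hA
  let R : IntermediateField ℂ M := ratioField x
  have hFv : aeval (fun i => v₃ i - β₁ * v₁ i - β₂ * v₂ i) F = 0 := by
    have h1 : (fun i => v₃ i - β₁ * v₁ i - β₂ * v₂ i) = fun i => γ * algebraMap M Ω (x i) := by
      funext i
      rw [hv₃]
      ring
    rw [h1, aeval_smul_form hF]
    have h2 : aeval (fun i => algebraMap M Ω (x i)) F = algebraMap M Ω (aeval x F) :=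
      (aeval_algebraMap_apply Ω x F)
    rw [h2, hx0, map_zero, mul_zero]
  have hI2 := hirr r d F hF hd hFi Ω v₁ v₂ v₃ β₁ β₂ hI hFv
  have hrange : Set.range (Sum.elim (Sum.elim v₁ v₂) ![γ, β₁, β₂]) =
      Set.range v₁ ∪ Set.range v₂ ∪ {γ, β₁, β₂} := by
    rw [Set.Sum.elim_range, Set.Sum.elim_range]
    congr 1
    ext z
    simp only [Set.mem_range, Fin.exists_fin_succ, Set.mem_insert_iff, Set.mem_singleton_iff]
    simp [eq_comm]
  obtain ⟨hE1, hE2⟩ := hext R M Ω _ _ hτ (by rw [hrange]; exact htop)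
  rw [hrange] at hE1 hE2
  set T0 : Set Ω := Set.range v₁ ∪ Set.range v₂ ∪ {γ, β₁, β₂} with hT0
  -- the two fields have the same elements
  have hγ : γ ≠ 0 := by
    have h1 := hτ.ne_zero (Sum.inr 0)
    exact h1
  obtain ⟨j, hj⟩ := hx1
  have hmem : ∀ z : Ω, z ∈ (adjoin R T0 : IntermediateField R Ω) ↔ z ∈ (adjoin A {β₁} : IntermediateField A Ω) := by
    have hAβ : ∀ z : Ω, z ∈ (adjoin A {β₁} : IntermediateField A Ω) ↔
        z ∈ adjoin ℂ (S0 ∪ {β₁}) := by
      intro z
      rw [← IntermediateField.adjoin_adjoin_left]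
      rfl
    have hs1 : ∀ i, v₁ i ∈ adjoin ℂ (S0 ∪ {β₁}) := fun i =>
      subset_adjoin _ _ (Or.inl (Or.inl (Or.inl (Or.inl ⟨i, rfl⟩))))
    have hs2 : ∀ i, v₂ i ∈ adjoin ℂ (S0 ∪ {β₁}) := fun i =>
      subset_adjoin _ _ (Or.inl (Or.inl (Or.inl (Or.inr ⟨i, rfl⟩))))
    have hs3 : ∀ i, v₃ i ∈ adjoin ℂ (S0 ∪ {β₁}) := fun i =>
      subset_adjoin _ _ (Or.inl (Or.inl (Or.inr ⟨i, rfl⟩)))
    have hb2 : β₂ ∈ adjoin ℂ (S0 ∪ {β₁}) := subset_adjoin _ _ (Or.inl (Or.inr rfl))
    have hb1 : β₁ ∈ adjoin ℂ (S0 ∪ {β₁}) := subset_adjoin _ _ (Or.inr rfl)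
    have hgx : ∀ i, γ * algebraMap M Ω (x i) ∈ adjoin ℂ (S0 ∪ {β₁}) := by
      intro i
      have h1 : γ * algebraMap M Ω (x i) = v₃ i - β₁ * v₁ i - β₂ * v₂ i := by
        rw [hv₃]
        ring
      rw [h1]
      exact sub_mem (sub_mem (hs3 i) (mul_mem hb1 (hs1 i))) (mul_mem hb2 (hs2 i))
    have hg : γ ∈ adjoin ℂ (S0 ∪ {β₁}) := by
      have := hgx j
      rwa [hj, map_one, mul_one] at this
    have hxi : ∀ i, algebraMap M Ω (x i) ∈ adjoin ℂ (S0 ∪ {β₁}) := by
      intro i
      have h1 : algebraMap M Ω (x i) = γ * algebraMap M Ω (x i) / γ := by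
        field_simp
      rw [h1]
      exact div_mem (hgx i) hg
    have hR : ∀ z : R, algebraMap M Ω (z : M) ∈ adjoin ℂ (S0 ∪ {β₁}) := by
      intro z
      have hz : (z : M) ∈ ratioField x := z.2
      generalize (z : M) = y at hz
      unfold ratioField at hz
      induction hz using IntermediateField.adjoin_induction with
      | mem y hy =>
        obtain ⟨i, k, rfl⟩ := hy
        rw [map_div₀]
        exact div_mem (hxi i) (hxi k)
      | algebraMap c =>
        rw [← IsScalarTower.algebraMap_apply]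
        exact IntermediateField.algebraMap_mem _ _
      | add a b _ _ ha hb =>
        rw [map_add]
        exact add_mem ha hb
      | inv a _ ha =>
        rw [map_inv₀]
        exact inv_mem ha
      | mul a b _ _ ha hb =>
        rw [map_mul]
        exact mul_mem ha hb
    intro z
    rw [hAβ]
    constructor
    · intro hz
      induction hz using IntermediateField.adjoin_induction with
      | mem y hy =>
        rcases hy with (hy | hy) | hy
        · obtain ⟨i, rfl⟩ := hy
          exact hs1 i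
        · obtain ⟨i, rfl⟩ := hy
          exact hs2 i
        · rcases hy with rfl | rfl | hy
          · exact hg
          · exact hb1
          · rw [Set.mem_singleton_iff] at hy
            rw [hy]
            exact hb2
      | algebraMap c => exact hR c
      | add a b _ _ ha hb => exact add_mem ha hb
      | inv a _ ha => exact inv_mem ha
      | mul a b _ _ ha hb => exact mul_mem ha hb
    · intro hz
      have ht1 : ∀ i, v₁ i ∈ (adjoin R T0 : IntermediateField R Ω) := fun i =>
        subset_adjoin _ _ (Or.inl (Or.inl ⟨i, rfl⟩))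
      have ht2 : ∀ i, v₂ i ∈ (adjoin R T0 : IntermediateField R Ω) := fun i =>
        subset_adjoin _ _ (Or.inl (Or.inr ⟨i, rfl⟩))
      have htg : γ ∈ (adjoin R T0 : IntermediateField R Ω) :=
        subset_adjoin _ _ (Or.inr (Or.inl rfl))
      have htb1 : β₁ ∈ (adjoin R T0 : IntermediateField R Ω) :=
        subset_adjoin _ _ (Or.inr (Or.inr (Or.inl rfl)))
      have htb2 : β₂ ∈ (adjoin R T0 : IntermediateField R Ω) :=
        subset_adjoin _ _ (Or.inr (Or.inr (Or.inr rfl)))
      have htx : ∀ i, algebraMap M Ω (x i) ∈ (adjoin R T0 : IntermediateField R Ω) := by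
        intro i
        have h1 : x i ∈ ratioField x := by
          have : x i = x i / x j := by rw [hj, div_one]
          rw [this]
          exact subset_adjoin _ _ ⟨i, j, rfl⟩
        exact IntermediateField.algebraMap_mem (adjoin R T0) (⟨x i, h1⟩ : R)
      have ht3 : ∀ i, v₃ i ∈ (adjoin R T0 : IntermediateField R Ω) := by
        intro i
        rw [hv₃]
        exact add_mem (add_mem (mul_mem htg (htx i)) (mul_mem htb1 (ht1 i))) (mul_mem htb2 (ht2 i))
      induction hz using IntermediateField.adjoin_induction with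
      | mem y hy =>
        rcases hy with (((hy | hy) | hy) | hy) | hy
        · obtain ⟨i, rfl⟩ := hy
          exact ht1 i
        · obtain ⟨i, rfl⟩ := hy
          exact ht2 i
        · obtain ⟨i, rfl⟩ := hy
          exact ht3 i
        · rw [Set.mem_singleton_iff] at hy
          rw [hy]
          exact htb2
        · rw [Set.mem_singleton_iff] at hy
          rw [hy]
          exact htb1
      | algebraMap c =>
        have h1 : algebraMap ℂ Ω c = algebraMap R Ω (algebraMap ℂ R c) := by
          rw [← IsScalarTower.algebraMap_apply]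
        rw [h1]
        exact IntermediateField.algebraMap_mem _ _
      | add a b _ _ ha hb => exact add_mem ha hb
      | inv a _ ha => exact inv_mem ha
      | mul a b _ _ ha hb => exact mul_mem ha hb
  have hsame := finrank_same (A := (adjoin R T0 : IntermediateField R Ω))
    (B := (adjoin A {β₁} : IntermediateField A Ω)) (Ω := Ω) (by
      intro z
      constructor
      · rintro ⟨a, rfl⟩
        exact ⟨⟨(a : Ω), (hmem a).1 a.2⟩, rfl⟩
      · rintro ⟨a, rfl⟩
        exact ⟨⟨(a : Ω), (hmem a).2 a.2⟩, rfl⟩)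
  have hfin2 : FiniteDimensional (adjoin A {β₁} : IntermediateField A Ω) Ω := hsame.1.1 hE1
  have hfin1 : FiniteDimensional A (adjoin A {β₁} : IntermediateField A Ω) := by
    apply FiniteDimensional.of_finrank_pos
    rw [hI2]
    omega
  refine ⟨FiniteDimensional.trans A (adjoin A {β₁} : IntermediateField A Ω) Ω, ?_⟩
  have hmul := Module.finrank_mul_finrank A (adjoin A {β₁} : IntermediateField A Ω) Ω
  rw [← hmul, hI2, ← hsame.2, hE2]

end Pool.Agent.Y201.LI
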