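import Mathlib
import Pool.Agent.Y201.C3.Cases
import Pool.Agent.Y201.LI.Stm2

/-! # Project LI: a family of conics which start on a line contained in no plane -/

set_option autoImplicit false
set_option linter.unusedSectionVars false

namespace Pool.Agent.Y201.LI

open MvPolynomial Pool.Agent.TH314.PD Pool.Agent.Y201.C3

noncomputable section

theorem co_E (P : Matrix (Fin 6) (Fin 6) ℂ) (a : Fin 6) : co P (E a : Fin 6 → ℂ) = P a := by
  funext j
  unfold co E
  rw [Finset.sum_eq_single a]
  · rw [Pi.single_eq_same, one_mul]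
    rfl
  · intro b _ hb
    rw [Pi.single_eq_of_ne hb, zero_mul]
  · intro h
    exact absurd (Finset.mem_univ _) h

theorem ind_E (y : Fin 6 → ℂ) (h0 : y 0 = 0) (h1 : y 1 = 0) (hy : y ≠ 0) :
    LinearIndependent ℂ ![(E 0 : Fin 6 → ℂ), E 1, y] := by
  rw [Fintype.linearIndependent_iff]
  intro g hg
  rw [Fin.sum_univ_three] at hg
  have e0 : (E 0 : Fin 6 → ℂ) 0 = 1 := Pi.single_eq_same _ _
  have e1 : (E 1 : Fin 6 → ℂ) 1 = 1 := Pi.single_eq_same _ _
  have hE : ∀ a b : Fin 6, b ≠ a → (E a : Fin 6 → ℂ) b = 0 := fun a b h =>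
    Pi.single_eq_of_ne h _
  have h2 := congrFun hg 0
  have h3 := congrFun hg 1
  simp only [Matrix.cons_val_zero, Matrix.cons_val_one, Matrix.cons_val, Pi.add_apply,
    Pi.smul_apply, smul_eq_mul, Pi.zero_apply, h0, h1, e0, e1, hE 0 1 (by decide),
    hE 1 0 (by decide)] at h2 h3
  have g0 : g 0 = 0 := by linear_combination h2
  have g1 : g 1 = 0 := by linear_combination h3
  have g2 : g 2 = 0 := by
    by_contra hne
    apply hy
    funext i
    have h4 := congrFun hg i
    simp only [Matrix.cons_val_zero, Matrix.cons_val_one, Matrix.cons_val, Pi.add_apply,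
      Pi.smul_apply, smul_eq_mul, Pi.zero_apply, g0, g1, zero_mul, zero_add] at h4
    exact (mul_eq_zero.1 h4).resolve_left hne
  intro i
  fin_cases i
  · exact g0
  · exact g1
  · exact g2

theorem noplane_co2 {T : Fin 6 → Fin 6 → Fin 6 → ℂ} (hT : SymT T)
    (P N : Matrix (Fin 6) (Fin 6) ℂ) (h : P * N = 1) {p q : Fin 6 → ℂ} (hp : P 0 = p)
    (hq : P 1 = q)
    (hN : ∀ y : Fin 6 → ℂ, LinearIndependent ℂ ![p, q, y] → ∃ i j k : Fin 3,
      Bf T ((![p, q, y] : Fin 3 → Fin 6 → ℂ) i) ((![p, q, y] : Fin 3 → Fin 6 → ℂ) j)
        ((![p, q, y] : Fin 3 → Fin 6 → ℂ) k) ≠ 0)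
    (y : Fin 6 → ℂ) (h0 : y 0 = 0) (h1 : y 1 = 0) (hy : y ≠ 0) :
    ∃ i j k : Fin 3, Bf (comp T P) ((![E 0, E 1, y] : Fin 3 → Fin 6 → ℂ) i)
        ((![E 0, E 1, y] : Fin 3 → Fin 6 → ℂ) j) ((![E 0, E 1, y] : Fin 3 → Fin 6 → ℂ) k) ≠ 0 := by
  have h2 : LinearIndependent ℂ (coL P ∘ ![(E 0 : Fin 6 → ℂ), E 1, y]) := by
    refine (ind_E y h0 h1 hy).map' _ ?_
    rw [LinearMap.ker_eq_bot]
    exact Function.LeftInverse.injective (g := co N) (co_co P N h)
  have h3 : ∀ i : Fin 3, (![p, q, co P y] : Fin 3 → Fin 6 → ℂ) i =
      co P ((![E 0, E 1, y] : Fin 3 → Fin 6 → ℂ) i) := by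
    intro i
    fin_cases i
    · change p = co P (E 0)
      rw [co_E, hp]
    · change q = co P (E 1)
      rw [co_E, hq]
    · rfl
  have h4 : (coL P ∘ ![(E 0 : Fin 6 → ℂ), E 1, y]) = ![p, q, co P y] := by
    funext i
    rw [h3]
    rfl
  rw [h4] at h2
  obtain ⟨i, j, k, h5⟩ := hN _ h2
  refine ⟨i, j, k, ?_⟩
  rw [Bf_co hT, ← h3, ← h3, ← h3]
  exact h5

theorem core2 (hCB : S_CB) (hANI : S_ANI2)
    {T : Fin 6 → Fin 6 → Fin 6 → ℂ} (hT : SymT T) (hS : SmoothT T)
    (hLF : LineFree (frm T))
    {M : Type} [Field M] [Algebra ℂ M] (htr : Algebra.trdeg ℂ M = 4)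
    (x : Fin 6 → M) (hx : Bf T x x x = 0)
    (hforms : ∀ (e : ℕ) (H : MvPolynomial (Fin 6) ℂ), H.IsHomogeneous e → aeval x H = 0 →
      frm T ∣ H)
    (hRR : ratioField x = ⊤)
    (L : IntermediateField ℂ M) (t : M) (ht : Transcendental L t)
    (lam Q Cc : Fin 6 → M) (hl : ∀ i, lam i ∈ L) (hQ : ∀ i, Q i ∈ L) (hC : ∀ i, Cc i ∈ L)
    (hexp : x = fun i => t ^ 2 * lam i + t * Q i + Cc i)
    (p q : Fin 6 → ℂ) (a b : M)
    (hlam : ∀ i, lam i = a * algebraMap ℂ M (p i) + b * algebraMap ℂ M (q i))
    (hline : ∀ i j k : Fin 2, Bf T (![p, q] i) (![p, q] j) (![p, q] k) = 0)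
    (hind : LinearIndependent ℂ ![p, q] ∨ b = 0)
    (hN : ∀ y : Fin 6 → ℂ, LinearIndependent ℂ ![p, q, y] → ∃ i j k : Fin 3,
      Bf T ((![p, q, y] : Fin 3 → Fin 6 → ℂ) i) ((![p, q, y] : Fin 3 → Fin 6 → ℂ) j)
        ((![p, q, y] : Fin 3 → Fin 6 → ℂ) k) ≠ 0) : False := by
  obtain ⟨h6, u, w, hu, hw, huw, hz⟩ := linear_case hT L t ht lam Q Cc hl hQ hC x hx hexp
  by_cases hl0 : lam = 0
  · -- a family of lines
    refine hLF M htr L t ht Q Cc hQ hC ?_ ?_
    · rw [aeval_frm]
      have h1 : (fun i => t * Q i + Cc i) = x := by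
        rw [hexp]
        funext i
        rw [hl0, Pi.zero_apply, mul_zero, zero_add]
      rw [h1, hx]
    · have h1 : (fun i => t * Q i + Cc i) = x := by
        rw [hexp]
        funext i
        rw [hl0, Pi.zero_apply, mul_zero, zero_add]
      rw [h1, hRR, IntermediateField.finrank_top]
      exact odd_one
  · have key : Odd (Module.finrank (ratioField fun i => Bf T lam lam x * x i -
        Bf T lam x x * lam i) M) := by
      rcases hind with hind | hb
      · obtain ⟨P, N, hPN, hNP, hP0, hP1⟩ := exists_mat p q hind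
        have hT' : SymT (comp T P) := comp_sym hT P
        have hS' := smooth_co hT hS P N hPN hNP
        have hN' := noplane_co2 hT P N hPN hP0 hP1 hN
        have hL' : LineT (comp T P) := by
          intro i j k hi hj hk
          have hrow : ∀ i : Fin 6, i.val < 2 → ∃ i' : Fin 2, P i = ![p, q] i' := by
            intro i hi
            have : i = 0 ∨ i = 1 := by omega
            rcases this with rfl | rfl
            · exact ⟨0, hP0⟩
            · exact ⟨1, hP1⟩
          obtain ⟨i', hi'⟩ := hrow i hi
          obtain ⟨j', hj'⟩ := hrow j hj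
          obtain ⟨k', hk'⟩ := hrow k hk
          have := hline i' j' k'
          rw [← hi', ← hj', ← hk'] at this
          exact this
        have hani := hANI (comp T P) hT' hS' hL' hN'
        have hxc : co P (co N x) = x := co_co N P hNP x
        have hforms' := forms_co hT P N hPN x hforms
        have hF0 : ∀ T' : Fin 6 → Fin 6 → Fin 6 → ℂ, SymT T' → SmoothT T' → frm T' ≠ 0 := by
          intro T' h1 h2 h
          have h3 := degree_pos h1 h2
          rw [h] at h3
          simp at h3
        have hb : ∃ b, x b ≠ 0 := by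
          by_contra hcon
          push Not at hcon
          have h2 : aeval x (X 0 : MvPolynomial (Fin 6) ℂ) = 0 := by rw [aeval_X, hcon]
          have h3 := eq_zero_of_dvd (frm_hom T) (hF0 T hT hS) (isHomogeneous_X ℂ (0 : Fin 6))
            (by norm_num) (hforms 1 _ (isHomogeneous_X _ _) h2)
          exact X_ne_zero _ h3
        have hRR' : ratioField (co N x) = ⊤ := by
          rw [ratio_co P N hPN hNP x hb, hRR]
        have hlam' : co P (co N lam) = lam := co_co N P hNP lam
        have hlamN : co N lam = fun i => if i = 0 then a else if i = 1 then b else 0 := by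
          have h1 : co P (fun i => if i = 0 then a else if i = 1 then b else 0) = lam := by
            funext j
            unfold co
            have h01 : P 0 j = p j := by rw [hP0]
            have h11 : P 1 j = q j := by rw [hP1]
            rw [hlam j, Fin.sum_univ_succ, Fin.sum_univ_succ, Finset.sum_eq_zero]
            · have h12 : (Fin.succ 0 : Fin 6) = 1 := rfl
              rw [h12, h01, h11]
              simp
            · intro i _
              have e1 : (i.succ.succ : Fin 6) ≠ 0 := Fin.succ_ne_zero _
              have e2 : (i.succ.succ : Fin 6) ≠ 1 := by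
                intro h
                have := congrArg Fin.val h
                simp at this
              simp only [if_neg e1, if_neg e2, zero_mul]
          rw [← h1, co_co P N hPN]
        obtain ⟨hk, hodd⟩ := hCB (comp T P) hT' hL' hani M htr (co N x) (by
            rw [Bf_co hT, hxc, hx])
          (forms_last hT' hS' (co N x) hforms') hRR' (co N lam) (by
            intro h
            apply hl0
            rw [← hlam', h, co_zero])
          (by
            intro i hi
            rw [hlamN]
            have e1 : i ≠ 0 := by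
              rintro rfl
              simp at hi
            have e2 : i ≠ 1 := by
              rintro rfl
              simp at hi
            simp only [if_neg e1, if_neg e2])
        rw [Bf_co hT, hxc, hlam'] at hk
        have h8 : (fun i => Bf (comp T P) (co N lam) (co N lam) (co N x) * co N x i -
            Bf (comp T P) (co N lam) (co N x) (co N x) * co N lam i) =
            co N (fun i => Bf T lam lam x * x i - Bf T lam x x * lam i) := by
          funext j
          rw [Bf_co hT, Bf_co hT, hxc, hlam']
          unfold co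
          simp only [sub_mul, Finset.sum_sub_distrib, Finset.mul_sum, mul_assoc]
        rw [h8] at hodd
        have hx'b : ∃ b, (fun i => Bf T lam lam x * x i - Bf T lam x x * lam i) b ≠ 0 := by
          by_contra hcon
          push Not at hcon
          have h9 : co N x 5 ≠ 0 := by
            intro h
            have h2 : aeval (co N x) (X 5 : MvPolynomial (Fin 6) ℂ) = 0 := by rw [aeval_X, h]
            have h3 := eq_zero_of_dvd (frm_hom _) (hF0 _ hT' hS') (isHomogeneous_X ℂ (5 : Fin 6))
              (by norm_num) (hforms' 1 _ (isHomogeneous_X _ _) h2)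
            exact X_ne_zero _ h3
          have h10 := congrFun h8 5
          have h11 : (fun i => Bf T lam lam x * x i - Bf T lam x x * lam i) = 0 := funext hcon
          rw [h11, co_zero, Pi.zero_apply] at h10
          have h12 : co N lam 5 = 0 := by
            rw [hlamN]
            simp
          rw [h12, mul_zero, sub_zero, Bf_co hT, hxc, hlam'] at h10
          exact mul_ne_zero hk h9 h10
        rw [ratio_co P N hPN hNP _ hx'b] at hodd
        exact hodd
      · have hlam1 : ∀ i, lam i = a * algebraMap ℂ M (p i) := by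
          intro i
          rw [hlam, hb, zero_mul, add_zero]
        have ha : a ≠ 0 := by
          rintro rfl
          apply hl0
          funext i
          rw [hlam1, zero_mul]
          rfl
        have hp : p ≠ 0 := by
          rintro rfl
          apply hl0
          funext i
          rw [hlam1, Pi.zero_apply, map_zero, mul_zero]
          rfl
        rw [point_case hT hS x hx hforms p hp (hline 0 0 0) a ha lam hlam1, hRR,
          IntermediateField.finrank_top]
        exact odd_one
    rw [huw] at key
    refine hLF M htr L t ht u w hu hw ?_ key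
    rw [aeval_frm]
    exact hz

end

end Pool.Agent.Y201.LI
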