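import Mathlib
import Pool.Agent.Y201.C3.Main
import Pool.Agent.Y201.LI.Cases2

/-! # Project LI: main argument -/

set_option autoImplicit false
set_option linter.unusedSectionVars false

namespace Pool.Agent.Y201.LI

open MvPolynomial Pool.Agent.TH314.PD Pool.Agent.Y201.C3

noncomputable section

/-- the span of the derivatives at a base point reached along a line which meets no plane -/
theorem wspan2 {T : Fin 6 → Fin 6 → Fin 6 → ℂ} (hT : SymT T)
    (w : Fin 5 → Fin 6 → ℂ) (x₀ : Fin 6 → ℂ) (hx₀ : x₀ ≠ 0)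
    (hlim : ∀ z : ℂ × (Fin 5 → ℂ), eval (fun i => z.1 * x₀ i + ∑ l, z.2 l * w l i) (frm T) = 0)
    (hav : ∀ v : Fin 3 → Fin 6 → ℂ, LinearIndependent ℂ v →
      (∀ i j k, Bf T (v i) (v j) (v k) = 0) → x₀ ∉ Submodule.span ℂ (Set.range v)) :
    ∃ (p q : Fin 6 → ℂ) (c d : Fin 5 → ℂ), (∀ l i, w l i = c l * p i + d l * q i) ∧
      (∀ i j k : Fin 2, Bf T (![p, q] i) (![p, q] j) (![p, q] k) = 0) ∧
      (LinearIndependent ℂ ![p, q] ∨ ∀ l, d l = 0) ∧
      ∀ y : Fin 6 → ℂ, LinearIndependent ℂ ![p, q, y] → ∃ i j k : Fin 3,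
        Bf T ((![p, q, y] : Fin 3 → Fin 6 → ℂ) i) ((![p, q, y] : Fin 3 → Fin 6 → ℂ) j)
        ((![p, q, y] : Fin 3 → Fin 6 → ℂ) k) ≠ 0 := by
  set u : Fin 6 → Fin 6 → ℂ := Fin.cons x₀ w with hu
  have hu3 : ∀ a b c, Bf T (u a) (u b) (u c) = 0 := by
    have h4 : ∀ z : Fin 6 → ℂ, Bg (comp T u) z z z = 0 := by
      intro z
      have h1 := hlim (z 0, fun l => z l.succ)
      rw [ev_aeval, aeval_frm] at h1
      rw [Bg_comp hT]
      have h2 : (fun i => ∑ a, z a * algebraMap ℂ ℂ (u a i)) =
          (fun i => z 0 * x₀ i + ∑ l : Fin 5, z l.succ * w l i) := by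
        funext i
        rw [Fin.sum_univ_succ]
        rfl
      rw [h2]
      exact h1
    intro a b c
    have h5 := polar (comp_sym hT u) h4 (fun i => if i = a then (1 : ℂ) else 0)
      (fun i => if i = b then (1 : ℂ) else 0) (fun i => if i = c then (1 : ℂ) else 0)
    rw [← T_eq] at h5
    exact h5
  have hww : ∀ a b c, Bf T (w a) (w b) (w c) = 0 := fun a b c => hu3 a.succ b.succ c.succ
  by_cases h0 : ∀ l, w l = 0
  · refine ⟨0, 0, 0, 0, ?_, ?_, Or.inr fun _ => rfl, ?_⟩
    · intro l i
      rw [h0]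
      simp
    · intro i j k
      have h1 : ∀ i : Fin 2, (![0, 0] : Fin 2 → Fin 6 → ℂ) i = fun _ => 0 := by
        intro i
        fin_cases i <;> rfl
      rw [h1, Bf_eq, Bg_zero1]
    · intro y hy
      exact absurd rfl (hy.ne_zero 0)
  · push Not at h0
    obtain ⟨l0, hl0⟩ := h0
    by_cases h1 : ∀ l, ∃ c : ℂ, w l = c • w l0
    · choose c hc using h1
      refine ⟨w l0, w l0, c, 0, ?_, ?_, Or.inr fun _ => rfl, ?_⟩
      · intro l i
        rw [hc l]
        simp
      · intro i j k
        have h2 : ∀ i : Fin 2, (![w l0, w l0] : Fin 2 → Fin 6 → ℂ) i = w l0 := by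
          intro i
          fin_cases i <;> rfl
        rw [h2, h2, h2, hww]
      · intro y hy
        have h2 := hy.injective (a₁ := 0) (a₂ := 1) rfl
        exact absurd h2 (by decide)
    · push Not at h1
      obtain ⟨l1, hl1⟩ := h1
      have hind : LinearIndependent ℂ ![w l0, w l1] := by
        rw [LinearIndependent.pair_iff' hl0]
        exact fun a h => hl1 a h.symm
      -- `x₀` lies on the line
      have hx₀mem : x₀ ∈ Submodule.span ℂ (Set.range ![w l0, w l1]) := by
        by_contra hcon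
        have h3 : LinearIndependent ℂ (Fin.cons x₀ ![w l0, w l1] : Fin 3 → Fin 6 → ℂ) :=
          linearIndependent_finCons.2 ⟨hind, hcon⟩
        refine hav _ h3 ?_ (Submodule.subset_span ⟨0, rfl⟩)
        intro i j k
        have h5 : ∀ i : Fin 3, ∃ a, (Fin.cons x₀ ![w l0, w l1] : Fin 3 → Fin 6 → ℂ) i = u a := by
          intro i
          fin_cases i
          · exact ⟨0, rfl⟩
          · exact ⟨l0.succ, rfl⟩
          · exact ⟨l1.succ, rfl⟩
        obtain ⟨a, ha⟩ := h5 i
        obtain ⟨b, hb⟩ := h5 j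
        obtain ⟨c, hc⟩ := h5 k
        rw [ha, hb, hc, hu3]
      have hnp : ∀ v : Fin 3 → Fin 6 → ℂ, LinearIndependent ℂ v →
          (∀ i, (![w l0, w l1] : Fin 2 → Fin 6 → ℂ) i ∈ Submodule.span ℂ (Set.range v)) →
          ∃ i j k, Bf T (v i) (v j) (v k) ≠ 0 := by
        intro v hv hmem
        by_contra hcon
        push Not at hcon
        refine hav v hv hcon ?_
        have : Submodule.span ℂ (Set.range ![w l0, w l1]) ≤ Submodule.span ℂ (Set.range v) := by
          rw [Submodule.span_le]
          rintro _ ⟨i, rfl⟩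
          exact hmem i
        exact this hx₀mem
      have hspan : ∀ l, w l ∈ Submodule.span ℂ (Set.range ![w l0, w l1]) := by
        intro l
        by_contra hcon
        have h3 : LinearIndependent ℂ (Fin.cons (w l) ![w l0, w l1] : Fin 3 → Fin 6 → ℂ) :=
          linearIndependent_finCons.2 ⟨hind, hcon⟩
        obtain ⟨i, j, k, h4⟩ := hnp _ h3 (by
          intro i
          exact Submodule.subset_span ⟨i.succ, rfl⟩)
        apply h4
        have h5 : ∀ i : Fin 3, ∃ a, (Fin.cons (w l) ![w l0, w l1] : Fin 3 → Fin 6 → ℂ) i = w a := by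
          intro i
          fin_cases i
          · exact ⟨l, rfl⟩
          · exact ⟨l0, rfl⟩
          · exact ⟨l1, rfl⟩
        obtain ⟨a, ha⟩ := h5 i
        obtain ⟨b, hb⟩ := h5 j
        obtain ⟨c, hc⟩ := h5 k
        rw [ha, hb, hc, hww]
      have h6 : ∀ l, ∃ c d : ℂ, ∀ i, w l i = c * w l0 i + d * w l1 i := by
        intro l
        have h7 := hspan l
        rw [Submodule.mem_span_range_iff_exists_fun] at h7
        obtain ⟨c, hc⟩ := h7
        refine ⟨c 0, c 1, fun i => ?_⟩
        rw [← hc, Fin.sum_univ_two]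
        rfl
      choose c d hcd using h6
      refine ⟨w l0, w l1, c, d, hcd, ?_, Or.inl hind, ?_⟩
      · intro i j k
        have h2 : ∀ i : Fin 2, ∃ a, (![w l0, w l1] : Fin 2 → Fin 6 → ℂ) i = w a := by
          intro i
          fin_cases i
          · exact ⟨l0, rfl⟩
          · exact ⟨l1, rfl⟩
        obtain ⟨a, ha⟩ := h2 i
        obtain ⟨b, hb⟩ := h2 j
        obtain ⟨c, hc⟩ := h2 k
        rw [ha, hb, hc, hww]
      · intro y hy
        refine hnp _ hy ?_
        intro i
        fin_cases i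
        · exact Submodule.subset_span ⟨0, rfl⟩
        · exact Submodule.subset_span ⟨1, rfl⟩

/-- **Main argument in homogeneous form**: cubic forms in five variables, generic point `s`. -/
theorem main_hom2 (hCB : S_CB) (hANI : S_ANI2) (hAV : S_AVOID) (hARC : S_ARC) (hINV : S_INV)
    {T : Fin 6 → Fin 6 → Fin 6 → ℂ} (hT : SymT T) (hS : SmoothT T)
    (hLF : LineFree (frm T))
    {M : Type} [Field M] [Algebra ℂ M] (htr : Algebra.trdeg ℂ M = 4)
    (s : Fin 5 → M)
    (hs : ∀ (e : ℕ) (H : MvPolynomial (Fin 5) ℂ), H.IsHomogeneous e → aeval s H = 0 → H = 0)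
    (hgen : ratioField s = ⊤)
    (G : Fin 6 → MvPolynomial (Fin 5) ℂ) (hG : ∀ i, (G i).IsHomogeneous 3)
    (hFG : aeval G (frm T) = 0)
    (hforms : ∀ (e : ℕ) (H : MvPolynomial (Fin 6) ℂ), H.IsHomogeneous e →
      aeval (fun i => aeval s (G i)) H = 0 → frm T ∣ H)
    (hRR : ratioField (fun i => aeval s (G i)) = ⊤) : False := by
  classical
  have hF0 : frm T ≠ 0 := by
    intro h
    have h3 := degree_pos hT hS
    rw [h] at h3
    simp at h3
  -- the base point
  obtain ⟨m0, H0, hH0, hH1, i0, hi0⟩ := hINV (frm T) (frm_hom T) hF0 M s hs G hG hFG hforms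
    (fun i j => by
      rw [hRR]
      trivial)
  obtain ⟨p0, q0, hpq, hline0, hW0, havoid⟩ := hAV T hT hS (3 * m0) (aeval H0 (G i0))
    (by
      have := (hG i0).aeval H0 hH0
      rwa [mul_comm] at this) hi0
  obtain ⟨b, hb0, hb, x₀, hx₀, ⟨α, β, hαβ⟩, hlim⟩ := hARC T hT hS G hG hFG m0 H0 hH0 hH1 p0 q0 hpq
    hline0 ⟨i0, hW0⟩
  obtain ⟨k, hk⟩ : ∃ k, b k ≠ 0 := by
    by_contra hcon
    push Not at hcon
    exact hb0 (funext hcon)
  have inj : Function.Injective (algebraMap ℂ M) := (algebraMap ℂ M).injective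
  have hbk : algebraMap ℂ M (b k) ≠ 0 := (map_ne_zero _).2 hk
  set θ : M := s k / algebraMap ℂ M (b k) with hθ
  set m : Fin 5 → M := fun i => s i - θ * algebraMap ℂ M (b i) with hm
  have hmk : m k = 0 := by
    rw [hm]
    simp only
    rw [hθ, div_mul_cancel₀ _ hbk, sub_self]
  have hmne : ∀ j, j ≠ k → m j ≠ 0 := by
    intro j hj h
    have h1 : aeval s (C (b k) * X j - C (b j) * X k : MvPolynomial (Fin 5) ℂ) = 0 := by
      rw [map_sub, map_mul, map_mul, aeval_C, aeval_C, aeval_X, aeval_X]
      have h2 : s j - θ * algebraMap ℂ M (b j) = 0 := h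
      have h3 : s j = θ * algebraMap ℂ M (b j) := sub_eq_zero.1 h2
      rw [h3, hθ]
      field_simp
      ring
    have h2 := hs 1 _ (((isHomogeneous_C _ _).mul (isHomogeneous_X ℂ j)).sub
      ((isHomogeneous_C _ _).mul (isHomogeneous_X ℂ k))) h1
    have h3 := congrArg (eval (Pi.single j (1 : ℂ))) h2
    rw [map_sub, map_mul, map_mul, eval_C, eval_C, eval_X, eval_X, map_zero, Pi.single_eq_same,
      Pi.single_eq_of_ne (Ne.symm hj), mul_zero, mul_one, sub_zero] at h3
    exact hk h3
  set q : Fin 4 → M := fun a => m (k.succAbove a) with hq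
  have hq3 : q 3 ≠ 0 := hmne _ (Fin.succAbove_ne k 3)
  set mj : M := q 3 with hmj
  set L : IntermediateField ℂ M := ratioField q with hL
  have hmL : ∀ i, m i / mj ∈ L := by
    intro i
    by_cases hi : i = k
    · rw [hi, hmk, zero_div]
      exact zero_mem _
    · obtain ⟨a, rfl⟩ := Fin.exists_succAbove_eq hi
      exact IntermediateField.subset_adjoin _ _ ⟨a, 3, rfl⟩
  set t : M := θ / mj with ht
  have hsm : ∀ i, s i / mj = t * algebraMap ℂ M (b i) + m i / mj := by
    intro i
    rw [ht, hm]
    field_simp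
    ring
  have htL : Transcendental L t := by
    intro halg
    refine Pool.Agent.Y246.C3.not_alg htr q hq3 ?_
    -- `M` is generated over `L` by `t`
    have h1 : IntermediateField.adjoin L ({t} : Set M) = ⊤ := by
      have h2 : ratioField s ≤ (IntermediateField.adjoin L ({t} : Set M)).restrictScalars ℂ := by
        unfold ratioField
        rw [IntermediateField.adjoin_le_iff]
        rintro z ⟨i, j, rfl⟩
        have h3 : ∀ i, s i / mj ∈ IntermediateField.adjoin L ({t} : Set M) := by
          intro i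
          rw [hsm]
          refine add_mem (mul_mem (IntermediateField.mem_adjoin_simple_self L t) ?_) ?_
          · have := (IntermediateField.adjoin L ({t} : Set M)).algebraMap_mem
              (algebraMap ℂ L (b i))
            exact this
          · have := (IntermediateField.adjoin L ({t} : Set M)).algebraMap_mem ⟨_, hmL i⟩
            exact this
        have h4 : s i / s j = (s i / mj) / (s j / mj) := by
          rw [div_div_div_cancel_right₀ hq3]
        rw [h4]
        exact div_mem (h3 i) (h3 j)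
      rw [hgen] at h2
      rw [eq_top_iff]
      intro z _
      exact h2 (IntermediateField.mem_top (F := ℂ) (x := z))
    have h5 : Algebra.IsAlgebraic L (IntermediateField.adjoin L ({t} : Set M)) := by
      have : IsIntegral L t := halg.isIntegral
      have := IntermediateField.isAlgebraic_adjoin_simple this
      exact this
    rw [h1] at h5
    exact (IntermediateField.topEquiv (F := L) (E := M)).isAlgebraic
  -- the point
  set mh : Fin 5 → M := fun i => m i / mj with hmh
  set x : Fin 6 → M := fun i => aeval (fun l => t * algebraMap ℂ M (b l) + mh l) (G i) with hx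
  have hxs : x = fun i => (mj⁻¹) ^ 3 * aeval s (G i) := by
    funext i
    rw [← aeval_smul_form (hG i), hx]
    simp only
    congr 2
    funext l
    rw [hmh]
    simp only
    rw [← hsm, div_eq_mul_inv, mul_comm]
  have hmj3 : (mj⁻¹) ^ 3 ≠ 0 := pow_ne_zero 3 (inv_ne_zero hq3)
  have hRRx : ratioField x = ⊤ := by rw [hxs, ratio_smul _ hmj3, hRR]
  have hformsx : ∀ (e : ℕ) (H : MvPolynomial (Fin 6) ℂ), H.IsHomogeneous e → aeval x H = 0 →
      frm T ∣ H := by
    intro e H hH h
    rw [hxs, aeval_smul_form hH] at h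
    exact hforms e H hH ((mul_eq_zero.1 h).resolve_left (pow_ne_zero e hmj3))
  have hx0 : Bf T x x x = 0 := by
    rw [← aeval_frm, hxs, aeval_smul_form (frm_hom T)]
    have h1 : aeval (fun i => aeval s (G i)) (frm T) = aeval s (aeval G (frm T)) := by
      have h2 : (aeval s).comp (aeval G) =
          (aeval (fun i => aeval s (G i)) : MvPolynomial (Fin 6) ℂ →ₐ[ℂ] M) := by
        apply algHom_ext
        intro i
        rw [AlgHom.comp_apply, aeval_X, aeval_X]
      rw [← h2]
      rfl
    rw [h1, hFG, map_zero, mul_zero]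
  -- expansion
  set w : Fin 5 → Fin 6 → ℂ := fun l i => eval b (pderiv l (G i)) with hw
  set lam : Fin 6 → M := fun i => ∑ l, mh l * algebraMap ℂ M (w l i) with hlam
  set Q : Fin 6 → M := fun i => ∑ l, algebraMap ℂ M (b l) * aeval mh (pderiv l (G i)) with hQ
  set Cc : Fin 6 → M := fun i => aeval mh (G i) with hC
  have hexp : x = fun i => t ^ 2 * lam i + t * Q i + Cc i := by
    funext i
    rw [hx]
    simp only
    rw [expand_line (G i) (hG i), hb, map_zero, mul_zero, zero_add]
  have hLa : ∀ p : MvPolynomial (Fin 5) ℂ, aeval mh p ∈ L := by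
    intro p
    induction p using MvPolynomial.induction_on with
    | C a =>
      rw [aeval_C]
      exact L.algebraMap_mem a
    | add f g hf hg =>
      rw [map_add]
      exact add_mem hf hg
    | mul_X f i hf =>
      rw [map_mul, aeval_X]
      exact mul_mem hf (hmL i)
  have hl : ∀ i, lam i ∈ L := fun i => sum_mem fun l _ => mul_mem (hmL l) (L.algebraMap_mem _)
  have hQL : ∀ i, Q i ∈ L := fun i => sum_mem fun l _ => mul_mem (L.algebraMap_mem _) (hLa _)
  have hCL : ∀ i, Cc i ∈ L := fun i => hLa _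
  obtain ⟨h6, -⟩ := linear_case hT L t htL lam Q Cc hl hQL hCL x hx0 hexp
  -- the span of the derivatives
  have hbw : ∀ i, ∑ l, b l * w l i = 0 := by
    intro i
    rw [hw]
    simp only
    rw [euler0 (G i) (hG i) b, hb, mul_zero]
  have hlam2 : lam = fun i => ∑ l, (s l / mj) * algebraMap ℂ M (w l i) := by
    funext i
    have h1 : ∑ l, (s l / mj) * algebraMap ℂ M (w l i) =
        t * algebraMap ℂ M (∑ l, b l * w l i) + ∑ l, mh l * algebraMap ℂ M (w l i) := by
      rw [map_sum, Finset.mul_sum, ← Finset.sum_add_distrib]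
      refine Finset.sum_congr rfl fun l _ => ?_
      rw [hsm, map_mul]
      ring
    rw [h1, hbw, map_zero, mul_zero, zero_add]
  obtain ⟨p, q', c, d, hcd, hline, hind, hNP⟩ := wspan2 hT w x₀ hx₀ (fun z => hlim z.1 z.2)
    (by
      intro v hv hv0 hmem
      rw [hαβ] at hmem
      obtain ⟨h1, h2⟩ := havoid v hv hv0 α β hmem
      apply hx₀
      rw [hαβ, h1, h2, zero_smul, zero_smul, add_zero])
  refine core2 hCB hANI hT hS hLF htr x hx0 hformsx hRRx L t htL lam Q Cc hl hQL hCL hexp
    p q' (∑ l, mh l * algebraMap ℂ M (c l)) (∑ l, mh l * algebraMap ℂ M (d l)) ?_ hline ?_ hNP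
  · intro i
    rw [hlam]
    simp only
    rw [Finset.sum_mul, Finset.sum_mul, ← Finset.sum_add_distrib]
    refine Finset.sum_congr rfl fun l _ => ?_
    rw [hcd, map_add, map_mul, map_mul]
    ring
  · rcases hind with h | h
    · exact Or.inl h
    · right
      refine Finset.sum_eq_zero fun l _ => ?_
      rw [h, map_zero, mul_zero]

end

end Pool.Agent.Y201.LI
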