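import Mathlib
import Pool.Agent.TH314.PD.Final
import Pool.Agent.Y960.C3.Line
import Pool.Agent.Y201.LI.Main2

/-! # Project LI: smooth cubic fourfolds have no family of lines of odd degree and no
parametrization of degree three -/

set_option autoImplicit false

namespace Pool.Agent.Y201.LI

open MvPolynomial Pool.Agent.TH314.PD Pool.Agent.Y201.C3 Pool.Agent.Y960.C3

/-- the components of a polynomial which vanishes on the line through a point vanish at the point -/
theorem comp_zero {σ : Type} {M : Type} [Field M] [Algebra ℂ M] (x : σ → M)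
    (A : MvPolynomial σ ℂ)
    (h : aeval (fun i => Polynomial.X * Polynomial.C (x i) : σ → Polynomial M) A = 0) (k : ℕ) :
    aeval x (homogeneousComponent k A) = 0 := by
  have h1 : aeval (fun i => Polynomial.X * Polynomial.C (x i) : σ → Polynomial M) A =
      ∑ j ∈ Finset.range (A.totalDegree + 1),
        Polynomial.X ^ j * Polynomial.C (aeval x (homogeneousComponent j A)) := by
    conv_lhs => rw [← sum_homogeneousComponent A]
    rw [map_sum]
    refine Finset.sum_congr rfl fun j _ => ?_
    rw [aeval_smul_form (homogeneousComponent_isHomogeneous j A)]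
    congr 1
    exact aeval_algebraMap_apply (Polynomial M) x (homogeneousComponent j A)
  rw [h] at h1
  by_cases hk : k < A.totalDegree + 1
  · have h3 := congrArg (fun p => Polynomial.coeff p k) h1
    simp only [Polynomial.coeff_zero, Polynomial.finsetSum_coeff] at h3
    rw [Finset.sum_eq_single k] at h3
    · rw [Polynomial.coeff_X_pow_mul', if_pos le_rfl, Nat.sub_self, Polynomial.coeff_C_zero] at h3
      exact h3.symm
    · intro j _ hj
      rw [Polynomial.coeff_X_pow_mul']
      by_cases h4 : j ≤ k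
      · rw [if_pos h4, Polynomial.coeff_C, if_neg]
        omega
      · rw [if_neg h4]
    · intro h4
      exact absurd (Finset.mem_range.2 hk) h4
  · rw [homogeneousComponent_eq_zero k A (by omega), map_zero]

theorem irreducible_of_generic {σ : Type} {d : ℕ} {F : MvPolynomial σ ℂ} (hF : F.IsHomogeneous d)
    (hF0 : F ≠ 0) {M : Type} [Field M] [Algebra ℂ M] (x : σ → M)
    (hx0 : aeval x F = 0)
    (hx : ∀ (e : ℕ) (H : MvPolynomial σ ℂ), H.IsHomogeneous e → aeval x H = 0 → F ∣ H) :
    Irreducible F := by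
  have hnu : ¬ IsUnit F := by
    intro hu
    have h1 := hu.map (aeval x : MvPolynomial σ ℂ →ₐ[ℂ] M)
    rw [hx0] at h1
    exact not_isUnit_zero h1
  refine ⟨hnu, fun A B hAB => ?_⟩
  have h1 : aeval (fun i => Polynomial.X * Polynomial.C (x i) : σ → Polynomial M) F = 0 := by
    rw [aeval_smul_form hF]
    have h2 := aeval_algebraMap_apply (Polynomial M) x F
    rw [hx0, map_zero] at h2
    have h3 : aeval (fun i => Polynomial.C (x i) : σ → Polynomial M) F = 0 := h2
    rw [h3, mul_zero]
  have key : ∀ A : MvPolynomial σ ℂ,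
      aeval (fun i => Polynomial.X * Polynomial.C (x i) : σ → Polynomial M) A = 0 → F ∣ A := by
    intro A h
    rw [← sum_homogeneousComponent A]
    exact Finset.dvd_sum fun k _ => hx k _ (homogeneousComponent_isHomogeneous k A)
      (comp_zero x A h k)
  rw [hAB, map_mul] at h1
  rcases mul_eq_zero.1 h1 with h | h
  · right
    obtain ⟨C', hC⟩ := key A h
    have h3 : F * 1 = F * (C' * B) := by
      rw [mul_one, ← mul_assoc, ← hC, ← hAB]
    have h4 := mul_left_cancel₀ hF0 h3
    exact IsUnit.of_mul_eq_one _ (by rw [mul_comm]; exact h4.symm)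
  · left
    obtain ⟨C', hC⟩ := key B h
    have h3 : F * 1 = F * (C' * A) := by
      rw [mul_one, ← mul_assoc, ← hC, mul_comm B A, ← hAB]
    have h4 := mul_left_cancel₀ hF0 h3
    exact IsUnit.of_mul_eq_one _ (by rw [mul_comm]; exact h4.symm)

theorem lineFree (hT1 : S_T1) (F : MvPolynomial (Fin 6) ℂ) (hF : F.IsHomogeneous 3) (hF0 : F ≠ 0)
    (hsm : ∀ z : Fin 6 → ℂ, (∀ i, eval z (pderiv i F) = 0) → z = 0)
    (hprime : ∀ (a b : ℕ) (A B : MvPolynomial (Fin 6) ℂ), A.IsHomogeneous a →
      B.IsHomogeneous b → F ∣ A * B → F ∣ A ∨ F ∣ B) : LineFree F := by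
  classical
  intro M _ _ htr L t ht u w hu hw hFx hodd
  set x : Fin 6 → M := fun i => t * u i + w i with hx
  have hfin : FiniteDimensional (ratioField x) M := FiniteDimensional.of_finrank_pos hodd.pos
  have hnot : ¬ ratioField x ≤ L := by
    intro hle
    apply ht
    have h1 : IsAlgebraic (ratioField x) t := Algebra.IsAlgebraic.isAlgebraic t
    let _ : Algebra (ratioField x) L := (IntermediateField.inclusion hle).toRingHom.toAlgebra
    have : IsScalarTower (ratioField x) L M := IsScalarTower.of_algebraMap_eq fun _ => rfl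
    exact h1.extendScalars (IntermediateField.inclusion hle).toRingHom.injective
  have hxj : ∃ j, x j ≠ 0 := by
    by_contra hcon
    push Not at hcon
    apply hnot
    unfold ratioField
    rw [IntermediateField.adjoin_le_iff]
    rintro _ ⟨a, b, rfl⟩
    rw [hcon a, zero_div]
    exact zero_mem _
  obtain ⟨j, hj⟩ := hxj
  obtain ⟨ζ, hζ⟩ := exists_zeta htr x j hj hfin
  have hker : ∀ (e : ℕ) (H : MvPolynomial (Fin 6) ℂ), H.IsHomogeneous e → aeval x H = 0 →
      F ∣ H := by
    intro e H hH h0
    refine dom_of_indep (n := 4) hF (by norm_num) hF0 hprime (aeval x)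
      (Fin.cons j ζ : Fin 5 → Fin 6) hFx ?_ hH h0
    intro l A hA hA0
    rw [aeval_rename] at hA0
    refine no_form (fun l => x (ζ l) / x j) hζ (x j) hj l A hA ?_
    rw [← hA0]
    congr 2
    funext i
    refine Fin.cases ?_ (fun l => ?_) i
    · rw [Fin.cons_zero, mul_one]
      rfl
    · rw [Fin.cons_succ]
      change x j * (x (ζ l) / x j) = x (ζ l)
      field_simp
  have hirr := irreducible_of_generic hF hF0 x hFx hker
  have h2 := hT1 6 3 F hF (by norm_num) hirr hsm M L t ht u w hu hw hFx hker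
  rcases hodd with ⟨k, hk⟩
  rw [hk] at h2
  omega

theorem prime_of_zero {F : MvPolynomial (Fin 6) ℂ} {R : Type} [CommRing R] [IsDomain R]
    [Algebra ℂ R] (x : Fin 6 → R) (hF : aeval x F = 0)
    (hx : ∀ (e : ℕ) (H : MvPolynomial (Fin 6) ℂ), H.IsHomogeneous e → aeval x H = 0 → F ∣ H) :
    ∀ (a b : ℕ) (A B : MvPolynomial (Fin 6) ℂ), A.IsHomogeneous a → B.IsHomogeneous b →
      F ∣ A * B → F ∣ A ∨ F ∣ B := by
  rintro a b A B hA hB ⟨E, hE⟩
  have h1 : aeval x A * aeval x B = 0 := by
    rw [← map_mul, hE, map_mul, hF, zero_mul]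
  rcases mul_eq_zero.1 h1 with h | h
  · exact Or.inl (hx a A hA h)
  · exact Or.inr (hx b B hB h)

theorem no_cubic (hcb : S_CB) (hANI : S_ANI2) (hAV : S_AVOID) (hARC : S_ARC) (hINV : S_INV)
    (hT1 : S_T1)
    {T : Fin 6 → Fin 6 → Fin 6 → ℂ} (hT : SymT T) (hS : SmoothT T)
    (hsm : ∀ z : Fin (4 + 2) → ℂ, (∀ i, eval z (pderiv i (frm T)) = 0) → z = 0)
    (N : ℕ) (G : Fin 6 → MvPolynomial (Fin N) ℂ) (hdeg : ∀ i, (G i).totalDegree ≤ 3)
    (hdom : aeval G (frm T) = 0 ∧ ∀ (e : ℕ) (H : MvPolynomial (Fin 6) ℂ), H.IsHomogeneous e →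
      aeval G H = 0 → frm T ∣ H) : False := by
  have hF := frm_hom T
  have hF0 : frm T ≠ 0 := ne_zero_of_smooth hsm
  have hLF : LineFree (frm T) := lineFree hT1 _ hF hF0 hsm (prime_of_zero G hdom.1 hdom.2)
  obtain ⟨c, A, h1, h2⟩ := restrict_exists (n := 4) (d := 3) (by norm_num) hF hF0 G hdom.1 hdom.2
  set G' : Fin 6 → MvPolynomial (Fin 4) ℂ := fun i => aeval (Pool.Agent.TH314.PD.sub c A) (G i) with hG'
  have hdeg' : ∀ i, (G' i).totalDegree ≤ 3 := fun i => aeval_sub_deg c A (G i) (hdeg i)
  obtain ⟨hfd, hb⟩ := bound (n := 4) (d := 3) (k := 3) (by norm_num) (frm T) hF hsm G' hdeg' h1 h2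
  let M := FractionRing (MvPolynomial (Fin 4) ℂ)
  let al : MvPolynomial (Fin 4) ℂ →ₐ[ℂ] M := IsScalarTower.toAlgHom ℂ _ M
  have hal : Function.Injective al := IsFractionRing.injective (MvPolynomial (Fin 4) ℂ) M
  set y : Fin 6 → M := fun i => al (G' i) with hy
  have hfd' : FiniteDimensional (ratioField y) M := hfd
  have hb' : Module.finrank (ratioField y) M * (3 * (3 - 1) ^ 4) ≤ (4 + 1) * (3 - 1) ^ 4 := hb
  have hone : Module.finrank (ratioField y) M = 1 := by
    have h5 : 0 < Module.finrank (ratioField y) M := Module.finrank_pos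
    norm_num at hb'
    omega
  have htop : ratioField y = ⊤ := IntermediateField.finrank_eq_one_iff_eq_top.1 hone
  have htr : Algebra.trdeg ℂ M = 4 := by
    have : Algebra.IsAlgebraic (MvPolynomial (Fin 4) ℂ) (FractionRing (MvPolynomial (Fin 4) ℂ)) :=
      (IsFractionRing.comap_isAlgebraic_iff (K := FractionRing (MvPolynomial (Fin 4) ℂ))).2
        inferInstance
    have h3 := (IsTranscendenceBasis.mvPolynomial (Fin 4) ℂ).algebraMap_comp
      (A := FractionRing (MvPolynomial (Fin 4) ℂ))
    rw [← h3.cardinalMk_eq_trdeg]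
    simp
  set s : Fin 5 → M := Fin.cons 1 (fun l => al (X l)) with hs
  have hsal : ∀ H : MvPolynomial (Fin 5) ℂ, aeval s H =
      al (aeval (Fin.cons 1 X : Fin 5 → MvPolynomial (Fin 4) ℂ) H) := by
    intro H
    have h3 : al.comp (aeval (Fin.cons 1 X : Fin 5 → MvPolynomial (Fin 4) ℂ)) = aeval s := by
      apply algHom_ext
      intro i
      rw [AlgHom.comp_apply, aeval_X, aeval_X, hs]
      refine Fin.cases ?_ (fun l => ?_) i
      · rw [Fin.cons_zero, Fin.cons_zero, map_one]
      · rw [Fin.cons_succ, Fin.cons_succ]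
    rw [← h3]
    rfl
  have hs0 : ∀ (e : ℕ) (H : MvPolynomial (Fin 5) ℂ), H.IsHomogeneous e → aeval s H = 0 →
      H = 0 := by
    intro e H hH h
    rw [hsal] at h
    exact generic_zero H hH (hal (by rw [h, map_zero]))
  have hgen : ratioField s = ⊤ := by
    have h3 : ∀ p : MvPolynomial (Fin 4) ℂ, al p ∈ ratioField s := by
      intro p
      induction p using MvPolynomial.induction_on with
      | C a =>
        have : al (C a) = algebraMap ℂ M a := al.commutes a
        rw [this]
        exact (ratioField s).algebraMap_mem a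
      | add f g hf hg =>
        rw [map_add]
        exact add_mem hf hg
      | mul_X f i hf =>
        rw [map_mul]
        refine mul_mem hf (IntermediateField.subset_adjoin _ _ ⟨i.succ, 0, ?_⟩)
        rw [hs, Fin.cons_succ, Fin.cons_zero, div_one]
    rw [eq_top_iff]
    intro z _
    obtain ⟨a, b, h⟩ := IsFractionRing.div_surjective (A := MvPolynomial (Fin 4) ℂ) z
    rw [← h.2]
    exact div_mem (h3 a) (h3 b)
  choose Gh hGh hGv using fun i => homog3 (G' i) (hdeg' i)
  have hGs : (fun i => aeval s (Gh i)) = y := by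
    funext i
    rw [hy]
    simp only
    rw [hsal, hGv, aeval_X_left_apply]
  have hay : ∀ H : MvPolynomial (Fin 6) ℂ, aeval y H = al (aeval G' H) := by
    intro H
    have : (aeval y : MvPolynomial (Fin 6) ℂ →ₐ[ℂ] M) = al.comp (aeval G') := by
      apply algHom_ext
      intro i
      rw [aeval_X, AlgHom.comp_apply, aeval_X]
    rw [this, AlgHom.comp_apply]
  refine main_hom2 hcb hANI hAV hARC hINV hT hS hLF htr s hs0 hgen Gh hGh ?_ ?_ ?_
  · refine hs0 (3 * 3) _ (hF.aeval _ hGh) ?_
    have h2 : (aeval s).comp (aeval Gh) =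
        (aeval (fun i => aeval s (Gh i)) : MvPolynomial (Fin 6) ℂ →ₐ[ℂ] M) := by
      apply algHom_ext
      intro i
      rw [AlgHom.comp_apply, aeval_X, aeval_X]
    have h3 : aeval s (aeval Gh (frm T)) = aeval (fun i => aeval s (Gh i)) (frm T) := by
      rw [← h2]
      rfl
    rw [h3, hGs, hay, h1, map_zero]
  · intro e H hH h
    rw [hGs, hay] at h
    exact h2 e H hH (hal (by rw [h, map_zero]))
  · rw [hGs, htop]

end Pool.Agent.Y201.LI
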