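import Mathlib
import Pool.Agent.Y929.LI.Fa
import Pool.Agent.Y155.LI.T1

/-! # Project LI: rational curves in the polar hypersurface of the generic point -/

set_option autoImplicit false

namespace Pool.Agent.Y201.LI

open MvPolynomial Pool.Agent.TH314.PD IntermediateField Module Pool.Agent.Y929.LI
  Pool.Agent.Y155.LI

noncomputable section

lemma exists_coord {r d : ℕ} {F : MvPolynomial (Fin r) ℂ} (hF : F.IsHomogeneous d) (hd : 2 ≤ d)
    (hF0 : F ≠ 0) {M : Type} [Field M] [Algebra ℂ M] (x : Fin r → M)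
    (hker : ∀ (e : ℕ) (H : MvPolynomial (Fin r) ℂ), H.IsHomogeneous e → aeval x H = 0 → F ∣ H) :
    ∃ j, x j ≠ 0 := by
  classical
  by_contra hcon
  push Not at hcon
  rcases Nat.eq_zero_or_pos r with hr | hr
  · subst hr
    apply hF0
    ext m
    rw [coeff_zero]
    by_contra hne
    have h1 := hF hne
    have h2 : m = 0 := Subsingleton.elim _ _
    rw [h2] at h1
    simp at h1
    omega
  · obtain ⟨G, hG⟩ := hker 1 (X ⟨0, hr⟩) (isHomogeneous_X ℂ _) (by rw [aeval_X, hcon])
    have hX : (X ⟨0, hr⟩ : MvPolynomial (Fin r) ℂ) ≠ 0 := X_ne_zero _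
    have hG0 : G ≠ 0 := by
      rintro rfl
      rw [mul_zero] at hG
      exact hX hG
    have h1 : (X ⟨0, hr⟩ : MvPolynomial (Fin r) ℂ).totalDegree = F.totalDegree + G.totalDegree := by
      rw [hG, totalDegree_mul_of_isDomain hF0 hG0]
    rw [totalDegree_X, hF.totalDegree hF0] at h1
    omega

theorem fag (hpl : S_PL) (h1 : S_ONE) (h2 : S_TWO) (hdg : S_DG) (hb : S_BPF) {r d : ℕ}
    {F : MvPolynomial (Fin r) ℂ} (hF : F.IsHomogeneous d) (hd : 2 ≤ d) (hirr : Irreducible F)
    (hsm : ∀ z : Fin r → ℂ, (∀ i, eval z (pderiv i F) = 0) → z = 0)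
    {M Ω N : Type} [Field M] [Field Ω] [Field N] [Algebra ℂ M] [Algebra M Ω] [Algebra ℂ Ω]
    [IsScalarTower ℂ M Ω] [Algebra Ω N] [FiniteDimensional Ω N]
    (x : Fin r → M) (h0 : aeval x F = 0) (hfd : FiniteDimensional (ratioField x) M)
    (hker : ∀ (e : ℕ) (H : MvPolynomial (Fin r) ℂ), H.IsHomogeneous e → aeval x H = 0 → F ∣ H)
    (v₁ v₂ : Fin r → Ω) (γ β₁ β₂ : Ω)
    (hAI : AlgebraicIndependent M (Sum.elim (Sum.elim v₁ v₂) ![γ, β₁, β₂]))
    (htop : adjoin M (Set.range v₁ ∪ Set.range v₂ ∪ {γ, β₁, β₂}) = ⊤) (y : Fin r → N)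
    (ex : ∑ i, algebraMap Ω N (algebraMap M Ω (x i)) *
      eval₂ ((algebraMap Ω N).comp (algebraMap ℂ Ω)) y (pderiv i F) = 0)
    (e1 : ∑ i, algebraMap Ω N (v₁ i) *
      eval₂ ((algebraMap Ω N).comp (algebraMap ℂ Ω)) y (pderiv i F) = 0)
    (e2 : ∑ i, algebraMap Ω N (v₂ i) *
      eval₂ ((algebraMap Ω N).comp (algebraMap ℂ Ω)) y (pderiv i F) ≠ 0) :
    (d - 1) ^ 2 ∣ finrank Ω N * (d * finrank (ratioField x) M) := by
  classical
  have hΦ : Bpf ∅ (fun i => pderiv i F) := hb r F hsm d hF
  obtain ⟨j0, hj0⟩ := exists_coord hF hd hirr.ne_zero x hker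
  -- normalize
  let x' : Fin r → M := fun i => x i / x j0
  have hrat : ratioField x' = ratioField x := ratioField_div _ hj0
  have hfd' : FiniteDimensional (ratioField x') M := by
    rw [hrat]
    exact hfd
  have hx'F : aeval x' F = 0 := (aeval_div _ hj0 hF).2 h0
  have hx'1 : ∃ j, x' j = 1 := ⟨j0, div_self hj0⟩
  have hker' : ∀ (e : ℕ) (H : MvPolynomial (Fin r) ℂ), H.IsHomogeneous e → aeval x' H = 0 →
      F ∣ H := fun e H hH h3 => hker e H hH ((aeval_div _ hj0 hH).1 h3)
  let v₃ : Fin r → Ω := fun i => γ * algebraMap M Ω (x' i) + β₁ * v₁ i + β₂ * v₂ i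
  obtain ⟨hAI3, hfdA, hrk⟩ := hdg r d F hF (by omega) hirr M Ω x' hx'F hx'1 hker' v₁ v₂ v₃ γ β₁ β₂
    hAI htop fun i => rfl
  rw [hrat] at hrk
  have hx'0 : ∑ i, algebraMap Ω N (algebraMap M Ω (x' i)) *
      eval₂ ((algebraMap Ω N).comp (algebraMap ℂ Ω)) y (pderiv i F) = 0 := by
    have h3 : ∀ i, algebraMap Ω N (algebraMap M Ω (x' i)) *
        eval₂ ((algebraMap Ω N).comp (algebraMap ℂ Ω)) y (pderiv i F) =
        (algebraMap Ω N (algebraMap M Ω (x j0)))⁻¹ * (algebraMap Ω N (algebraMap M Ω (x i)) *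
          eval₂ ((algebraMap Ω N).comp (algebraMap ℂ Ω)) y (pderiv i F)) := by
      intro i
      simp only [x']
      rw [map_div₀, map_div₀, div_eq_inv_mul]
      ring
    rw [Finset.sum_congr rfl fun i _ => h3 i, ← Finset.mul_sum, ex, mul_zero]
  have e3 : ∑ i, algebraMap Ω N (v₃ i) *
      eval₂ ((algebraMap Ω N).comp (algebraMap ℂ Ω)) y (pderiv i F) =
        algebraMap Ω N β₂ * ∑ i, algebraMap Ω N (v₂ i) *
          eval₂ ((algebraMap Ω N).comp (algebraMap ℂ Ω)) y (pderiv i F) := by
    have h3 : ∀ i, algebraMap Ω N (v₃ i) *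
        eval₂ ((algebraMap Ω N).comp (algebraMap ℂ Ω)) y (pderiv i F) =
        algebraMap Ω N γ * (algebraMap Ω N (algebraMap M Ω (x' i)) *
          eval₂ ((algebraMap Ω N).comp (algebraMap ℂ Ω)) y (pderiv i F)) +
        algebraMap Ω N β₁ * (algebraMap Ω N (v₁ i) *
          eval₂ ((algebraMap Ω N).comp (algebraMap ℂ Ω)) y (pderiv i F)) +
        algebraMap Ω N β₂ * (algebraMap Ω N (v₂ i) *
          eval₂ ((algebraMap Ω N).comp (algebraMap ℂ Ω)) y (pderiv i F)) := by
      intro i
      simp only [v₃]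
      rw [map_add, map_add, map_mul, map_mul, map_mul]
      ring
    rw [Finset.sum_congr rfl fun i _ => h3 i, Finset.sum_add_distrib, Finset.sum_add_distrib,
      ← Finset.mul_sum, ← Finset.mul_sum, ← Finset.mul_sum, hx'0, e1, mul_zero, mul_zero,
      zero_add, zero_add]
  -- degrees
  have hfdN : FiniteDimensional
      (adjoin ℂ (Set.range v₁ ∪ Set.range v₂ ∪ Set.range v₃ ∪ {β₂})) N :=
    FiniteDimensional.trans _ Ω N
  have hmul : finrank (adjoin ℂ (Set.range v₁ ∪ Set.range v₂ ∪ Set.range v₃ ∪ {β₂})) Ω *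
      finrank Ω N = finrank (adjoin ℂ (Set.range v₁ ∪ Set.range v₂ ∪ Set.range v₃ ∪ {β₂})) N :=
    Module.finrank_mul_finrank _ _ _
  obtain ⟨hfin, hrk2⟩ := fin_of_range
    (adj_range (N := N) (Set.range v₁ ∪ Set.range v₂ ∪ Set.range v₃) β₂)
  have hfinal := step_f hpl h1 h2 hF hΦ v₁ v₂ v₃ β₂ hAI3 y e1 e2 e3 hfin
  rw [hrk2, ← hmul, hrk, mul_comm] at hfinal
  exact hfinal

/-! ### a form on a polynomial curve -/

theorem top_pow' {A : Type} [CommRing A] (q : Polynomial A) (a : A) (c : ℕ)
    (h1 : q.natDegree ≤ c) (h2 : q.coeff c = a) (m : ℕ) :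
    (q ^ m).natDegree ≤ m * c ∧ (q ^ m).coeff (m * c) = a ^ m := by
  have := top_prod (Finset.range m) (fun _ => q) (fun _ => c) (fun _ => a) (fun _ _ => ⟨h1, h2⟩)
  simpa using this

theorem top_curve {K A : Type} [CommRing K] [CommRing A] (φ : K →+* A) {r e c : ℕ}
    (G : MvPolynomial (Fin r) K) (hG : G.IsHomogeneous e) (y : Fin r → Polynomial A)
    (hy : ∀ j, (y j).natDegree ≤ c) :
    (eval₂ ((Polynomial.C : A →+* Polynomial A).comp φ) y G).natDegree ≤ e * c ∧
    (eval₂ ((Polynomial.C : A →+* Polynomial A).comp φ) y G).coeff (e * c) =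
      eval₂ φ (fun j => (y j).coeff c) G := by
  rw [eval₂_eq', eval₂_eq']
  have key : ∀ m ∈ G.support, (((Polynomial.C : A →+* Polynomial A).comp φ) (coeff m G) *
      ∏ j, (y j) ^ m j).natDegree ≤ e * c ∧
      (((Polynomial.C : A →+* Polynomial A).comp φ) (coeff m G) *
      ∏ j, (y j) ^ m j).coeff (e * c) =
      φ (coeff m G) * ∏ j, ((y j).coeff c) ^ m j := by
    intro m hm
    have hme0 : ∑ j, m j = e := by
      rw [← Finsupp.degree_eq_sum, Finsupp.degree_eq_weight_one]
      exact hG (mem_support_iff.1 hm)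
    have hme : ∑ j, m j * c = e * c := by
      rw [← Finset.sum_mul, hme0]
    obtain ⟨h1, h2⟩ := top_prod Finset.univ
      (fun j => (y j) ^ m j) (fun j => m j * c)
      (fun j => ((y j).coeff c) ^ m j) (fun j _ => top_pow' _ _ c (hy j) rfl _)
    rw [hme] at h1 h2
    refine ⟨(Polynomial.natDegree_C_mul_le _ _).trans h1, ?_⟩
    rw [RingHom.comp_apply, Polynomial.coeff_C_mul, h2]
  refine ⟨Polynomial.natDegree_sum_le_of_forall_le _ _ fun m hm => (key m hm).1, ?_⟩
  rw [Polynomial.finsetSum_coeff]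
  exact Finset.sum_congr rfl fun m hm => (key m hm).2

/-! ### nonvanishing -/

lemma nonvanish' {M N : Type} [Field M] [Field N] [Algebra ℂ M] [Algebra M N] {r : ℕ}
    (Φ : Fin r → MvPolynomial (Fin r) ℂ) (hΦ : Bpf ∅ Φ) (y : Fin r → Polynomial M)
    (V1 V2 : Fin r → N) (hAI : AlgebraicIndependent M (Sum.elim V2 V1)) (θ : N)
    (hθ0 : (fun j => Polynomial.aeval θ (y j)) ≠ 0)
    (hθ : ∑ i, V1 i * eval₂ ((algebraMap M N).comp (algebraMap ℂ M))
      (fun j => Polynomial.aeval θ (y j)) (Φ i) = 0) :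
    ∑ i, V2 i * eval₂ ((algebraMap M N).comp (algebraMap ℂ M))
      (fun j => Polynomial.aeval θ (y j)) (Φ i) ≠ 0 := by
  classical
  obtain ⟨hV1, hV2⟩ := AlgebraicIndependent.sumElim_iff.1 hAI
  let R0 := Algebra.adjoin M (Set.range V1)
  let v : Fin r → R0 := fun i => ⟨V1 i, Algebra.subset_adjoin ⟨i, rfl⟩⟩
  -- the values of the forms on the curve
  let g : Fin r → Polynomial M := fun i =>
    eval₂ ((Polynomial.C : M →+* Polynomial M).comp (algebraMap ℂ M)) y (Φ i)
  have hgθ : ∀ i, Polynomial.aeval θ (g i) = eval₂ ((algebraMap M N).comp (algebraMap ℂ M))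
      (fun j => Polynomial.aeval θ (y j)) (Φ i) := by
    intro i
    have h4 := MvPolynomial.hom_eval₂ (Φ i) (Polynomial.C.comp (algebraMap ℂ M))
      (Polynomial.aeval θ : Polynomial M →ₐ[M] N).toRingHom y
    refine h4.trans ?_
    congr 1
    · ext c
      show Polynomial.aeval θ (Polynomial.C (algebraMap ℂ M c)) = _
      rw [Polynomial.aeval_C]
      rfl
  have hg0 : ∃ i, g i ≠ 0 := by
    by_contra hcon
    push Not at hcon
    -- the generic point of the curve
    let φ : ℂ →+* FractionRing (Polynomial M) :=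
      (algebraMap (Polynomial M) (FractionRing (Polynomial M))).comp
        ((Polynomial.C : M →+* Polynomial M).comp (algebraMap ℂ M))
    have h1 : (fun j => algebraMap (Polynomial M) (FractionRing (Polynomial M)) (y j)) = 0 := by
      refine hΦ (FractionRing (Polynomial M)) φ _
        (fun G hG => absurd hG (Set.notMem_empty G)) fun i => ?_
      have h4 := MvPolynomial.hom_eval₂ (Φ i) (Polynomial.C.comp (algebraMap ℂ M))
        (algebraMap (Polynomial M) (FractionRing (Polynomial M))) y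
      have h5 : eval₂ (Polynomial.C.comp (algebraMap ℂ M)) y (Φ i) = 0 := hcon i
      rw [h5, map_zero] at h4
      exact h4.symm
    apply hθ0
    funext j
    have h2 := congrFun h1 j
    have h3 : y j = 0 := by
      apply IsFractionRing.injective (Polynomial M) (FractionRing (Polynomial M))
      rw [map_zero]
      exact h2
    simp only [h3, map_zero, Pi.zero_apply]
  let Pl : Polynomial R0 := ∑ i, Polynomial.C (v i) * (g i).map (algebraMap M R0)
  have hPl : Pl ≠ 0 := by
    intro h0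
    obtain ⟨i0, hi0⟩ := hg0
    apply hi0
    ext k
    rw [Polynomial.coeff_zero]
    have h4 := congrArg (fun p : Polynomial R0 => ((p.coeff k : R0) : N)) h0
    have h5 : ∑ i, ((g i).coeff k) • V1 i = 0 := by
      simp only [Pl, Polynomial.finsetSum_coeff, Polynomial.coeff_C_mul, Polynomial.coeff_map,
        Polynomial.coeff_zero, AddSubmonoidClass.coe_finsetSum, MulMemClass.coe_mul,
        ZeroMemClass.coe_zero] at h4
      rw [← h4]
      refine Finset.sum_congr rfl fun i _ => ?_
      rw [Algebra.smul_def, mul_comm]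
      rfl
    exact Fintype.linearIndependent_iff.1 hV1.linearIndependent _ h5 i0
  have hθalg : IsAlgebraic R0 θ := by
    refine ⟨Pl, hPl, ?_⟩
    rw [← hθ]
    simp only [Pl, map_sum, map_mul, Polynomial.aeval_C]
    refine Finset.sum_congr rfl fun i _ => ?_
    rw [← hgθ, Polynomial.aeval_map_algebraMap]
    rfl
  let K1 := Subalgebra.algebraicClosure R0 N
  have hK : ∀ m : M, algebraMap M N m ∈ K1 := fun m =>
    K1.algebraMap_mem (algebraMap M R0 m)
  have hθK : θ ∈ K1 := hθalg
  have hmem : ∀ G : Polynomial M, Polynomial.aeval θ G ∈ K1 := by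
    intro G
    induction G using Polynomial.induction_on' with
    | add p q hp hq =>
      rw [map_add]
      exact K1.add_mem hp hq
    | monomial n a =>
      rw [Polynomial.aeval_monomial]
      exact K1.mul_mem (hK a) (K1.pow_mem hθK n)
  intro hzero
  have hV2' : AlgebraicIndependent K1 V2 := hV2.subalgebraAlgebraicClosure
  have h6 := Fintype.linearIndependent_iff.1 hV2'.linearIndependent
    (fun i => (⟨_, hmem (g i)⟩ : K1)) (by
      rw [← hzero]
      refine Finset.sum_congr rfl fun i _ => ?_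
      rw [← hgθ, mul_comm]
      rfl)
  apply hθ0
  have h7 : ∀ i, eval₂ ((algebraMap M N).comp (algebraMap ℂ M))
      (fun j => Polynomial.aeval θ (y j)) (Φ i) = 0 := by
    intro i
    rw [← hgθ]
    exact congrArg (fun z : K1 => (z : N)) (h6 i)
  exact hΦ N _ _ (fun G hG => absurd hG (Set.notMem_empty G)) h7

/-- rational curves of degree `c` in the polar hypersurface of the generic point -/
theorem t3 (hpl : S_PL) (hone : S_ONE) (htwo : S_TWO) (hdg : S_DG) (hb : S_BPF) {r d : ℕ}
    {F : MvPolynomial (Fin r) ℂ} (hF : F.IsHomogeneous d) (hd : 2 ≤ d) (hirr : Irreducible F)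
    (hsm : ∀ z : Fin r → ℂ, (∀ i, eval z (pderiv i F) = 0) → z = 0)
    {M : Type} [Field M] [Algebra ℂ M] (x : Fin r → M) (hx : aeval x F = 0)
    (hgen : ∀ (e : ℕ) (H : MvPolynomial (Fin r) ℂ), H.IsHomogeneous e → aeval x H = 0 → F ∣ H)
    (c : ℕ) (y : Fin r → Polynomial M) (hyc : ∀ j, (y j).natDegree ≤ c)
    (hyt : ∃ j, (y j).coeff c ≠ 0)
    (hprim : ∀ g : Polynomial M, Irreducible g → ∃ j, ¬ g ∣ y j)
    (hpol : ∑ i, Polynomial.C (x i) * aeval y (pderiv i F) = 0) :
    d - 1 ∣ c * finrank (ratioField x) M := by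
  by_cases hfin : FiniteDimensional (ratioField x) M
  swap
  · rw [Module.finrank_of_not_finite hfin, mul_zero]
    exact dvd_zero _
  have hΦ : Bpf ∅ (fun i => pderiv i F) := hb r F hsm d hF
  set δ := finrank (ratioField x) M with hδ
  -- the generic field
  let P := MvPolynomial ((Fin r ⊕ Fin r) ⊕ Fin 3) M
  let Ω := FractionRing P
  let ψ : P →ₐ[M] Ω := IsScalarTower.toAlgHom M P Ω
  have hψ : Function.Injective ψ := IsFractionRing.injective P Ω
  let v₁ : Fin r → Ω := fun i => ψ (X (Sum.inl (Sum.inl i)))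
  let v₂ : Fin r → Ω := fun i => ψ (X (Sum.inl (Sum.inr i)))
  let g : Fin 3 → Ω := fun i => ψ (X (Sum.inr i))
  have hind : AlgebraicIndependent M (Sum.elim (Sum.elim v₁ v₂) ![g 0, g 1, g 2]) := by
    have h1 := (MvPolynomial.algebraicIndependent_X ((Fin r ⊕ Fin r) ⊕ Fin 3) M).map' hψ
    have h2 : (ψ ∘ X : (Fin r ⊕ Fin r) ⊕ Fin 3 → Ω) =
        Sum.elim (Sum.elim v₁ v₂) ![g 0, g 1, g 2] := by
      funext s
      rcases s with (s | s) | s
      · rfl
      · rfl
      · fin_cases s <;> rfl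
    rw [← h2]
    exact h1
  have htop : adjoin M (Set.range v₁ ∪ Set.range v₂ ∪ {g 0, g 1, g 2}) = ⊤ := by
    rw [eq_top_iff]
    rintro z -
    have hP : ∀ q : P, ψ q ∈ adjoin M (Set.range v₁ ∪ Set.range v₂ ∪ {g 0, g 1, g 2}) := by
      intro q
      induction q using MvPolynomial.induction_on with
      | C a =>
        have : ψ (C a) = algebraMap M Ω a := ψ.commutes a
        rw [this]
        exact IntermediateField.algebraMap_mem _ _
      | add f g hf hg =>
        rw [map_add]
        exact add_mem hf hg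
      | mul_X f i hf =>
        rw [map_mul]
        refine mul_mem hf (IntermediateField.subset_adjoin _ _ ?_)
        rcases i with (i | i) | i
        · exact Or.inl (Or.inl ⟨i, rfl⟩)
        · exact Or.inl (Or.inr ⟨i, rfl⟩)
        · right
          fin_cases i
          · left; rfl
          · right; left; rfl
          · right; right; rfl
    obtain ⟨a, b, -, hz⟩ := IsFractionRing.div_surjective (A := P) z
    rw [← hz]
    exact div_mem (hP a) (hP b)
  -- the curve over the generic field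
  let Y : Fin r → Polynomial Ω := fun j => (y j).map (algebraMap M Ω)
  have hYc : ∀ j, (Y j).natDegree ≤ c := fun j => Polynomial.natDegree_map_le.trans (hyc j)
  have hYv : ∀ G : MvPolynomial (Fin r) ℂ,
      eval₂ ((Polynomial.C : Ω →+* Polynomial Ω).comp (algebraMap ℂ Ω)) Y G =
        (aeval y G).map (algebraMap M Ω) := by
    intro G
    rw [aeval_def]
    have h4 := MvPolynomial.hom_eval₂ G (algebraMap ℂ (Polynomial M))
      (Polynomial.mapRingHom (algebraMap M Ω)) y
    rw [Polynomial.coe_mapRingHom] at h4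
    rw [h4]
    congr 1
    ext a : 1
    rw [RingHom.comp_apply, RingHom.comp_apply, Polynomial.coe_mapRingHom,
      IsScalarTower.algebraMap_apply ℂ M (Polynomial M)]
    change _ = Polynomial.map (algebraMap M Ω) (Polynomial.C (algebraMap ℂ M a))
    rw [Polynomial.map_C, ← IsScalarTower.algebraMap_apply ℂ M Ω]
  -- the polynomial
  let p : Polynomial Ω := ∑ i, Polynomial.C (v₁ i) *
    eval₂ ((Polynomial.C : Ω →+* Polynomial Ω).comp (algebraMap ℂ Ω)) Y (pderiv i F)
  have hFi : ∀ i, (pderiv i F).IsHomogeneous (d - 1) := fun i => hF.pderiv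
  have htopi := fun i => top_curve (algebraMap ℂ Ω) (pderiv i F) (hFi i) Y hYc
  have hpn : p.natDegree ≤ (d - 1) * c :=
    Polynomial.natDegree_sum_le_of_forall_le _ _ fun i _ =>
      (Polynomial.natDegree_C_mul_le _ _).trans (htopi i).1
  have hpc : p.coeff ((d - 1) * c) = ψ (∑ i, C (aeval (fun j => (y j).coeff c) (pderiv i F)) *
      X (Sum.inl (Sum.inl i))) := by
    rw [Polynomial.finsetSum_coeff, map_sum]
    refine Finset.sum_congr rfl fun i _ => ?_
    rw [Polynomial.coeff_C_mul, (htopi i).2, map_mul, mul_comm]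
    have h1 : ψ (C (aeval (fun j => (y j).coeff c) (pderiv i F))) =
        algebraMap M Ω (aeval (fun j => (y j).coeff c) (pderiv i F)) := ψ.commutes _
    rw [h1, aeval_def, eval₂_comp_left (algebraMap M Ω), ← IsScalarTower.algebraMap_eq ℂ M Ω]
    congr 2
    funext j
    exact Polynomial.coeff_map _ _
  have hne : p.coeff ((d - 1) * c) ≠ 0 := by
    rw [hpc]
    intro h0
    have h1 := hψ (h0.trans (map_zero ψ).symm)
    have h2 : ∀ i, aeval (fun j => (y j).coeff c) (pderiv i F) = 0 := by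
      intro i
      have h3 := congrArg (coeff (Finsupp.single (Sum.inl (Sum.inl i)) 1)) h1
      rw [coeff_sum, coeff_zero] at h3
      rw [Finset.sum_eq_single i] at h3
      · rwa [coeff_C_mul, coeff_X, if_pos rfl, mul_one] at h3
      · intro j _ hj
        rw [coeff_C_mul, coeff_X, if_neg, mul_zero]
        intro h4
        have h5 := Finsupp.single_left_injective one_ne_zero h4
        exact hj (Sum.inl_injective (Sum.inl_injective h5))
      · simp
    have hu0 : (fun j => (y j).coeff c) = 0 :=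
      hΦ M (algebraMap ℂ M) _ (fun G hG => absurd hG (Set.notMem_empty G)) h2
    obtain ⟨j, hj⟩ := hyt
    exact hj (congrFun hu0 j)
  have hpd : p.natDegree = (d - 1) * c :=
    le_antisymm hpn (Polynomial.le_natDegree_of_ne_zero hne)
  have hp0 : p ≠ 0 := by
    intro h0
    rw [h0, Polynomial.coeff_zero] at hne
    exact hne rfl
  have key : ∀ (N : Type) [Field N] [Algebra Ω N] [FiniteDimensional Ω N] (θ : N),
      Polynomial.aeval θ p = 0 → (d - 1) ^ 2 ∣ finrank Ω N * (d * δ) := by
    intro N _ _ _ θ hpθ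
    let _ : Algebra M N := ((algebraMap Ω N).comp (algebraMap M Ω)).toAlgebra
    have _ : IsScalarTower M Ω N := IsScalarTower.of_algebraMap_eq fun _ => rfl
    have hφ : (algebraMap Ω N).comp (algebraMap ℂ Ω) =
        (algebraMap M N).comp (algebraMap ℂ M) := by
      rw [IsScalarTower.algebraMap_eq ℂ M Ω]
      rfl
    have hYθ : ∀ j, Polynomial.aeval θ (Y j) = Polynomial.aeval θ (y j) := fun j =>
      Polynomial.aeval_map_algebraMap Ω θ (y j)
    -- values at the root
    have hval : ∀ G : MvPolynomial (Fin r) ℂ, Polynomial.aeval θ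
        (eval₂ ((Polynomial.C : Ω →+* Polynomial Ω).comp (algebraMap ℂ Ω)) Y G) =
        eval₂ ((algebraMap Ω N).comp (algebraMap ℂ Ω)) (fun j => Polynomial.aeval θ (y j)) G := by
      intro G
      have h2 := MvPolynomial.hom_eval₂ G ((Polynomial.C : Ω →+* Polynomial Ω).comp (algebraMap ℂ Ω))
        (Polynomial.aeval θ : Polynomial Ω →ₐ[Ω] N).toRingHom Y
      refine h2.trans ?_
      congr 1
      · refine RingHom.ext fun c => ?_
        exact Polynomial.aeval_C _ _
      · funext j
        exact hYθ j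
    -- the point is not zero
    have hθ0 : (fun j => Polynomial.aeval θ (y j)) ≠ 0 := by
      intro h0
      obtain ⟨j1, hj1⟩ := hyt
      have hy1 : y j1 ≠ 0 := by
        intro h3
        rw [h3, Polynomial.coeff_zero] at hj1
        exact hj1 rfl
      have hal : IsAlgebraic M θ := ⟨y j1, hy1, congrFun h0 j1⟩
      obtain ⟨j, hj⟩ := hprim (minpoly M θ) (minpoly.irreducible hal.isIntegral)
      exact hj (minpoly.dvd M θ (congrFun h0 j))
    have e1 : ∑ i, algebraMap Ω N (v₁ i) * eval₂ ((algebraMap Ω N).comp (algebraMap ℂ Ω))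
        (fun j => Polynomial.aeval θ (y j)) (pderiv i F) = 0 := by
      rw [← hpθ, map_sum]
      refine Finset.sum_congr rfl fun i _ => ?_
      rw [map_mul, Polynomial.aeval_C, hval]
    refine fag hpl hone htwo hdg hb hF hd hirr hsm x hx hfin hgen v₁ v₂ (g 0) (g 1) (g 2)
      hind htop (fun j => Polynomial.aeval θ (y j)) ?_ e1 ?_
    · have h1 := congrArg (fun p : Polynomial M => Polynomial.aeval θ (p.map (algebraMap M Ω))) hpol
      simp only [Polynomial.map_zero, map_zero, Polynomial.map_sum, Polynomial.map_mul,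
        Polynomial.map_C, map_sum, map_mul, Polynomial.aeval_C] at h1
      rw [← h1]
      refine Finset.sum_congr rfl fun i _ => ?_
      rw [← hYv, hval]
    · rw [hφ]
      rw [hφ] at e1
      refine nonvanish' (fun i => pderiv i F) hΦ y (fun i => algebraMap Ω N (v₁ i))
        (fun i => algebraMap Ω N (v₂ i)) ?_ θ hθ0 e1
      have h3 := (hind.comp (Sum.elim (fun i => Sum.inl (Sum.inr i))
        (fun i => Sum.inl (Sum.inl i)) : Fin r ⊕ Fin r → _) (by
          rintro (a | a) (b | b) hab <;> simp_all)).map'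
        (f := IsScalarTower.toAlgHom M Ω N) (algebraMap Ω N).injective
      convert h3 using 1
      funext i
      rcases i with i | i <;> rfl
  have main : (d - 1) ^ 2 ∣ p.natDegree * (d * δ) := by
    refine fac p ((d - 1) ^ 2) (d * δ) ?_ p hp0 dvd_rfl
    intro q hq hqp
    have : Fact (Irreducible q) := ⟨hq⟩
    have : FiniteDimensional Ω (AdjoinRoot q) := (AdjoinRoot.powerBasis hq.ne_zero).finite
    have hN : finrank Ω (AdjoinRoot q) = q.natDegree :=
      (AdjoinRoot.powerBasis hq.ne_zero).finrank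
    rw [← hN]
    refine key (AdjoinRoot q) (AdjoinRoot.root q) ?_
    rw [AdjoinRoot.aeval_eq]
    exact AdjoinRoot.mk_eq_zero.2 hqp
  rw [hpd, pow_two, mul_assoc] at main
  have h1 : 0 < d - 1 := by omega
  have h2 := Nat.dvd_of_mul_dvd_mul_left h1 main
  have h4 : c * (d * δ) = d * (c * δ) := by ring
  rw [h4] at h2
  refine Nat.Coprime.dvd_of_dvd_mul_left ?_ h2
  have h3 : d = (d - 1) + 1 := by omega
  rw [h3]
  simp

end

end Pool.Agent.Y201.LI
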