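import Mathlib
import Pool.Agent.Y201.LI.Polar
import Pool.Agent.Y201.LI.DG
import Pool.Agent.Y201.LI.Free
import Pool.Agent.Y37.LI.Pl
import Pool.Agent.Y155.LI.T1
import Pool.Agent.Y220.LI.Ext
import Pool.Agent.Y261.LI.Two
import Pool.Agent.Y275.LI.Ind
import Pool.Agent.Y394.LI.BpfJob
import Pool.Agent.Y710.LI.One
import Pool.Agent.Y761.LI.Irr
import Pool.Agent.Y929.LI.Fa

/-! # Project LI: curves in the polar of the generic point, lines of high contact, maps linear in
a parameter, for all smooth hypersurfaces -/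

set_option autoImplicit false

namespace Pool.Agent.Y201.LI

open MvPolynomial Pool.Agent.TH314.PD IntermediateField Module

noncomputable section

theorem hone : S_ONE := Pool.Agent.Y710.LI.one Pool.Agent.Y37.LI.pl

theorem htwo : S_TWO := Pool.Agent.Y261.LI.two Pool.Agent.Y37.LI.pl hone

theorem hdg : S_DG := dg Pool.Agent.Y220.LI.ext Pool.Agent.Y275.LI.ind Pool.Agent.Y761.LI.irr

theorem hT1 : S_T1 :=
  Pool.Agent.Y155.LI.t1 (Pool.Agent.Y929.LI.fa Pool.Agent.Y37.LI.pl hone htwo hdg
    Pool.Agent.Y394.LI.bpf) Pool.Agent.Y394.LI.bpf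

section

variable {r d : ℕ} {F : MvPolynomial (Fin (r + 1)) ℂ} {M : Type} [Field M] [Algebra ℂ M]

/-- rational curves in the polar hypersurface of the generic point -/
theorem curve_polar (hF : F.IsHomogeneous d) (hd : 2 ≤ d)
    (hsm : ∀ z : Fin (r + 1) → ℂ, (∀ i, eval z (pderiv i F) = 0) → z = 0)
    (x : Fin (r + 1) → M) (hx : aeval x F = 0)
    (hgen : ∀ (e : ℕ) (H : MvPolynomial (Fin (r + 1)) ℂ), H.IsHomogeneous e → aeval x H = 0 →
      F ∣ H)
    (c : ℕ) (y : Fin (r + 1) → Polynomial M) (hyc : ∀ j, (y j).natDegree ≤ c)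
    (hyt : ∃ j, (y j).coeff c ≠ 0)
    (hprim : ∀ g : Polynomial M, Irreducible g → ∃ j, ¬ g ∣ y j)
    (hpol : ∑ i, Polynomial.C (x i) * aeval y (pderiv i F) = 0) :
    d - 1 ∣ c * finrank (ratioField x) M := by
  have hirr : Irreducible F := irreducible_of_generic hF (ne_zero_of_smooth hsm) x hx hgen
  exact t3 Pool.Agent.Y37.LI.pl hone htwo hdg Pool.Agent.Y394.LI.bpf hF hd hirr hsm x hx hgen c y
    hyc hyt hprim hpol

/-- a line given by independent vectors is a primitive curve of degree one -/
theorem line_prim (u w : Fin (r + 1) → M) (h : LinearIndependent M ![u, w]) :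
    (∀ j, (Polynomial.C (w j) + Polynomial.X * Polynomial.C (u j)).natDegree ≤ 1) ∧
    (∃ j, (Polynomial.C (w j) + Polynomial.X * Polynomial.C (u j)).coeff 1 ≠ 0) ∧
    ∀ g : Polynomial M, Irreducible g →
      ∃ j, ¬ g ∣ Polynomial.C (w j) + Polynomial.X * Polynomial.C (u j) := by
  have hu : u ≠ 0 := h.ne_zero 0
  have hco : ∀ j, (Polynomial.C (w j) + Polynomial.X * Polynomial.C (u j)).coeff 1 = u j := by
    intro j
    simp [Polynomial.coeff_C]
  refine ⟨fun j => by compute_degree, ?_, ?_⟩
  · by_contra hcon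
    push Not at hcon
    apply hu
    funext j
    rw [← hco j, hcon j]
    rfl
  · intro g hg
    by_contra hcon
    push Not at hcon
    -- some minor is not zero
    have hmin : ∃ i j, w i * u j - w j * u i ≠ 0 := by
      by_contra hc
      push Not at hc
      obtain ⟨j, hj⟩ : ∃ j, u j ≠ 0 := by
        by_contra h3
        push Not at h3
        exact hu (funext h3)
      rw [LinearIndependent.pair_iff' hu] at h
      apply h (w j / u j)
      funext i
      rw [Pi.smul_apply, smul_eq_mul]
      have := hc i j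
      field_simp
      linear_combination -this
    obtain ⟨i, j, hij⟩ := hmin
    have h1 : Polynomial.C (w i * u j - w j * u i) =
        Polynomial.C (u j) * (Polynomial.C (w i) + Polynomial.X * Polynomial.C (u i)) -
        Polynomial.C (u i) * (Polynomial.C (w j) + Polynomial.X * Polynomial.C (u j)) := by
      rw [Polynomial.C_sub, Polynomial.C_mul, Polynomial.C_mul]
      ring
    have h2 : g ∣ Polynomial.C (w i * u j - w j * u i) := by
      rw [h1]
      exact dvd_sub (Dvd.dvd.mul_left (hcon i) _) (Dvd.dvd.mul_left (hcon j) _)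
    exact hg.not_isUnit (isUnit_of_dvd_unit h2
      (Polynomial.isUnit_C.2 (isUnit_iff_ne_zero.2 hij)))

/-- a line in the polar hypersurface of the generic point -/
theorem line_polar (hF : F.IsHomogeneous d) (hd : 2 ≤ d)
    (hsm : ∀ z : Fin (r + 1) → ℂ, (∀ i, eval z (pderiv i F) = 0) → z = 0)
    (x : Fin (r + 1) → M) (hx : aeval x F = 0)
    (hgen : ∀ (e : ℕ) (H : MvPolynomial (Fin (r + 1)) ℂ), H.IsHomogeneous e → aeval x H = 0 →
      F ∣ H)
    (u w : Fin (r + 1) → M) (h : LinearIndependent M ![u, w])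
    (hpol : ∑ i, Polynomial.C (x i) * aeval (fun j => Polynomial.C (w j) +
      Polynomial.X * Polynomial.C (u j)) (pderiv i F) = 0) :
    d - 1 ∣ finrank (ratioField x) M := by
  obtain ⟨h1, h2, h3⟩ := line_prim u w h
  have := curve_polar hF hd hsm x hx hgen 1 _ h1 h2 h3 hpol
  rwa [one_mul] at this

/-- contact of order `d` with a line through `x` -/
theorem contact_polar (hF : F.IsHomogeneous d) (hd : 1 ≤ d) (x u : Fin (r + 1) → M) (c : M)
    (h : aeval (fun j => Polynomial.C (x j) + Polynomial.X * Polynomial.C (u j)) F =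
      Polynomial.C c * Polynomial.X ^ d) :
    ∑ i, Polynomial.C (x i) * aeval (fun j => Polynomial.C (x j) +
      Polynomial.X * Polynomial.C (u j)) (pderiv i F) = 0 := by
  classical
  set Y : Fin (r + 1) → Polynomial M := fun j =>
    Polynomial.C (x j) + Polynomial.X * Polynomial.C (u j) with hY
  have hD : ∑ i, aeval Y (pderiv i F) * Polynomial.C (u i) =
      Polynomial.C c * (Polynomial.C (d : M) * Polynomial.X ^ (d - 1)) := by
    have h1 := chain_rule ((Polynomial.derivative' : Derivation M (Polynomial M)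
      (Polynomial M)).restrictScalars ℂ) Y F
    rw [h] at h1
    have h2 : ((Polynomial.derivative' : Derivation M (Polynomial M)
        (Polynomial M)).restrictScalars ℂ) (Polynomial.C c * Polynomial.X ^ d) =
        Polynomial.derivative (Polynomial.C c * Polynomial.X ^ d) := rfl
    rw [h2, Polynomial.derivative_C_mul, Polynomial.derivative_X_pow] at h1
    rw [h1]
    refine Finset.sum_congr rfl fun i _ => ?_
    congr 1
    show _ = Polynomial.derivative (Y i)
    simp [hY]
  have hE : ∑ i, Y i * aeval Y (pderiv i F) = (d : Polynomial M) *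
      (Polynomial.C c * Polynomial.X ^ d) := by
    have h1 := congrArg (aeval Y) hF.sum_X_mul_pderiv
    rw [map_sum, map_nsmul, h, nsmul_eq_mul] at h1
    simp only [map_mul, aeval_X] at h1
    exact h1
  have h3 : ∑ i, Y i * aeval Y (pderiv i F) =
      ∑ i, Polynomial.C (x i) * aeval Y (pderiv i F) +
        Polynomial.X * ∑ i, aeval Y (pderiv i F) * Polynomial.C (u i) := by
    rw [Finset.mul_sum, ← Finset.sum_add_distrib]
    refine Finset.sum_congr rfl fun i _ => ?_
    simp only [hY]
    ring
  have h4 : ∑ i, Polynomial.C (x i) * aeval Y (pderiv i F) =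
      (d : Polynomial M) * (Polynomial.C c * Polynomial.X ^ d) -
        Polynomial.X * (Polynomial.C c * (Polynomial.C (d : M) * Polynomial.X ^ (d - 1))) := by
    rw [← hE, h3, hD]
    ring
  rw [h4]
  obtain ⟨k, rfl⟩ := Nat.exists_eq_add_of_le' hd
  have h5 : (Polynomial.C ((k + 1 : ℕ) : M)) = ((k + 1 : ℕ) : Polynomial M) :=
    Polynomial.C_eq_natCast _
  rw [h5, Nat.add_sub_cancel, pow_succ]
  ring

/-- lines which meet the hypersurface at the generic point with multiplicity at least `d` -/
theorem contact (hF : F.IsHomogeneous d) (hd : 2 ≤ d)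
    (hsm : ∀ z : Fin (r + 1) → ℂ, (∀ i, eval z (pderiv i F) = 0) → z = 0)
    (x : Fin (r + 1) → M) (hx : aeval x F = 0)
    (hgen : ∀ (e : ℕ) (H : MvPolynomial (Fin (r + 1)) ℂ), H.IsHomogeneous e → aeval x H = 0 →
      F ∣ H)
    (u : Fin (r + 1) → M) (hu : LinearIndependent M ![x, u]) (c : M)
    (h : aeval (fun j => Polynomial.C (x j) + Polynomial.X * Polynomial.C (u j)) F =
      Polynomial.C c * Polynomial.X ^ d) :
    d - 1 ∣ finrank (ratioField x) M := by
  refine line_polar hF hd hsm x hx hgen u x ?_ (contact_polar hF (by omega) x u c h)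
  rw [LinearIndependent.pair_symm_iff]
  exact hu

end

/-- the coordinates are linear in a parameter -/
theorem linear_param {r d : ℕ} {F : MvPolynomial (Fin (r + 1)) ℂ} {M : Type} [Field M]
    [Algebra ℂ M] (hF : F.IsHomogeneous d) (hd : 2 ≤ d)
    (hsm : ∀ z : Fin (r + 1) → ℂ, (∀ i, eval z (pderiv i F) = 0) → z = 0)
    (L : IntermediateField ℂ M) (t : M) (ht : Transcendental L t)
    (u w : Fin (r + 1) → M) (hu : ∀ i, u i ∈ L) (hw : ∀ i, w i ∈ L)
    (hx : aeval (fun i => t * u i + w i) F = 0)
    (hgen : ∀ (e : ℕ) (H : MvPolynomial (Fin (r + 1)) ℂ), H.IsHomogeneous e →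
      aeval (fun i => t * u i + w i) H = 0 → F ∣ H) :
    d - 1 ∣ finrank (ratioField fun i => t * u i + w i) M :=
  hT1 (r + 1) d F hF hd (irreducible_of_generic hF (ne_zero_of_smooth hsm) _ hx hgen) hsm M L t ht
    u w hu hw hx hgen

/-- polynomials which have degree at most one in a variable -/
theorem linear_poly {n : ℕ} {R : Type} [Field R] [Algebra ℂ R] (s : Fin n → R)
    (hs : AlgebraicIndependent ℂ s) (j : Fin n) :
    Transcendental (adjoin ℂ (s '' {j}ᶜ)) (s j) ∧
    ∀ G : MvPolynomial (Fin n) ℂ, G.degreeOf j ≤ 1 → ∃ u w : R, u ∈ adjoin ℂ (s '' {j}ᶜ) ∧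
      w ∈ adjoin ℂ (s '' {j}ᶜ) ∧ aeval s G = s j * u + w := by
  classical
  constructor
  · rw [IntermediateField.transcendental_adjoin_iff]
    exact hs.transcendental_adjoin (by simp)
  · intro G hG
    have hX : ∀ l, l ≠ j → s l ∈ adjoin ℂ (s '' {j}ᶜ) := fun l hl =>
      subset_adjoin ℂ _ ⟨l, hl, rfl⟩
    have hmon : ∀ m : Fin n →₀ ℕ, ∏ l ∈ Finset.univ.erase j, s l ^ m l ∈ adjoin ℂ (s '' {j}ᶜ) :=
      fun m => prod_mem fun l hl => pow_mem (hX l (Finset.ne_of_mem_erase hl)) _
    have hle : ∀ m ∈ G.support, m j ≤ 1 := fun m hm =>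
      (monomial_le_degreeOf j hm).trans hG
    refine ⟨∑ m ∈ G.support, (if m j = 1 then algebraMap ℂ R (coeff m G) *
      ∏ l ∈ Finset.univ.erase j, s l ^ m l else 0),
      ∑ m ∈ G.support, (if m j = 1 then 0 else algebraMap ℂ R (coeff m G) *
      ∏ l ∈ Finset.univ.erase j, s l ^ m l), ?_, ?_, ?_⟩
    · refine sum_mem fun m _ => ?_
      split_ifs
      · exact mul_mem (IntermediateField.algebraMap_mem _ _) (hmon m)
      · exact zero_mem _
    · refine sum_mem fun m _ => ?_
      split_ifs
      · exact zero_mem _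
      · exact mul_mem (IntermediateField.algebraMap_mem _ _) (hmon m)
    · rw [aeval_def, eval₂_eq', Finset.mul_sum, ← Finset.sum_add_distrib]
      refine Finset.sum_congr rfl fun m hm => ?_
      rw [← Finset.mul_prod_erase Finset.univ _ (Finset.mem_univ j)]
      have := hle m hm
      split_ifs with h1
      · rw [h1, pow_one]
        ring
      · have h0 : m j = 0 := by omega
        rw [h0, pow_zero]
        ring

/-- a dominant map given by polynomials which have degree at most one in one of the variables -/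
theorem linear_map {r d n : ℕ} {F : MvPolynomial (Fin (r + 1)) ℂ} (hF : F.IsHomogeneous d)
    (hd : 2 ≤ d) (hsm : ∀ z : Fin (r + 1) → ℂ, (∀ i, eval z (pderiv i F) = 0) → z = 0)
    (G : Fin (r + 1) → MvPolynomial (Fin n) ℂ) (hG : aeval G F = 0)
    (hdom : ∀ (e : ℕ) (H : MvPolynomial (Fin (r + 1)) ℂ), H.IsHomogeneous e → aeval G H = 0 →
      F ∣ H) (j : Fin n) (hj : ∀ i, (G i).degreeOf j ≤ 1) :
    d - 1 ∣ finrank (ratioField fun i => algebraMap (MvPolynomial (Fin n) ℂ)
      (FractionRing (MvPolynomial (Fin n) ℂ)) (G i)) (FractionRing (MvPolynomial (Fin n) ℂ)) := by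
  let M := FractionRing (MvPolynomial (Fin n) ℂ)
  let al : MvPolynomial (Fin n) ℂ →ₐ[ℂ] M := IsScalarTower.toAlgHom ℂ _ M
  have hal : Function.Injective al := IsFractionRing.injective (MvPolynomial (Fin n) ℂ) M
  let s : Fin n → M := fun l => al (X l)
  have hs : AlgebraicIndependent ℂ s :=
    (MvPolynomial.algebraicIndependent_X (Fin n) ℂ).map' hal
  obtain ⟨ht, hdec⟩ := linear_poly s hs j
  choose u w hu hw huw using fun i => hdec (G i) (hj i)
  have hsG : ∀ P : MvPolynomial (Fin n) ℂ, aeval s P = al P := by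
    intro P
    have : (aeval s : MvPolynomial (Fin n) ℂ →ₐ[ℂ] M) = al := by
      apply algHom_ext
      intro i
      rw [aeval_X]
    rw [this]
  have hx : (fun i => s j * u i + w i) = fun i => al (G i) := by
    funext i
    rw [← huw, hsG]
  have hay : ∀ H : MvPolynomial (Fin (r + 1)) ℂ, aeval (fun i => al (G i)) H = al (aeval G H) := by
    intro H
    have : (aeval (fun i => al (G i)) : MvPolynomial (Fin (r + 1)) ℂ →ₐ[ℂ] M) =
        al.comp (aeval G) := by
      apply algHom_ext
      intro i
      rw [aeval_X, AlgHom.comp_apply, aeval_X]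
    rw [this, AlgHom.comp_apply]
  have hmain := linear_param hF hd hsm _ (s j) ht u w hu hw ?_ ?_
  · rw [hx] at hmain
    exact hmain
  · rw [hx, hay, hG, map_zero]
  · intro e H hH h
    rw [hx, hay] at h
    exact hdom e H hH (hal (by rw [h, map_zero]))

end

end Pool.Agent.Y201.LI
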