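import Mathlib
import Pool.Agent.Y201.LI.Stm3
import Pool.Agent.Y201.LI.Thm3
import Pool.Agent.TH314.PD.Restr2
import Pool.Agent.Y960.C3.Line

/-! # Project LI, third part: transcendence degrees of generic points -/

set_option autoImplicit false

namespace Pool.Agent.Y201.LI

open MvPolynomial Pool.Agent.TH314.PD Module Pool.Agent.Y960.C3

noncomputable section

variable {M : Type} [Field M] [Algebra ℂ M]

open scoped IntermediateField.algebraAdjoinAdjoin in
/-- a transcendence basis among the ratios of the coordinates -/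
theorem exists_zeta_gen {r : ℕ} (x : Fin r → M) (j : Fin r) (hj : x j ≠ 0)
    (halg : Algebra.IsAlgebraic (ratioField x) M) :
    ∃ (m : ℕ) (ζ : Fin m → Fin r), IsTranscendenceBasis ℂ (fun l => x (ζ l) / x j) := by
  classical
  set s : Set M := Set.range fun i => x i / x j with hs
  have h1 : Algebra.IsAlgebraic (IntermediateField.adjoin ℂ s) M := by
    rw [hs, ratio_eq x j hj]
    exact halg
  have h2 : Algebra.IsAlgebraic (Algebra.adjoin ℂ s) (IntermediateField.adjoin ℂ s) :=
    IsLocalization.isAlgebraic _ (nonZeroDivisors (Algebra.adjoin ℂ s))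
  have h3 : Algebra.IsAlgebraic (Algebra.adjoin ℂ s) M :=
    Algebra.IsAlgebraic.trans (Algebra.adjoin ℂ s) (IntermediateField.adjoin ℂ s) M
  obtain ⟨B, hB, hBt⟩ := exists_isTranscendenceBasis_subset (R := ℂ) s
  have hfin : Finite B := ((Set.finite_range _).subset hB).to_subtype
  obtain ⟨m, ⟨e⟩⟩ := Finite.exists_equiv_fin B
  choose idx hidx using fun b : B => hB b.2
  refine ⟨m, fun l => idx (e.symm l), ?_⟩
  have h6 : (fun l => x (idx (e.symm l)) / x j) = (fun b : B => (b : M)) ∘ e.symm := by
    funext l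
    exact hidx (e.symm l)
  rw [h6]
  exact (isTranscendenceBasis_equiv e.symm).2 hBt

theorem trdeg_of_basis {m : ℕ} {y : Fin m → M} (h : IsTranscendenceBasis ℂ y) :
    Algebra.trdeg ℂ M = m := by
  rw [← h.cardinalMk_eq_trdeg, Cardinal.mk_fin]

/-- the transcendence degree of the field of a generic point of a hypersurface -/
theorem trdeg_generic {n d : ℕ} {F : MvPolynomial (Fin (n + 2)) ℂ} (hF : F.IsHomogeneous d)
    (hd : 1 ≤ d) (hF0 : F ≠ 0) (x : Fin (n + 2) → M) (hx : aeval x F = 0)
    (hgen : ∀ (e : ℕ) (H : MvPolynomial (Fin (n + 2)) ℂ), H.IsHomogeneous e → aeval x H = 0 →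
      F ∣ H)
    (halg : Algebra.IsAlgebraic (ratioField x) M) : Algebra.trdeg ℂ M = n := by
  classical
  obtain ⟨j, hj, hind⟩ := exists_indep' hF hd hF0 hgen
  obtain ⟨m, ζ, hζ⟩ := exists_zeta_gen x (j.succAbove 0) hj halg
  have hm := trdeg_of_basis hζ
  have h1 : n ≤ m := by
    have h2 := hind.lift_cardinalMk_le_trdeg
    rw [hm] at h2
    simpa using h2
  rcases Nat.lt_or_ge n m with h | h
  · exfalso
    have hinj : Function.Injective (Fin.cons (j.succAbove 0) ζ : Fin (m + 1) → Fin (n + 2)) := by
      rw [Fin.cons_injective_iff]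
      constructor
      · rintro ⟨l, hl⟩
        have h3 := hζ.1.transcendental l
        rw [hl, div_self hj] at h3
        exact h3 isAlgebraic_one
      · intro a b hab
        apply hζ.1.injective
        simp only [hab]
    have hcard := Fintype.card_le_of_injective _ hinj
    rw [Fintype.card_fin, Fintype.card_fin] at hcard
    have hmn : m = n + 1 := by omega
    subst hmn
    have hbij : Function.Bijective (Fin.cons (j.succAbove 0) ζ : Fin (n + 1 + 1) → Fin (n + 2)) :=
      ⟨hinj, Finite.injective_iff_surjective.1 hinj⟩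
    let σ : Fin (n + 2) ≃ Fin (n + 2) := Equiv.ofBijective _ hbij
    have hA0 : rename σ.symm F = 0 := by
      refine no_form (fun l => x (ζ l) / x (j.succAbove 0)) hζ.1 (x (j.succAbove 0)) hj d
        (rename σ.symm F) (hF.rename_isHomogeneous) ?_
      rw [aeval_rename, ← hx]
      congr 2
      funext i
      have h5 : ∀ a : Fin (n + 2), x (j.succAbove 0) *
          (Fin.cons 1 (fun l => x (ζ l) / x (j.succAbove 0)) : Fin (n + 2) → M) a = x (σ a) := by
        intro a
        refine Fin.cases ?_ (fun l => ?_) a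
        · rw [Fin.cons_zero, mul_one]
          rfl
        · rw [Fin.cons_succ]
          change x (j.succAbove 0) * (x (ζ l) / x (j.succAbove 0)) = x (ζ l)
          field_simp
      have h6 := h5 (σ.symm i)
      rw [Equiv.apply_symm_apply] at h6
      exact h6
    apply hF0
    apply rename_injective _ σ.symm.injective
    rw [hA0, map_zero]
  · rw [hm]
    congr 1
    omega

/-- a point of the hypersurface with field of the right size is generic -/
theorem generic_of_trdeg {n d : ℕ} {F : MvPolynomial (Fin (n + 2)) ℂ} (hF : F.IsHomogeneous d)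
    (hd : 1 ≤ d) (hirr : Irreducible F) (htr : Algebra.trdeg ℂ M = n) (y : Fin (n + 2) → M)
    (hy : aeval y F = 0) (halg : Algebra.IsAlgebraic (ratioField y) M) (j : Fin (n + 2))
    (hj : y j ≠ 0) :
    ∀ (e : ℕ) (H : MvPolynomial (Fin (n + 2)) ℂ), H.IsHomogeneous e → aeval y H = 0 →
      F ∣ H := by
  classical
  obtain ⟨m, ζ, hζ⟩ := exists_zeta_gen y j hj halg
  have hm := trdeg_of_basis hζ
  rw [htr] at hm
  have hmn : n = m := by exact_mod_cast hm
  subst hmn
  intro e H hH h0
  refine dom_of_indep (n := n) hF hd hirr.ne_zero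
    (fun _ _ A B _ _ h => (hirr.prime.dvd_or_dvd h)) (aeval y)
    (Fin.cons j ζ : Fin (n + 1) → Fin (n + 2)) hy ?_ hH h0
  intro l A hA hA0
  rw [aeval_rename] at hA0
  refine no_form (fun l => y (ζ l) / y j) hζ.1 (y j) hj l A hA ?_
  rw [← hA0]
  congr 2
  funext i
  refine Fin.cases ?_ (fun l => ?_) i
  · rw [Fin.cons_zero, mul_one]
    rfl
  · rw [Fin.cons_succ]
    change y j * (y (ζ l) / y j) = y (ζ l)
    field_simp

/-- a point with coordinates in a field of smaller transcendence degree is not generic -/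
theorem nongeneric {n d : ℕ} {F : MvPolynomial (Fin (n + 2)) ℂ} (hF : F.IsHomogeneous d)
    (hd : 1 ≤ d) (hF0 : F ≠ 0) (htr : Algebra.trdeg ℂ M = n) (L : IntermediateField ℂ M) (t : M)
    (ht : Transcendental L t) (lam : Fin (n + 2) → M) (hlam : ∀ i, lam i ∈ L) :
    ∃ (e : ℕ) (H : MvPolynomial (Fin (n + 2)) ℂ), H.IsHomogeneous e ∧ aeval lam H = 0 ∧
      ¬ F ∣ H := by
  classical
  by_contra hcon
  push Not at hcon
  obtain ⟨j, hj, hind⟩ := exists_indep' hF hd hF0 hcon
  have h1 : Transcendental (Algebra.adjoin ℂ (Set.range fun l : Fin n =>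
      lam (j.succAbove l.succ) / lam (j.succAbove 0))) t := by
    have hle : Algebra.adjoin ℂ (Set.range fun l : Fin n =>
      lam (j.succAbove l.succ) / lam (j.succAbove 0)) ≤ L.toSubalgebra := by
      rw [Algebra.adjoin_le_iff]
      rintro _ ⟨l, rfl⟩
      exact L.div_mem (hlam _) (hlam _)
    let _ : Algebra (Algebra.adjoin ℂ (Set.range fun l : Fin n =>
      lam (j.succAbove l.succ) / lam (j.succAbove 0))) L :=
      (Subalgebra.inclusion hle).toRingHom.toAlgebra
    have : IsScalarTower (Algebra.adjoin ℂ (Set.range fun l : Fin n =>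
      lam (j.succAbove l.succ) / lam (j.succAbove 0))) L M :=
      IsScalarTower.of_algebraMap_eq fun _ => rfl
    intro halg
    exact ht (halg.extendScalars (Subalgebra.inclusion_injective hle))
  have h2 := (hind.option_iff_transcendental t).2 h1
  have h3 := h2.lift_cardinalMk_le_trdeg
  rw [htr] at h3
  simp only [Cardinal.mk_fintype, Fintype.card_option, Fintype.card_fin, Cardinal.lift_natCast,
    Nat.cast_le] at h3
  omega

end

end Pool.Agent.Y201.LI
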