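import Mathlib
import Pool.Agent.Y201.LI.Trd
import Pool.Agent.Y201.C3.Tri
import Pool.Agent.Y942.LI.Sec
import Pool.Agent.Y942.LI.Lam
import Pool.Agent.Y624.LI.Nopt
import Pool.Agent.Y363.LI.Noln

/-! # Project LI, third part: families of conics of odd degree on smooth cubic hypersurfaces -/

set_option autoImplicit false

namespace Pool.Agent.Y201.LI

open MvPolynomial Pool.Agent.TH314.PD IntermediateField Module Pool.Agent.Y201.C3

noncomputable section

theorem not_ratio_le {M : Type} [Field M] [Algebra ℂ M] {r : ℕ} (x : Fin r → M)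
    (halg : Algebra.IsAlgebraic (ratioField x) M) (L : IntermediateField ℂ M) (t : M)
    (ht : Transcendental L t) : ¬ ratioField x ≤ L := by
  intro hle
  apply ht
  have h1 : IsAlgebraic (ratioField x) t := Algebra.IsAlgebraic.isAlgebraic t
  let _ : Algebra (ratioField x) L := (IntermediateField.inclusion hle).toRingHom.toAlgebra
  have : IsScalarTower (ratioField x) L M := IsScalarTower.of_algebraMap_eq fun _ => rfl
  exact h1.extendScalars (IntermediateField.inclusion hle).toRingHom.injective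

/-- the powers of a transcendental element are independent -/
theorem pow_indep {M : Type} [Field M] [Algebra ℂ M] (L : IntermediateField ℂ M) (t : M)
    (ht : Transcendental L t) (k : ℕ) (c : Fin k → M) (hc : ∀ i, c i ∈ L)
    (h : ∑ i, c i * t ^ (i : ℕ) = 0) (i : Fin k) : c i = 0 := by
  let P : Polynomial L := ∑ i : Fin k, Polynomial.C (⟨c i, hc i⟩ : L) * Polynomial.X ^ (i : ℕ)
  have h1 : Polynomial.aeval t P = 0 := by
    simp only [P, map_sum, map_mul, map_pow, Polynomial.aeval_X, Polynomial.aeval_C]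
    exact h
  have h2 : P = 0 := transcendental_iff.1 ht P h1
  have h3 := congrArg (fun p => Polynomial.coeff p (i : ℕ)) h2
  simp only [P, Polynomial.finsetSum_coeff, Polynomial.coeff_C_mul, Polynomial.coeff_X_pow,
    Polynomial.coeff_zero] at h3
  rw [Finset.sum_eq_single i] at h3
  · rw [if_pos rfl, mul_one] at h3
    exact congrArg Subtype.val h3
  · intro j _ hj
    rw [if_neg, mul_zero]
    exact fun h4 => hj (Fin.ext h4.symm)
  · intro h4
    exact absurd (Finset.mem_univ i) h4

theorem Bg_mem {M : Type} [Field M] [Algebra ℂ M] (L : IntermediateField ℂ M) {σ : Type}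
    [Fintype σ] [DecidableEq σ] (T : σ → σ → σ → ℂ) (x y z : σ → M) (hx : ∀ i, x i ∈ L)
    (hy : ∀ i, y i ∈ L) (hz : ∀ i, z i ∈ L) : Bg T x y z ∈ L := by
  unfold Bg
  exact sum_mem fun i _ => sum_mem fun j _ => sum_mem fun k _ =>
    mul_mem (mul_mem (mul_mem (L.algebraMap_mem _) (hx i)) (hy j)) (hz k)

section expand

variable {σ : Type} [Fintype σ] [DecidableEq σ] {R : Type} [CommRing R] [Algebra ℂ R]
  {T : σ → σ → σ → ℂ}

/-- the cube of a sum of two vectors -/
theorem Bg_cube (hT : SymG T) (a b : R) (x y : σ → R) :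
    Bg T (fun i => a * x i + b * y i) (fun i => a * x i + b * y i) (fun i => a * x i + b * y i) =
      a ^ 3 * Bg T x x x + 3 * a ^ 2 * b * Bg T x x y + 3 * a * b ^ 2 * Bg T x y y +
        b ^ 3 * Bg T y y y := by
  simp only [Bg_add1, Bg_add2, Bg_add3, Bg_smul1, Bg_smul2, Bg_smul3]
  rw [Bg_swap12 hT y x y, Bg_swap12 hT y x x, Bg_swap23 hT x y x, Bg_swap23 hT y y x,
    Bg_swap12 hT y x y]
  ring

/-- the cube of a sum of three vectors -/
theorem Bg_cube3 (hT : SymG T) (t : R) (l q r : σ → R) :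
    Bg T (fun i => t ^ 2 * l i + t * q i + r i) (fun i => t ^ 2 * l i + t * q i + r i)
      (fun i => t ^ 2 * l i + t * q i + r i) =
      Bg T r r r + 3 * Bg T q r r * t + (3 * Bg T l r r + 3 * Bg T q q r) * t ^ 2 +
        (Bg T q q q + 6 * Bg T l q r) * t ^ 3 + (3 * Bg T l l r + 3 * Bg T l q q) * t ^ 4 +
        3 * Bg T l l q * t ^ 5 + Bg T l l l * t ^ 6 := by
  simp only [Bg_add1, Bg_add2, Bg_add3, Bg_smul1, Bg_smul2, Bg_smul3]
  rw [Bg_swap12 hT r l l, Bg_swap23 hT l r l, Bg_swap12 hT r q q, Bg_swap23 hT q r q,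
    Bg_swap12 hT q l l, Bg_swap23 hT l q l, Bg_swap12 hT r l r, Bg_swap23 hT r r l,
    Bg_swap12 hT r l r, Bg_swap12 hT r q r, Bg_swap23 hT r r q, Bg_swap12 hT r q r,
    Bg_swap12 hT q l q, Bg_swap23 hT q q l, Bg_swap12 hT q l q,
    Bg_swap23 hT l r q, Bg_swap12 hT q l r, Bg_swap12 hT r l q, Bg_swap23 hT l r q,
    Bg_swap23 hT q r l, Bg_swap12 hT q l r, Bg_swap12 hT r q l, Bg_swap23 hT q r l,
    Bg_swap12 hT q l r]
  ring

/-- squares -/
theorem Bg_sq3 (hT : SymG T) (t : R) (l q r : σ → R) :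
    Bg T (fun i => t ^ 2 * l i + t * q i + r i) (fun i => t ^ 2 * l i + t * q i + r i) l =
      Bg T l r r + 2 * Bg T l q r * t + (2 * Bg T l l r + Bg T l q q) * t ^ 2 +
        2 * Bg T l l q * t ^ 3 + Bg T l l l * t ^ 4 := by
  simp only [Bg_add1, Bg_add2, Bg_smul1, Bg_smul2]
  rw [Bg_swap12 hT r l l, Bg_swap23 hT l r l, Bg_swap12 hT q l l, Bg_swap23 hT l q l,
    Bg_swap23 hT r r l, Bg_swap12 hT r l r, Bg_swap23 hT q q l, Bg_swap12 hT q l q,
    Bg_swap23 hT q r l, Bg_swap12 hT q l r, Bg_swap23 hT r q l, Bg_swap12 hT r l q,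
    Bg_swap23 hT l r q]
  ring

theorem Bg_ln3 (hT : SymG T) (t : R) (l q r : σ → R) :
    Bg T (fun i => t ^ 2 * l i + t * q i + r i) l l =
      Bg T l l r + Bg T l l q * t + Bg T l l l * t ^ 2 := by
  simp only [Bg_add1, Bg_smul1]
  rw [Bg_swap12 hT r l l, Bg_swap23 hT l r l, Bg_swap12 hT q l l, Bg_swap23 hT l q l]
  ring

end expand

section core

variable {n : ℕ} {F : MvPolynomial (Fin (n + 2)) ℂ} {M : Type} [Field M] [Algebra ℂ M]

/-- the generic point of projective space on the line through `x` and `lam` -/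
def zz (t : M) (lam Q R : Fin (n + 2) → M) : Fin (n + 2) → RatFunc M := fun i =>
  algebraMap M (RatFunc M) (t ^ 2 * lam i + t * Q i + R i) +
    RatFunc.X * algebraMap M (RatFunc M) (lam i)

theorem conic_core (hthree : S_THREE) (hF : F.IsHomogeneous 3)
    (hsm : ∀ z : Fin (n + 2) → ℂ, (∀ i, eval z (pderiv i F) = 0) → z = 0)
    (L : IntermediateField ℂ M) (t : M) (ht : Transcendental L t)
    (lam Q R : Fin (n + 2) → M) (hl : ∀ i, lam i ∈ L) (hQ : ∀ i, Q i ∈ L) (hR : ∀ i, R i ∈ L)
    (hx : aeval (fun i => t ^ 2 * lam i + t * Q i + R i) F = 0)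
    (hgen : ∀ (e : ℕ) (H : MvPolynomial (Fin (n + 2)) ℂ), H.IsHomogeneous e →
      aeval (fun i => t ^ 2 * lam i + t * Q i + R i) H = 0 → F ∣ H)
    (hodd : Odd (finrank (ratioField fun i => t ^ 2 * lam i + t * Q i + R i) M)) :
    lam ≠ 0 ∧ aeval lam F = 0 ∧
    (∀ (e : ℕ) (H : MvPolynomial (Fin (n + 2)) ℂ), H.IsHomogeneous e →
      aeval (zz t lam Q R) H = 0 → H = 0) ∧
    Odd (finrank (ratioField (zz t lam Q R)) (RatFunc M)) := by
  classical
  set x : Fin (n + 2) → M := fun i => t ^ 2 * lam i + t * Q i + R i with hxdef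
  have hF0 : F ≠ 0 := ne_zero_of_smooth hsm
  have hirr := irreducible_of_generic hF hF0 x hx hgen
  obtain ⟨T, hT, hFT⟩ := exists_tri F hF
  have hev : ∀ {R' : Type} [CommRing R'] [Algebra ℂ R'] (z : Fin (n + 2) → R'),
      aeval z F = Bg T z z z := by
    intro R' _ _ z
    rw [hFT, aeval_frmG]
  have hfd : FiniteDimensional (ratioField x) M := FiniteDimensional.of_finrank_pos hodd.pos
  have halg : Algebra.IsAlgebraic (ratioField x) M := Algebra.IsAlgebraic.of_finite _ _
  have htr := trdeg_generic hF (by norm_num) hF0 x hx hgen halg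
  have h2odd : ∀ k : ℕ, Odd k → ¬ 3 - 1 ∣ k := by
    intro k hk h
    rcases hk with ⟨a, ha⟩
    omega
  have h3L : (3 : M) ∈ L := by
    have : (3 : M) = algebraMap ℂ M 3 := (map_ofNat _ 3).symm
    rw [this]
    exact L.algebraMap_mem _
  have h2L : (2 : M) ∈ L := by
    have : (2 : M) = algebraMap ℂ M 2 := (map_ofNat _ 2).symm
    rw [this]
    exact L.algebraMap_mem _
  have h6L : (6 : M) ∈ L := by
    have : (6 : M) = algebraMap ℂ M 6 := (map_ofNat _ 6).symm
    rw [this]
    exact L.algebraMap_mem _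
  have hchar : CharZero M := charZero_of_injective_algebraMap (algebraMap ℂ M).injective
  -- the coefficients of `F(x)`
  have hco := pow_indep L t ht 7 ![Bg T R R R, 3 * Bg T Q R R, 3 * Bg T lam R R + 3 * Bg T Q Q R,
    Bg T Q Q Q + 6 * Bg T lam Q R, 3 * Bg T lam lam R + 3 * Bg T lam Q Q, 3 * Bg T lam lam Q,
    Bg T lam lam lam] (by
      have m0 := Bg_mem L T R R R hR hR hR
      have m1 := mul_mem h3L (Bg_mem L T Q R R hQ hR hR)
      have m2 := add_mem (mul_mem h3L (Bg_mem L T lam R R hl hR hR))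
        (mul_mem h3L (Bg_mem L T Q Q R hQ hQ hR))
      have m3 := add_mem (Bg_mem L T Q Q Q hQ hQ hQ)
        (mul_mem h6L (Bg_mem L T lam Q R hl hQ hR))
      have m4 := add_mem (mul_mem h3L (Bg_mem L T lam lam R hl hl hR))
        (mul_mem h3L (Bg_mem L T lam Q Q hl hQ hQ))
      have m5 := mul_mem h3L (Bg_mem L T lam lam Q hl hl hQ)
      have m6 := Bg_mem L T lam lam lam hl hl hl
      intro i
      fin_cases i
      exacts [m0, m1, m2, m3, m4, m5, m6]) (by
      have h1 := Bg_cube3 hT t lam Q R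
      rw [← hxdef, ← hev x, hx] at h1
      rw [Fin.sum_univ_seven]
      change Bg T R R R * t ^ 0 + 3 * Bg T Q R R * t ^ 1 +
        (3 * Bg T lam R R + 3 * Bg T Q Q R) * t ^ 2 + (Bg T Q Q Q + 6 * Bg T lam Q R) * t ^ 3 +
        (3 * Bg T lam lam R + 3 * Bg T lam Q Q) * t ^ 4 + 3 * Bg T lam lam Q * t ^ 5 +
        Bg T lam lam lam * t ^ 6 = 0
      linear_combination -h1)
  have c4 : 3 * Bg T lam lam R + 3 * Bg T lam Q Q = 0 := hco 4
  have c5 : 3 * Bg T lam lam Q = 0 := hco 5
  have c6 : Bg T lam lam lam = 0 := hco 6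
  have c5' : Bg T lam lam Q = 0 := by
    have h3 : (3 : M) ≠ 0 := by norm_num
    exact (mul_eq_zero.1 c5).resolve_left h3
  have c4' : Bg T lam Q Q = - Bg T lam lam R := by
    linear_combination (1 / 3 : M) * c4
  set β := Bg T lam lam R with hβ
  set μ := Bg T lam Q R with hμ
  set ν := Bg T lam R R with hν
  have hβL : β ∈ L := Bg_mem L T lam lam R hl hl hR
  have hμL : μ ∈ L := Bg_mem L T lam Q R hl hQ hR
  have hνL : ν ∈ L := Bg_mem L T lam R R hl hR hR
  have hxxl : Bg T x x lam = t ^ 2 * β + 2 * t * μ + ν := by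
    have h1 := Bg_sq3 hT t lam Q R
    rw [← hxdef, c4', c5', c6] at h1
    rw [h1]
    ring
  have hxll : Bg T x lam lam = β := by
    have h1 := Bg_ln3 hT t lam Q R
    rw [← hxdef, c5', c6] at h1
    rw [h1]
    ring
  have hxxx : Bg T x x x = 0 := by rw [← hev]; exact hx
  -- `lam` is not zero
  have hlam0 : lam ≠ 0 := by
    intro h0
    have hx' : x = fun i => t * Q i + R i := by
      funext i
      rw [hxdef, h0]
      simp
    rw [hx'] at hx hgen hodd
    exact h2odd _ hodd (hT1 (n + 2) 3 F hF (by norm_num) hirr hsm M L t ht Q R hQ hR hx hgen)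
  have hind : LinearIndependent M ![x, lam] := by
    rw [LinearIndependent.pair_symm_iff, LinearIndependent.pair_iff' hlam0]
    intro a ha
    apply not_ratio_le x halg L t ht
    unfold ratioField
    rw [IntermediateField.adjoin_le_iff]
    rintro _ ⟨i, j, rfl⟩
    rw [← ha, Pi.smul_apply, Pi.smul_apply, smul_eq_mul, smul_eq_mul]
    by_cases ha0 : a = 0
    · rw [ha0, zero_mul, zero_div]
      exact L.zero_mem
    · rw [mul_div_mul_left _ _ ha0]
      exact L.div_mem (hl i) (hl j)
  set A : M := 3 * (t ^ 2 * β + 2 * t * μ + ν) with hA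
  set B : M := 3 * β with hB
  have hBC : ∀ u v w : Fin (n + 2) → M, Bg T (fun i => Polynomial.C (u i))
      (fun i => Polynomial.C (v i)) (fun i => Polynomial.C (w i)) = Polynomial.C (Bg T u v w) :=
    fun u v w => (map_Bg (IsScalarTower.toAlgHom ℂ M (Polynomial M)) T u v w).symm
  have hpoly : (aeval (fun i => Polynomial.C (x i) + Polynomial.X * Polynomial.C (lam i)) F :
      Polynomial M) = Polynomial.X * Polynomial.C A + Polynomial.X ^ 2 * Polynomial.C B := by
    have h1 := Bg_cube hT (1 : Polynomial M) Polynomial.X (fun i => Polynomial.C (x i))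
      (fun i => Polynomial.C (lam i))
    simp only [one_mul, hBC, hxxx, hxxl, hxll, c6] at h1
    rw [hev, h1, hA, hB, Polynomial.C_mul, Polynomial.C_mul]
    have h3 : (Polynomial.C (3 : M)) = 3 := by
      rw [← Polynomial.C_ofNat]
    rw [h3, Polynomial.C_0]
    ring
  have hA0 : A ≠ 0 := by
    intro h0
    have h3 : (3 : M) ≠ 0 := by norm_num
    have h1 : t ^ 2 * β + 2 * t * μ + ν = 0 := (mul_eq_zero.1 h0).resolve_left h3
    have h4 := pow_indep L t ht 3 ![ν, 2 * μ, β] (by
      intro i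
      fin_cases i
      exacts [hνL, mul_mem h2L hμL, hβL]) (by
      rw [Fin.sum_univ_three]
      change ν * t ^ 0 + 2 * μ * t ^ 1 + β * t ^ 2 = 0
      linear_combination h1) 2
    have h5 : β = 0 := h4
    have hB0 : B = 0 := by rw [hB, h5, mul_zero]
    rw [h0, hB0] at hpoly
    refine h2odd _ hodd (contact hF (by norm_num) hsm x hx hgen lam hind 0 ?_)
    rw [hpoly]
    simp
  have heven : B ≠ 0 → Even (finrank (ratioField fun i => B * x i - A * lam i) M) := by
    intro hB0
    rw [even_iff_two_dvd]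
    by_cases hfd' : FiniteDimensional (ratioField fun i => B * x i - A * lam i) M
    swap
    · rw [Module.finrank_of_not_finite hfd']
      exact dvd_zero _
    have hlin : (fun i => B * x i - A * lam i) = fun i =>
        t * (3 * (β * Q i - 2 * μ * lam i)) + 3 * (β * R i - ν * lam i) := by
      funext i
      rw [hxdef, hA, hB]
      ring
    have halg' : Algebra.IsAlgebraic (ratioField fun i => B * x i - A * lam i) M :=
      Algebra.IsAlgebraic.of_finite _ _
    have hnle := not_ratio_le _ halg' L t ht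
    obtain ⟨j, hj⟩ : ∃ j, B * x j - A * lam j ≠ 0 := by
      by_contra hcon
      push Not at hcon
      apply hnle
      unfold ratioField
      rw [IntermediateField.adjoin_le_iff]
      rintro _ ⟨a, b, rfl⟩
      simp only [hcon a, zero_div]
      exact zero_mem _
    have hFx' : aeval (fun i => B * x i - A * lam i) F = 0 := by
      have h1 := Bg_cube hT B (-A) x lam
      have h2 : (fun i => B * x i - A * lam i) = fun i => B * x i + -A * lam i := by
        funext i
        ring
      rw [hev, h2, h1, hxxx, hxxl, hxll, c6, hA, hB]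
      ring
    have hgen' := generic_of_trdeg hF (by norm_num) hirr htr _ hFx' halg' j hj
    rw [hlin] at hFx' hgen' ⊢
    exact hT1 (n + 2) 3 F hF (by norm_num) hirr hsm M L t ht _ _
      (fun i => mul_mem h3L (sub_mem (mul_mem hβL (hQ i)) (mul_mem (mul_mem h2L hμL) (hl i))))
      (fun i => mul_mem h3L (sub_mem (mul_mem hβL (hR i)) (mul_mem hνL (hl i)))) hFx' hgen'
  obtain ⟨h1, h2⟩ := hthree (n + 2) F hF hirr hsm M (RatFunc M) x lam RatFunc.X hx hgen hodd
    (nongeneric hF (by norm_num) hF0 htr L t ht lam hl) RatFunc.transcendental_X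
    RatFunc.adjoin_X A B hA0 hpoly heven
  exact ⟨hlam0, by rw [hev, c6], h1, h2⟩

end core

end

end Pool.Agent.Y201.LI
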