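import Mathlib
import Pool.Agent.Y201.LI.Conic

/-! # Project LI, third part: consequences for families of conics -/

set_option autoImplicit false

namespace Pool.Agent.Y201.LI

open MvPolynomial Pool.Agent.TH314.PD IntermediateField Module Pool.Agent.Y201.C3

noncomputable section

theorem hlam : S_LAM :=
  Pool.Agent.Y942.LI.lam hone Pool.Agent.Y220.LI.ext Pool.Agent.Y394.LI.bpf

theorem hsec : S_SEC := Pool.Agent.Y942.LI.sec hlam

variable {n : ℕ} {F : MvPolynomial (Fin (n + 2)) ℂ} {M : Type} [Field M] [Algebra ℂ M]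

/-- the residual line of the plane of the conic does not pass through `lam` -/
theorem conic_residual (hthree : S_THREE) (hF : F.IsHomogeneous 3)
    (hsm : ∀ z : Fin (n + 2) → ℂ, (∀ i, eval z (pderiv i F) = 0) → z = 0)
    (L : IntermediateField ℂ M) (t : M) (ht : Transcendental L t)
    (lam Q R : Fin (n + 2) → M) (hl : ∀ i, lam i ∈ L) (hQ : ∀ i, Q i ∈ L) (hR : ∀ i, R i ∈ L)
    (hx : aeval (fun i => t ^ 2 * lam i + t * Q i + R i) F = 0)
    (hgen : ∀ (e : ℕ) (H : MvPolynomial (Fin (n + 2)) ℂ), H.IsHomogeneous e →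
      aeval (fun i => t ^ 2 * lam i + t * Q i + R i) H = 0 → F ∣ H)
    (hodd : Odd (finrank (ratioField fun i => t ^ 2 * lam i + t * Q i + R i) M)) :
    ∑ i, (t ^ 2 * lam i + t * Q i + R i) * aeval lam (pderiv i F) ≠ 0 := by
  intro hsum
  obtain ⟨hl0, hFl, hz, ho⟩ := conic_core hthree hF hsm L t ht lam Q R hl hQ hR hx hgen hodd
  set y : Fin (n + 2) → RatFunc M := fun i => algebraMap M (RatFunc M) (lam i) with hy
  have hay : ∀ P : MvPolynomial (Fin (n + 2)) ℂ, aeval y P =
      algebraMap M (RatFunc M) (aeval lam P) := fun P => aeval_algebraMap_apply (RatFunc M) lam P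
  have hy0 : y ≠ 0 := by
    intro h
    apply hl0
    funext i
    have h1 := congrFun h i
    rw [hy, Pi.zero_apply] at h1
    exact (map_eq_zero _).1 h1
  have hE : ∑ i, lam i * aeval lam (pderiv i F) = 0 := by
    have h1 := congrArg (aeval lam) hF.sum_X_mul_pderiv
    rw [map_sum, map_nsmul, hFl, smul_zero] at h1
    simp only [map_mul, aeval_X] at h1
    exact h1
  have h1 := hlam (n + 2) 3 F hF (by norm_num) hsm (RatFunc M) (zz t lam Q R) hz y hy0 (by
    have h3 : ∀ i, zz t lam Q R i * aeval y (pderiv i F) = algebraMap M (RatFunc M)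
        ((t ^ 2 * lam i + t * Q i + R i) * aeval lam (pderiv i F)) +
        RatFunc.X * algebraMap M (RatFunc M) (lam i * aeval lam (pderiv i F)) := by
      intro i
      rw [hay, map_mul, map_mul, zz]
      ring
    rw [Finset.sum_congr rfl (fun i _ => h3 i), Finset.sum_add_distrib, ← map_sum, hsum,
      ← Finset.mul_sum, ← map_sum, hE, map_zero, mul_zero, add_zero])
  rcases ho with ⟨a, ha⟩
  omega

/-- if `lam` lies in a linear subspace of the hypersurface then the quadric fibration of this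
subspace has a section -/
theorem conic_section (hthree : S_THREE) (hF : F.IsHomogeneous 3)
    (hsm : ∀ z : Fin (n + 2) → ℂ, (∀ i, eval z (pderiv i F) = 0) → z = 0)
    (L : IntermediateField ℂ M) (t : M) (ht : Transcendental L t)
    (lam Q R : Fin (n + 2) → M) (hl : ∀ i, lam i ∈ L) (hQ : ∀ i, Q i ∈ L) (hR : ∀ i, R i ∈ L)
    (hx : aeval (fun i => t ^ 2 * lam i + t * Q i + R i) F = 0)
    (hgen : ∀ (e : ℕ) (H : MvPolynomial (Fin (n + 2)) ℂ), H.IsHomogeneous e →
      aeval (fun i => t ^ 2 * lam i + t * Q i + R i) H = 0 → F ∣ H)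
    (hodd : Odd (finrank (ratioField fun i => t ^ 2 * lam i + t * Q i + R i) M))
    {m : ℕ} (p : Fin m → Fin (n + 2) → ℂ) (hp : LinearIndependent ℂ p)
    (hpF : ∀ c : Fin m → ℂ, eval (∑ a, c a • p a) F = 0) (c : Fin m → M)
    (hc : ∀ i, lam i = ∑ a, c a * algebraMap ℂ M (p a i)) : HasSection F p := by
  obtain ⟨-, -, hz, ho⟩ := conic_core hthree hF hsm L t ht lam Q R hl hQ hR hx hgen hodd
  refine hsec (n + 2) m F hF hsm p hp hpF (RatFunc M) (zz t lam Q R) hz ho
    (fun a => - (RatFunc.X * algebraMap M (RatFunc M) (c a))) ?_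
  have h1 : (fun i => zz t lam Q R i + ∑ a, - (RatFunc.X * algebraMap M (RatFunc M) (c a)) *
      algebraMap ℂ (RatFunc M) (p a i)) = fun i =>
      algebraMap M (RatFunc M) (t ^ 2 * lam i + t * Q i + R i) := by
    funext i
    have h2 : ∑ a, - (RatFunc.X * algebraMap M (RatFunc M) (c a)) *
        algebraMap ℂ (RatFunc M) (p a i) = - (RatFunc.X * algebraMap M (RatFunc M) (lam i)) := by
      rw [hc i, map_sum, Finset.mul_sum, ← Finset.sum_neg_distrib]
      refine Finset.sum_congr rfl fun a _ => ?_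
      rw [IsScalarTower.algebraMap_apply ℂ M (RatFunc M), map_mul]
      ring
    rw [h2, zz]
    ring
  rw [h1]
  have h2 := aeval_algebraMap_apply (RatFunc M) (fun i => t ^ 2 * lam i + t * Q i + R i) F
  rw [hx, map_zero] at h2
  exact h2

/-- polynomials of degree at most two in a variable -/
theorem quad_poly {N : ℕ} {K : Type} [Field K] [Algebra ℂ K] (s : Fin N → K)
    (j : Fin N) (G : MvPolynomial (Fin N) ℂ) (hG : G.degreeOf j ≤ 2) :
    ∃ u v w : K, u ∈ adjoin ℂ (s '' {j}ᶜ) ∧ v ∈ adjoin ℂ (s '' {j}ᶜ) ∧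
      w ∈ adjoin ℂ (s '' {j}ᶜ) ∧ aeval s G = s j ^ 2 * u + s j * v + w ∧
      u = ∑ m ∈ G.support, (if m j = 2 then algebraMap ℂ K (coeff m G) *
        ∏ l ∈ Finset.univ.erase j, s l ^ m l else 0) := by
  classical
  have hX : ∀ l, l ≠ j → s l ∈ adjoin ℂ (s '' {j}ᶜ) := fun l hl =>
    subset_adjoin ℂ _ ⟨l, hl, rfl⟩
  have hmon : ∀ m : Fin N →₀ ℕ, ∏ l ∈ Finset.univ.erase j, s l ^ m l ∈ adjoin ℂ (s '' {j}ᶜ) :=
    fun m => prod_mem fun l hl => pow_mem (hX l (Finset.ne_of_mem_erase hl)) _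
  have hle : ∀ m ∈ G.support, m j ≤ 2 := fun m hm =>
    (monomial_le_degreeOf j hm).trans hG
  have hmem : ∀ k : ℕ, ∑ m ∈ G.support, (if m j = k then algebraMap ℂ K (coeff m G) *
      ∏ l ∈ Finset.univ.erase j, s l ^ m l else 0) ∈ adjoin ℂ (s '' {j}ᶜ) := by
    intro k
    refine sum_mem fun m _ => ?_
    split_ifs
    · exact mul_mem (IntermediateField.algebraMap_mem _ _) (hmon m)
    · exact zero_mem _
  refine ⟨_, _, _, hmem 2, hmem 1, hmem 0, ?_, rfl⟩
  rw [aeval_def, eval₂_eq', Finset.mul_sum, Finset.mul_sum, ← Finset.sum_add_distrib,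
    ← Finset.sum_add_distrib]
  refine Finset.sum_congr rfl fun m hm => ?_
  rw [← Finset.mul_prod_erase Finset.univ _ (Finset.mem_univ j)]
  have h2 := hle m hm
  obtain h | h | h : m j = 0 ∨ m j = 1 ∨ m j = 2 := by omega
  · rw [h]
    simp
  · rw [h]
    simp
    ring
  · rw [h]
    simp
    ring

end

end Pool.Agent.Y201.LI
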