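import Mathlib
import Pool.Agent.Y201.LI.Stm3

/-! # Project LI, fourth part: linear subspaces of small dimension have no section (statements) -/

set_option autoImplicit false

namespace Pool.Agent.Y201.LI

open MvPolynomial

noncomputable section

/-- job RK1: if `(m + 1) (m + 2) ≤ 2 r` then every linear subspace of `F = 0` spanned by `m`
independent vectors is contained in a linear space, of dimension one more, on which the residual
quadric of `F` is a double hyperplane (or everything) -/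
def S_RK1 : Prop :=
  ∀ (r m : ℕ) (F : MvPolynomial (Fin r) ℂ), F.IsHomogeneous 3 → (m + 1) * (m + 2) ≤ 2 * r →
    ∀ p : Fin m → Fin r → ℂ, LinearIndependent ℂ p →
    (∀ c : Fin m → ℂ, eval (∑ a, c a • p a) F = 0) →
    ∃ (η : Fin r → ℂ) (l0 : ℂ) (l : Fin m → ℂ), η ∉ Submodule.span ℂ (Set.range p) ∧
      ∀ (w : ℂ) (c : Fin m → ℂ),
        eval (w • η + ∑ a, c a • p a) F = w * (w * l0 + ∑ a, c a * l a) ^ 2

/-- job NOSEC: in the situation of `S_RK1` the quadric fibration has no section -/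
def S_NOSEC : Prop :=
  ∀ (r m : ℕ) (F : MvPolynomial (Fin r) ℂ), F.IsHomogeneous 3 →
    (∀ z : Fin r → ℂ, (∀ i, eval z (pderiv i F) = 0) → z = 0) →
    ∀ p : Fin m → Fin r → ℂ, LinearIndependent ℂ p →
    (∀ c : Fin m → ℂ, eval (∑ a, c a • p a) F = 0) →
    ∀ (η : Fin r → ℂ) (l0 : ℂ) (l : Fin m → ℂ), η ∉ Submodule.span ℂ (Set.range p) →
      (∀ (w : ℂ) (c : Fin m → ℂ),
        eval (w • η + ∑ a, c a • p a) F = w * (w * l0 + ∑ a, c a * l a) ^ 2) →
      ¬ HasSection F p

end

end Pool.Agent.Y201.LI
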