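import Mathlib
import Pool.Agent.Y201.LI.Conic2
import Pool.Agent.Y201.LI.Stm4
import Pool.Agent.Y317.LI.Three
import Pool.Agent.Y692.LI.FI

/-! # Project LI, fourth part: assembly -/

set_option autoImplicit false

namespace Pool.Agent.Y201.LI

open MvPolynomial Pool.Agent.TH314.PD IntermediateField Module

noncomputable section

theorem hthree : S_THREE := Pool.Agent.Y317.LI.three hT1 Pool.Agent.Y692.LI.fi

theorem noSection (hrk : S_RK1) (hns : S_NOSEC) {r m : ℕ} {F : MvPolynomial (Fin r) ℂ}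
    (hF : F.IsHomogeneous 3) (hsm : ∀ z : Fin r → ℂ, (∀ i, eval z (pderiv i F) = 0) → z = 0)
    (hm : (m + 1) * (m + 2) ≤ 2 * r) (p : Fin m → Fin r → ℂ) (hp : LinearIndependent ℂ p)
    (hpF : ∀ c : Fin m → ℂ, eval (∑ a, c a • p a) F = 0) : ¬ HasSection F p := by
  obtain ⟨η, l0, l, hη, h⟩ := hrk r m F hF hm p hp hpF
  exact hns r m F hF hsm p hp hpF η l0 l hη h

/-- a polynomial without the variable `j` -/
theorem mem_of_degreeOf {N : ℕ} {K : Type} [Field K] [Algebra ℂ K] (s : Fin N → K)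
    (j : Fin N) (G : MvPolynomial (Fin N) ℂ) (hG : G.degreeOf j = 0) :
    aeval s G ∈ adjoin ℂ (s '' {j}ᶜ) := by
  classical
  have hX : ∀ l, l ≠ j → s l ∈ adjoin ℂ (s '' {j}ᶜ) := fun l hl =>
    subset_adjoin ℂ _ ⟨l, hl, rfl⟩
  rw [aeval_def, eval₂_eq']
  refine sum_mem fun m hm => mul_mem (IntermediateField.algebraMap_mem _ _) ?_
  refine prod_mem fun l _ => ?_
  by_cases hl : l = j
  · have h1 := monomial_le_degreeOf j hm
    rw [hl, show m j = 0 by omega, pow_zero]
    exact one_mem _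
  · exact pow_mem (hX l hl) _

end

end Pool.Agent.Y201.LI
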