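import Mathlib
import Pool.Agent.TH314.PD.Core
import Pool.Agent.Y201.C3.Tri
import Pool.Agent.Y201.LI.Stm3

/-! # Project LI, fifth part: sections in arbitrary linear subspaces (statements) -/

set_option autoImplicit false

namespace Pool.Agent.Y201.LI

open MvPolynomial Pool.Agent.TH314.PD IntermediateField Module Pool.Agent.Y201.C3

noncomputable section

/-- a discrete valuation of `N` with residue field `κ`: order function (of nonzero elements),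
valuation ring and residue map -/
structure Dv (N κ : Type) [Field N] [Field κ] [Algebra ℂ N] [Algebra ℂ κ] where
  ord : N → ℤ
  O : Subring N
  ρ : O →+* κ
  ord_mul : ∀ a b, a ≠ 0 → b ≠ 0 → ord (a * b) = ord a + ord b
  mem : ∀ a, a ≠ 0 → (a ∈ O ↔ 0 ≤ ord a)
  ker : ∀ (a : N) (h : a ∈ O), ρ ⟨a, h⟩ = 0 ↔ a = 0 ∨ 0 < ord a
  const : ∀ (c : ℂ) (h : algebraMap ℂ N c ∈ O), ρ ⟨algebraMap ℂ N c, h⟩ = algebraMap ℂ κ c

/-- job ODD: over the place `s = 0` of `K₁(s)` an extension of odd degree has a place of odd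
ramification index and odd residue degree -/
def S_ODD : Prop :=
  ∀ (N : Type) [Field N] [Algebra ℂ N] (K₁ : IntermediateField ℂ N) (s : N),
    Transcendental K₁ s → Odd (finrank (adjoin K₁ {s}) N) →
    ∃ (κ : Type) (_ : Field κ) (_ : Algebra ℂ κ) (D : Dv N κ) (κ₁ : IntermediateField ℂ κ),
      Odd (D.ord s) ∧ 0 < D.ord s ∧ (∀ a ∈ K₁, ∃ h : a ∈ D.O, D.ρ ⟨a, h⟩ ∈ κ₁) ∧
      (∀ b ∈ κ₁, ∃ a ∈ K₁, ∃ h : a ∈ D.O, D.ρ ⟨a, h⟩ = b) ∧ Odd (finrank κ₁ κ)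

/-- job CORE: the local computation (in the last hypothesis one may assume that the form
`B(η, y, y)` vanishes, which holds in both cases of the proof) -/
def S_CORE : Prop :=
  ∀ (N κ : Type) [Field N] [Field κ] [Algebra ℂ N] [Algebra ℂ κ] (D : Dv N κ) (r : ℕ)
    (T : Fin r → Fin r → Fin r → ℂ), SymG T → ∀ (η : Fin r → ℂ) (l₀ : ℂ)
    (z₁ lam : Fin r → N) (l s u : N) (hz : ∀ i, z₁ i ∈ D.O) (hlam : ∀ i, lam i ∈ D.O),
    l ∈ D.O → s ≠ 0 → Odd (D.ord s) → 0 < D.ord s →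
    Bg T η η η = l₀ ^ 2 →
    3 * Bg T (fun i => algebraMap ℂ N (η i)) (fun i => algebraMap ℂ N (η i)) lam =
      2 * algebraMap ℂ N l₀ * l →
    3 * Bg T (fun i => algebraMap ℂ N (η i)) lam lam = l ^ 2 →
    u ^ 2 = 9 * Bg T (fun i => algebraMap ℂ N (η i) + s * z₁ i)
        (fun i => algebraMap ℂ N (η i) + s * z₁ i) lam ^ 2 -
      12 * Bg T (fun i => algebraMap ℂ N (η i) + s * z₁ i)
        (fun i => algebraMap ℂ N (η i) + s * z₁ i) (fun i => algebraMap ℂ N (η i) + s * z₁ i) *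
        Bg T (fun i => algebraMap ℂ N (η i) + s * z₁ i) lam lam →
    (∀ a b : κ, a ≠ 0 ∨ b ≠ 0 →
      Bg T (fun i => algebraMap ℂ κ (η i))
        (fun i => a * algebraMap ℂ κ (η i) + b * D.ρ ⟨lam i, hlam i⟩)
        (fun i => a * algebraMap ℂ κ (η i) + b * D.ρ ⟨lam i, hlam i⟩) = 0 →
      Bg T (fun i => D.ρ ⟨z₁ i, hz i⟩)
        (fun i => a * algebraMap ℂ κ (η i) + b * D.ρ ⟨lam i, hlam i⟩)
        (fun i => a * algebraMap ℂ κ (η i) + b * D.ρ ⟨lam i, hlam i⟩) ≠ 0) → False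

/-- job LAM2: points on the polar hypersurfaces of a generic point of a hyperplane and of a
constant point `η` outside of the hyperplane (proved from `S_LAM` and `S_EXT`) -/
def S_LAM2 : Prop :=
  ∀ (r d : ℕ) (F : MvPolynomial (Fin r) ℂ), F.IsHomogeneous d → 2 ≤ d →
    (∀ z : Fin r → ℂ, (∀ i, eval z (pderiv i F) = 0) → z = 0) →
    ∀ (η : Fin r → ℂ) (i₀ i₁ : Fin r), η i₀ ≠ 0 → i₁ ≠ i₀ →
    ∀ (κ : Type) [Field κ] [Algebra ℂ κ] (ζ : Fin r → κ), ζ i₀ = 0 → ζ i₁ = 1 →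
      (∀ (e : ℕ) (H : MvPolynomial (Fin r) ℂ), H.IsHomogeneous e → aeval ζ H = 0 → X i₀ ∣ H) →
      ∀ y : Fin r → κ, y ≠ 0 → ∑ i, ζ i * aeval y (pderiv i F) = 0 →
      ∑ i, algebraMap ℂ κ (η i) * aeval y (pderiv i F) = 0 →
      d - 1 ∣ finrank (ratioField ζ) κ

/-- job FLD: the generic point of projective space near the point `η` -/
def S_FLD : Prop :=
  ∀ (r : ℕ) (η : Fin r → ℂ) (i₀ i₁ : Fin r), η i₀ ≠ 0 → i₁ ≠ i₀ →
    ∀ (N : Type) [Field N] [Algebra ℂ N] (z : Fin r → N),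
      (∀ (e : ℕ) (H : MvPolynomial (Fin r) ℂ), H.IsHomogeneous e → aeval z H = 0 → H = 0) →
      ∀ (s : N) (z₁ : Fin r → N),
        s = algebraMap ℂ N (η i₀) * z i₁ / z i₀ - algebraMap ℂ N (η i₁) →
        (∀ i, s * z₁ i = algebraMap ℂ N (η i₀) * z i / z i₀ - algebraMap ℂ N (η i)) →
        s ≠ 0 ∧ z₁ i₀ = 0 ∧ z₁ i₁ = 1 ∧
        (∀ (e : ℕ) (H : MvPolynomial (Fin r) ℂ), H.IsHomogeneous e → aeval z₁ H = 0 →
          X i₀ ∣ H) ∧
        Transcendental (ratioField z₁) s ∧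
        finrank (adjoin (ratioField z₁) {s}) N = finrank (ratioField z) N

/-- job RK2: existence of a point `η` such that `F` restricted to the span of `η` and the `p a`
is the product of a coordinate and a square, up to terms not containing `η` -/
def S_RK2 : Prop :=
  ∀ (r m : ℕ) (T : Fin r → Fin r → Fin r → ℂ), SymG T → (m + 1) * (m + 2) ≤ 2 * r →
    ∀ p : Fin m → Fin r → ℂ, LinearIndependent ℂ p →
    ∃ (η : Fin r → ℂ) (l₀ : ℂ) (l : Fin m → ℂ), η ∉ Submodule.span ℂ (Set.range p) ∧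
      Bg T η η η = l₀ ^ 2 ∧ (∀ a, 3 * Bg T η η (p a) = 2 * l₀ * l a) ∧
      ∀ a b, 3 * Bg T η (p a) (p b) = l a * l b

end

end Pool.Agent.Y201.LI
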