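import Mathlib
import Pool.Agent.Y201.LI.Stm5

/-! # Project LI, fifth part: the local computation

The file of helper71 (`Pool/Agent/Y71/LI/Core.lean`), adapted to a weaker hypothesis. -/

set_option autoImplicit false

namespace Pool.Agent.Y201.LI.CoreW

open Pool.Agent.Y201.LI Pool.Agent.Y201.C3

noncomputable section

section dv

variable {N κ : Type} [Field N] [Field κ] [Algebra ℂ N] [Algebra ℂ κ] (D : Dv N κ)

theorem ord_one : D.ord 1 = 0 := by
  have h := D.ord_mul 1 1 one_ne_zero one_ne_zero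
  rw [mul_one] at h
  omega

theorem ord_pow {a : N} (ha : a ≠ 0) (n : ℕ) : D.ord (a ^ n) = n * D.ord a := by
  induction n with
  | zero => rw [pow_zero, ord_one]; simp
  | succ n ih =>
    rw [pow_succ, D.ord_mul _ _ (pow_ne_zero n ha) ha, ih]
    push_cast
    ring

theorem ord_const {c : ℂ} (hc : c ≠ 0) : D.ord (algebraMap ℂ N c) = 0 := by
  by_contra h
  obtain ⟨n, hn⟩ : ∃ n : ℕ, n = (D.ord (algebraMap ℂ N c)).natAbs + 1 := ⟨_, rfl⟩
  obtain ⟨d, hd⟩ := IsAlgClosed.exists_pow_nat_eq c (n := n) (by omega)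
  have hd0 : d ≠ 0 := by
    rintro rfl
    rw [zero_pow (by omega)] at hd
    exact hc hd.symm
  have hd0' : algebraMap ℂ N d ≠ 0 := by
    rw [Ne, map_eq_zero]
    exact hd0
  have h1 := ord_pow D hd0' n
  rw [← map_pow, hd] at h1
  have h2 : (n : ℤ) ∣ D.ord (algebraMap ℂ N c) := ⟨_, h1⟩
  have h3 := Int.natAbs_dvd_natAbs.2 h2
  rw [Int.natAbs_natCast] at h3
  have h4 := Nat.le_of_dvd (by omega) h3
  omega

theorem const_mem (c : ℂ) : algebraMap ℂ N c ∈ D.O := by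
  by_cases hc : c = 0
  · rw [hc, map_zero]
    exact D.O.zero_mem
  · rw [D.mem _ (by rw [Ne, map_eq_zero]; exact hc), ord_const D hc]

/-- constants -/
def cst (c : ℂ) : D.O := ⟨algebraMap ℂ N c, const_mem D c⟩

theorem cst_coe (c : ℂ) : (cst D c : N) = algebraMap ℂ N c := rfl

theorem cst_res (c : ℂ) : D.ρ (cst D c) = algebraMap ℂ κ c := D.const c _

theorem unit_ord (w : D.O) (hw : D.ρ w ≠ 0) : (w : N) ≠ 0 ∧ D.ord (w : N) = 0 := by
  have h1 := D.ker (w : N) w.2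
  have h2 : ¬ ((w : N) = 0 ∨ 0 < D.ord (w : N)) := fun h => hw (h1.2 h)
  rw [not_or] at h2
  refine ⟨h2.1, ?_⟩
  have h3 := (D.mem _ h2.1).1 w.2
  omega

theorem res_pos (w : D.O) (hw : 0 < D.ord (w : N)) : D.ρ w = 0 := (D.ker (w : N) w.2).2 (Or.inr hw)

theorem sqrt_mem {x : N} (hx : x ^ 2 ∈ D.O) : x ∈ D.O := by
  by_cases h0 : x = 0
  · rw [h0]
    exact D.O.zero_mem
  · rw [D.mem _ h0]
    have h1 := (D.mem _ (pow_ne_zero 2 h0)).1 hx
    rw [ord_pow D h0] at h1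
    push_cast at h1
    omega

/-- the trilinear form on the valuation ring -/
theorem bg_O {r : ℕ} (T : Fin r → Fin r → Fin r → ℂ) (x y z : Fin r → D.O) :
    ∃ b : D.O, (b : N) = Bg T (fun i => (x i : N)) (fun i => (y i : N)) (fun i => (z i : N)) ∧
      D.ρ b = Bg T (fun i => D.ρ (x i)) (fun i => D.ρ (y i)) (fun i => D.ρ (z i)) := by
  refine ⟨∑ i, ∑ j, ∑ k, cst D (T i j k) * x i * y j * z k, ?_, ?_⟩
  · unfold Bg
    push_cast
    rfl
  · unfold Bg
    simp only [map_sum, map_mul, cst_res]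

/-- parity -/
theorem odd_contra {s u : N} {w : D.O} {t : N} (ht : t ≠ 0) (hs : s ≠ 0) (hs1 : Odd (D.ord s))
    (hw : D.ρ w ≠ 0) (h : u ^ 2 = s * t ^ 2 * w) : False := by
  obtain ⟨hw0, hw1⟩ := unit_ord D w hw
  have hu : u ≠ 0 := by
    rintro rfl
    rw [zero_pow two_ne_zero] at h
    exact mul_ne_zero (mul_ne_zero hs (pow_ne_zero 2 ht)) hw0 h.symm
  have h1 := congrArg D.ord h
  rw [ord_pow D hu, D.ord_mul _ _ (mul_ne_zero hs (pow_ne_zero 2 ht)) hw0,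
    D.ord_mul _ _ hs (pow_ne_zero 2 ht), ord_pow D ht, hw1] at h1
  obtain ⟨k, hk⟩ := hs1
  push_cast at h1
  omega

end dv

theorem core : S_CORE := by
  intro N κ _ _ _ _ D r T hT η l₀ z₁ lam l s u hz hlam hl hs hodd hpos hA0 hB0 hC0 hu hne
  have hch : CharZero κ := charZero_of_injective_algebraMap (algebraMap ℂ κ).injective
  have hchN : CharZero N := charZero_of_injective_algebraMap (algebraMap ℂ N).injective
  have hsO : s ∈ D.O := (D.mem s hs).2 hpos.le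
  obtain ⟨S, hS⟩ : ∃ S : D.O, (S : N) = s := ⟨⟨s, hsO⟩, rfl⟩
  have hSr : D.ρ S = 0 := res_pos D S (by rw [hS]; exact hpos)
  obtain ⟨Lo, hLo⟩ : ∃ Lo : D.O, (Lo : N) = l := ⟨⟨l, hl⟩, rfl⟩
  let H : Fin r → D.O := fun i => cst D (η i)
  let Z : Fin r → D.O := fun i => ⟨z₁ i, hz i⟩
  let M : Fin r → D.O := fun i => ⟨lam i, hlam i⟩
  obtain ⟨A1, hA1, hA1r⟩ := bg_O D T Z H H
  obtain ⟨A2, hA2, -⟩ := bg_O D T Z Z H
  obtain ⟨A3, hA3, -⟩ := bg_O D T Z Z Z
  obtain ⟨B1, hB1, hB1r⟩ := bg_O D T Z H M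
  obtain ⟨B2, hB2, -⟩ := bg_O D T Z Z M
  obtain ⟨C1, hC1, hC1r⟩ := bg_O D T Z M M
  have hHr : (fun i => D.ρ (H i)) = fun i => algebraMap ℂ κ (η i) := funext fun i => cst_res D _
  rw [hHr] at hA1r hB1r
  change (A1 : N) = Bg T z₁ (fun i => algebraMap ℂ N (η i)) (fun i => algebraMap ℂ N (η i)) at hA1
  change (A2 : N) = Bg T z₁ z₁ (fun i => algebraMap ℂ N (η i)) at hA2
  change (A3 : N) = Bg T z₁ z₁ z₁ at hA3
  change (B1 : N) = Bg T z₁ (fun i => algebraMap ℂ N (η i)) lam at hB1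
  change (B2 : N) = Bg T z₁ z₁ lam at hB2
  change (C1 : N) = Bg T z₁ lam lam at hC1
  -- the residues
  have hηl : 3 * Bg T (fun i => algebraMap ℂ κ (η i)) (fun i => algebraMap ℂ κ (η i))
      (fun i => D.ρ ⟨lam i, hlam i⟩) = 2 * algebraMap ℂ κ l₀ * D.ρ Lo := by
    obtain ⟨E, hE, hEr⟩ := bg_O D T H H M
    have h1 : 3 * E = 2 * cst D l₀ * Lo := by
      apply Subtype.ext
      have c3 : ((3 : D.O) : N) = 3 := rfl
      have c2 : ((2 : D.O) : N) = 2 := rfl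
      push_cast
      rw [c3, c2, hE, hLo, cst_coe]
      exact hB0
    have h2 := congrArg D.ρ h1
    rw [map_mul, map_mul, map_mul, map_ofNat, map_ofNat, cst_res, hEr, hHr] at h2
    exact h2
  have hηll : 3 * Bg T (fun i => algebraMap ℂ κ (η i)) (fun i => D.ρ ⟨lam i, hlam i⟩)
      (fun i => D.ρ ⟨lam i, hlam i⟩) = D.ρ Lo ^ 2 := by
    obtain ⟨E, hE, hEr⟩ := bg_O D T H M M
    have h1 : 3 * E = Lo ^ 2 := by
      apply Subtype.ext
      have c3 : ((3 : D.O) : N) = 3 := rfl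
      push_cast
      rw [c3, hE, hLo]
      exact hC0
    have h2 := congrArg D.ρ h1
    rw [map_mul, map_pow, map_ofNat, hEr, hHr] at h2
    exact h2
  have hηyy : ∀ a b : κ, a ^ 2 * algebraMap ℂ κ l₀ ^ 2 + 4 / 3 * a * b * algebraMap ℂ κ l₀ * D.ρ Lo +
      1 / 3 * b ^ 2 * D.ρ Lo ^ 2 = 0 → Bg T (fun i => algebraMap ℂ κ (η i))
        (fun i => a * algebraMap ℂ κ (η i) + b * D.ρ ⟨lam i, hlam i⟩)
        (fun i => a * algebraMap ℂ κ (η i) + b * D.ρ ⟨lam i, hlam i⟩) = 0 := by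
    intro a b hab
    have h0 : Bg T (fun i => algebraMap ℂ κ (η i)) (fun i => algebraMap ℂ κ (η i))
        (fun i => algebraMap ℂ κ (η i)) = algebraMap ℂ κ l₀ ^ 2 := by
      rw [Bg_alg, hA0, map_pow]
    simp only [Bg_add2, Bg_add3, Bg_smul2, Bg_smul3]
    rw [Bg_swap23 hT _ (fun i => D.ρ ⟨lam i, hlam i⟩) (fun i => algebraMap ℂ κ (η i)), h0]
    linear_combination hab + (2 / 3 * a * b) * hηl + (1 / 3 * b ^ 2) * hηll
  have hne' : ∀ a b : κ, a ≠ 0 ∨ b ≠ 0 → a ^ 2 * algebraMap ℂ κ l₀ ^ 2 +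
      4 / 3 * a * b * algebraMap ℂ κ l₀ * D.ρ Lo + 1 / 3 * b ^ 2 * D.ρ Lo ^ 2 = 0 →
      a ^ 2 * D.ρ A1 + 2 * a * b * D.ρ B1 + b ^ 2 * D.ρ C1 ≠ 0 := by
    intro a b hab hab2
    have h1 := hne a b hab (hηyy a b hab2)
    have h2 : Bg T (fun i => D.ρ ⟨z₁ i, hz i⟩)
        (fun i => a * algebraMap ℂ κ (η i) + b * D.ρ ⟨lam i, hlam i⟩)
        (fun i => a * algebraMap ℂ κ (η i) + b * D.ρ ⟨lam i, hlam i⟩) =
        a ^ 2 * D.ρ A1 + 2 * a * b * D.ρ B1 + b ^ 2 * D.ρ C1 := by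
      rw [hA1r, hB1r, hC1r]
      simp only [Bg_add2, Bg_add3, Bg_smul2, Bg_smul3]
      rw [Bg_swap23 hT _ (fun i => D.ρ ⟨lam i, hlam i⟩) (fun i => algebraMap ℂ κ (η i))]
      change a * (a * Bg T (fun i => D.ρ (Z i)) _ _ + b * Bg T (fun i => D.ρ (Z i)) _
        (fun i => D.ρ (M i))) + b * (a * Bg T (fun i => D.ρ (Z i)) _ (fun i => D.ρ (M i)) +
          b * Bg T (fun i => D.ρ (Z i)) (fun i => D.ρ (M i)) (fun i => D.ρ (M i))) = _
      ring
    rw [h2] at h1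
    exact h1
  have hα : l₀ = 0 → D.ρ A1 ≠ 0 := by
    intro hl0
    have h1 := hne' 1 0 (Or.inl one_ne_zero) (by rw [hl0, map_zero]; ring)
    intro h2
    apply h1
    rw [h2]
    ring
  -- the discriminant is not a square
  have hδ : l₀ = 0 → D.ρ Lo = 0 → ∀ g : κ, g ^ 2 ≠ D.ρ B1 ^ 2 - D.ρ A1 * D.ρ C1 := by
    intro hl0 hLr g hg
    have hα' := hα hl0
    apply hne' ((-D.ρ B1 + g) / D.ρ A1) 1 (Or.inr one_ne_zero) (by rw [hl0, hLr, map_zero]; ring)
    field_simp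
    linear_combination hg
  -- the main identity
  have hid : u ^ 2 = s * (-12 * (algebraMap ℂ N l₀ ^ 2 * C1 - 2 * algebraMap ℂ N l₀ * l * B1 +
        l ^ 2 * A1)) + s ^ 2 * (36 * (B1 ^ 2 - A1 * C1) + 12 * algebraMap ℂ N l₀ * l * B2 -
        12 * l ^ 2 * A2) + s ^ 3 * (36 * B1 * B2 - 36 * A2 * C1 - 4 * A3 * l ^ 2 +
        s * (9 * B2 ^ 2 - 12 * A3 * C1)) := by
    have hη : (fun i => algebraMap ℂ N (η i)) = fun i => algebraMap ℂ N (η i) := rfl
    obtain ⟨y, hy⟩ : ∃ y : Fin r → N, y = fun i => algebraMap ℂ N (η i) := ⟨_, rfl⟩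
    have hyi : ∀ i, algebraMap ℂ N (η i) = y i := fun i => by rw [hy]
    have hyyy : Bg T y y y = algebraMap ℂ N l₀ ^ 2 := by
      rw [hy, Bg_alg, hA0, map_pow]
    simp only [hyi] at hu hB0 hC0 hA1 hA2 hB1
    rw [hu]
    have e1 : Bg T (fun i => y i + s * z₁ i) (fun i => y i + s * z₁ i) lam =
        Bg T y y lam + 2 * s * B1 + s ^ 2 * B2 := by
      simp only [Bg_add1, Bg_add2, Bg_smul1, Bg_smul2]
      rw [Bg_swap12 hT y z₁ lam, hB1, hB2]
      ring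
    have e2 : Bg T (fun i => y i + s * z₁ i) (fun i => y i + s * z₁ i)
        (fun i => y i + s * z₁ i) =
        algebraMap ℂ N l₀ ^ 2 + 3 * s * A1 + 3 * s ^ 2 * A2 + s ^ 3 * A3 := by
      simp only [Bg_add1, Bg_add2, Bg_add3, Bg_smul1, Bg_smul2, Bg_smul3]
      rw [Bg_swap23 hT y y z₁, Bg_swap12 hT y z₁ y, Bg_swap12 hT y z₁ z₁, Bg_swap23 hT z₁ y z₁,
        hyyy, hA1, hA2, hA3]
      ring
    have e3 : Bg T (fun i => y i + s * z₁ i) lam lam = Bg T y lam lam + s * C1 := by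
      simp only [Bg_add1, Bg_smul1]
      rw [hC1]
    have e4 : Bg T y y lam = 2 * algebraMap ℂ N l₀ * l / 3 := by
      rw [eq_div_iff (by norm_num), ← hB0]
      ring
    have e5 : Bg T y lam lam = l ^ 2 / 3 := by
      rw [eq_div_iff (by norm_num), ← hC0]
      ring
    rw [e1, e2, e3, e4, e5]
    ring
  have c2 : ((2 : D.O) : N) = 2 := rfl
  have c4 : ((4 : D.O) : N) = 4 := rfl
  have c9 : ((9 : D.O) : N) = 9 := rfl
  have c12 : ((12 : D.O) : N) = 12 := rfl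
  have c36 : ((36 : D.O) : N) = 36 := rfl
  -- elements of the valuation ring
  obtain ⟨P, hP, hPr⟩ : ∃ P : D.O, (P : N) = algebraMap ℂ N l₀ ^ 2 * C1 -
      2 * algebraMap ℂ N l₀ * l * B1 + l ^ 2 * A1 ∧ D.ρ P = (algebraMap ℂ κ l₀) ^ 2 * D.ρ C1 -
      2 * algebraMap ℂ κ l₀ * D.ρ Lo * D.ρ B1 + D.ρ Lo ^ 2 * D.ρ A1 := by
    refine ⟨cst D l₀ ^ 2 * C1 - 2 * cst D l₀ * Lo * B1 + Lo ^ 2 * A1, ?_, ?_⟩
    · push_cast
      simp only [c2, c4, c9, c12, c36]
      rw [hLo, cst_coe]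
    · simp only [map_add, map_sub, map_mul, map_pow, map_ofNat, cst_res]
  obtain ⟨Q, hQ, hQr⟩ : ∃ Q : D.O, (Q : N) = 36 * (B1 ^ 2 - A1 * C1) +
      12 * algebraMap ℂ N l₀ * l * B2 - 12 * l ^ 2 * A2 ∧
      D.ρ Q = 36 * (D.ρ B1 ^ 2 - D.ρ A1 * D.ρ C1) + 12 * algebraMap ℂ κ l₀ * D.ρ Lo * D.ρ B2 -
        12 * D.ρ Lo ^ 2 * D.ρ A2 := by
    refine ⟨36 * (B1 ^ 2 - A1 * C1) + 12 * cst D l₀ * Lo * B2 - 12 * Lo ^ 2 * A2, ?_, ?_⟩
    · push_cast
      simp only [c2, c4, c9, c12, c36]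
      rw [hLo, cst_coe]
    · simp only [map_add, map_sub, map_mul, map_pow, map_ofNat, cst_res]
  obtain ⟨R, hR⟩ : ∃ R : D.O, (R : N) = 36 * B1 * B2 - 36 * A2 * C1 - 4 * A3 * l ^ 2 +
        s * (9 * B2 ^ 2 - 12 * A3 * C1) := by
    refine ⟨36 * B1 * B2 - 36 * A2 * C1 - 4 * A3 * Lo ^ 2 +
        S * (9 * B2 ^ 2 - 12 * A3 * C1), ?_⟩
    push_cast
    simp only [c2, c4, c9, c12, c36]
    rw [hLo, hS]
  rw [← hP, ← hQ, ← hR] at hid
  -- the end in the even case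
  have hfin : l₀ = 0 → D.ρ Lo = 0 → ∀ v : D.O, D.ρ v = 36 * (D.ρ B1 ^ 2 - D.ρ A1 * D.ρ C1) →
      u ^ 2 = s ^ 2 * v → False := by
    intro hl0 hLr v hv huv
    have h1 : (u / s) ^ 2 = (v : N) := by
      rw [div_pow, huv, mul_div_cancel_left₀ _ (pow_ne_zero 2 hs)]
    have h2 : u / s ∈ D.O := sqrt_mem D (by rw [h1]; exact v.2)
    have h3 : (⟨u / s, h2⟩ : D.O) ^ 2 = v := Subtype.ext (by push_cast; exact h1)
    have h4 := congrArg D.ρ h3
    rw [map_pow, hv] at h4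
    apply hδ hl0 hLr (D.ρ ⟨u / s, h2⟩ / 6)
    rw [div_pow, h4]
    ring
  by_cases hcase : l₀ ≠ 0 ∨ D.ρ Lo ≠ 0
  · -- case A
    have h1 : D.ρ P ≠ 0 := by
      have h2 := hne' (-D.ρ Lo) (algebraMap ℂ κ l₀) (by
        rcases hcase with h | h
        · exact Or.inr (by rw [Ne, map_eq_zero]; exact h)
        · exact Or.inl (neg_ne_zero.2 h)) (by ring)
      intro h3
      apply h2
      rw [← h3, hPr]
      ring
    refine odd_contra D (u := u) (s := s) (t := 1) (w := -12 * P + S * Q + S ^ 2 * R) one_ne_zero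
      hs hodd ?_ ?_
    · rw [map_add, map_add, map_mul, map_mul, map_mul, map_pow, hSr, map_neg, map_ofNat]
      intro h2
      apply h1
      have h3 : (12 : κ) * D.ρ P = 0 := by linear_combination -h2
      exact (mul_eq_zero.1 h3).resolve_left (by norm_num)
    · push_cast
      simp only [c2, c4, c9, c12, c36]
      rw [hid, hS]
      ring
  · -- case B
    rw [not_or, not_not, not_not] at hcase
    obtain ⟨hl0, hLr⟩ := hcase
    have hPeq : (P : N) = l ^ 2 * A1 := by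
      rw [hP, hl0, map_zero]
      ring
    have hQr' : D.ρ Q = 36 * (D.ρ B1 ^ 2 - D.ρ A1 * D.ρ C1) := by
      rw [hQr, hLr]
      ring
    by_cases hl1 : l = 0
    · refine hfin hl0 hLr (Q + S * R) ?_ ?_
      · rw [map_add, map_mul, hSr, hQr']
        ring
      · push_cast
        try simp only [c2, c4, c9, c12, c36]
        rw [hid, hS, hPeq, hl1]
        ring
    · have hν : 0 < D.ord l := by
        have h1 := (D.ker (Lo : N) Lo.2).1 hLr
        rw [hLo] at h1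
        exact h1.resolve_left hl1
      have hl2 : l ^ 2 ≠ 0 := pow_ne_zero 2 hl1
      have hol2 : D.ord (l ^ 2) = 2 * D.ord l := by
        rw [ord_pow D hl1]
        push_cast
        rfl
      rcases lt_trichotomy (2 * D.ord l) (D.ord s) with hlt | heq | hgt
      · -- small order
        have h0 : s / l ^ 2 ≠ 0 := div_ne_zero hs hl2
        have h1 : D.ord (s / l ^ 2) = D.ord s - 2 * D.ord l := by
          have h2 := D.ord_mul _ _ h0 hl2
          rw [div_mul_cancel₀ _ hl2, hol2] at h2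
          omega
        obtain ⟨t, ht⟩ : ∃ t : D.O, (t : N) = s / l ^ 2 :=
          ⟨⟨s / l ^ 2, (D.mem _ h0).2 (by omega)⟩, rfl⟩
        have htr : D.ρ t = 0 := res_pos D t (by rw [ht, h1]; omega)
        refine odd_contra D (u := u) (s := s) (t := l) (w := -12 * A1 + t * Q + t * S * R) hl1
          hs hodd ?_ ?_
        · rw [map_add, map_add, map_mul, map_mul, map_mul, map_mul, htr, map_neg, map_ofNat]
          intro h2
          apply hα hl0
          have h3 : (12 : κ) * D.ρ A1 = 0 := by linear_combination -h2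
          exact (mul_eq_zero.1 h3).resolve_left (by norm_num)
        · push_cast
          simp only [c2, c4, c9, c12, c36]
          rw [hid, hS, hPeq, ht]
          field_simp
      · obtain ⟨k, hk⟩ := hodd
        omega
      · -- large order
        have h0 : l ^ 2 / s ≠ 0 := div_ne_zero hl2 hs
        have h1 : D.ord (l ^ 2 / s) = 2 * D.ord l - D.ord s := by
          have h2 := D.ord_mul _ _ h0 hs
          rw [div_mul_cancel₀ _ hs, hol2] at h2
          omega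
        obtain ⟨t, ht⟩ : ∃ t : D.O, (t : N) = l ^ 2 / s :=
          ⟨⟨l ^ 2 / s, (D.mem _ h0).2 (by omega)⟩, rfl⟩
        have htr : D.ρ t = 0 := res_pos D t (by rw [ht, h1]; omega)
        refine hfin hl0 hLr (-12 * t * A1 + Q + S * R) ?_ ?_
        · rw [map_add, map_add, map_mul, map_mul, map_mul, htr, hSr, hQr']
          ring
        · push_cast
          simp only [c2, c4, c9, c12, c36]
          rw [hid, hS, hPeq, ht]
          field_simp

end

end Pool.Agent.Y201.LI.CoreW
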