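import Mathlib
import Pool.Agent.Y201.LI.Stm5
import Pool.Agent.Y942.LI.Sec

/-! # Project LI, fifth part: sections in arbitrary linear subspaces, preparations -/

set_option autoImplicit false

namespace Pool.Agent.Y201.LI

open MvPolynomial Pool.Agent.TH314.PD IntermediateField Module Pool.Agent.Y201.C3

noncomputable section

/-- the polar form -/
theorem sum_pderiv {r : ℕ} {T : Fin r → Fin r → Fin r → ℂ} (hT : SymG T) {F : MvPolynomial (Fin r) ℂ}
    (hFT : F = Bg T X X X) {N : Type} [CommRing N] [Algebra ℂ N] (w y : Fin r → N) :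
    ∑ i, w i * aeval y (pderiv i F) = 3 * Bg T w y y := by
  have h1 : ∀ i, w i * aeval y (pderiv i F) =
      3 * (w i * Bg T (fun k => if k = i then 1 else 0) y y) := by
    intro i
    rw [hFT, pderiv_frmG hT]
    ring
  rw [Finset.sum_congr rfl fun i _ => h1 i, ← Finset.mul_sum]
  have h2 : ∑ i, w i * Bg T (fun k => if k = i then (1 : N) else 0) y y = Bg T w y y := by
    have h3 : w = fun k => ∑ i, w i * (if k = i then (1 : N) else 0) := by
      funext k
      simp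
    conv_rhs => rw [h3]
    rw [Bg_sum1]
    exact Finset.sum_congr rfl fun i _ => (Bg_smul1 T (w i) _ y y).symm
  rw [h2]

section dv

variable {N κ : Type} [Field N] [Field κ] [Algebra ℂ N] [Algebra ℂ κ] (D : Dv N κ)

/-- the reduction of the value of a polynomial -/
theorem red_aeval (hC : ∀ c : ℂ, algebraMap ℂ N c ∈ D.O) {r : ℕ} (z : Fin r → N)
    (hz : ∀ i, z i ∈ D.O) (P : MvPolynomial (Fin r) ℂ) :
    ∃ h : aeval z P ∈ D.O, D.ρ ⟨aeval z P, h⟩ = aeval (fun i => D.ρ ⟨z i, hz i⟩) P := by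
  let o : ∀ c : ℂ, D.O := fun c => ⟨algebraMap ℂ N c, hC c⟩
  let f : ℂ →+* D.O :=
    { toFun := o
      map_one' := Subtype.ext (map_one _)
      map_mul' := fun a b => Subtype.ext (map_mul _ a b)
      map_zero' := Subtype.ext (map_zero _)
      map_add' := fun a b => Subtype.ext (map_add _ a b) }
  let e : D.O := eval₂ f (fun i => (⟨z i, hz i⟩ : D.O)) P
  have he : (e : N) = aeval z P := by
    change D.O.subtype e = _
    rw [hom_eval₂, aeval_def]
    rfl
  have h : aeval z P ∈ D.O := he ▸ e.2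
  refine ⟨h, ?_⟩
  have h1 : (⟨aeval z P, h⟩ : D.O) = e := Subtype.ext he.symm
  rw [h1, hom_eval₂, aeval_def]
  congr 1
  ext c
  exact D.const c (hC c)

theorem red_proof {a b : N} (hab : a = b) (ha : a ∈ D.O) (hb : b ∈ D.O) :
    D.ρ ⟨a, ha⟩ = D.ρ ⟨b, hb⟩ := by
  subst hab
  rfl

theorem red_sum {ι : Type} (s : Finset ι) (f : ι → N) (hf : ∀ i, f i ∈ D.O)
    (h : ∑ i ∈ s, f i ∈ D.O) : D.ρ ⟨∑ i ∈ s, f i, h⟩ = ∑ i ∈ s, D.ρ ⟨f i, hf i⟩ := by
  rw [← map_sum]
  congr 1
  apply Subtype.ext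
  rw [AddSubmonoidClass.coe_finsetSum]

theorem red_mul {a b : N} (ha : a ∈ D.O) (hb : b ∈ D.O) (h : a * b ∈ D.O) :
    D.ρ ⟨a * b, h⟩ = D.ρ ⟨a, ha⟩ * D.ρ ⟨b, hb⟩ := by
  rw [← map_mul]
  rfl

theorem red_add {a b : N} (ha : a ∈ D.O) (hb : b ∈ D.O) (h : a + b ∈ D.O) :
    D.ρ ⟨a + b, h⟩ = D.ρ ⟨a, ha⟩ + D.ρ ⟨b, hb⟩ := by
  rw [← map_add]
  rfl

theorem ord_div {a b : N} (ha : a ≠ 0) (hb : b ≠ 0) : D.ord (a / b) = D.ord a - D.ord b := by
  have h1 := D.ord_mul (a / b) b (div_ne_zero ha hb) hb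
  rw [div_mul_cancel₀ _ hb] at h1
  omega

/-- normalisation of a vector -/
theorem normalise {m : ℕ} (c : Fin m → N) (hc : c ≠ 0) :
    ∃ (τ : N) (c' : Fin m → N) (a₀ : Fin m), (∀ a, c' a ∈ D.O) ∧ c' a₀ = 1 ∧
      ∀ a, c a = τ * c' a := by
  classical
  have hne : (Finset.univ.filter fun a => c a ≠ 0).Nonempty := by
    by_contra hcon
    rw [Finset.not_nonempty_iff_eq_empty, Finset.filter_eq_empty_iff] at hcon
    apply hc
    funext a
    have := hcon (Finset.mem_univ a)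
    push Not at this
    exact this
  obtain ⟨a₀, h1, h2⟩ := Finset.exists_min_image _ (fun a => D.ord (c a)) hne
  rw [Finset.mem_filter] at h1
  refine ⟨c a₀, fun a => c a / c a₀, a₀, fun a => ?_, div_self h1.2, fun a => ?_⟩
  · change c a / c a₀ ∈ D.O
    by_cases ha : c a = 0
    · rw [ha, zero_div]
      exact D.O.zero_mem
    · rw [D.mem _ (div_ne_zero ha h1.2), ord_div D ha h1.2]
      have := h2 a (by rw [Finset.mem_filter]; exact ⟨Finset.mem_univ a, ha⟩)
      omega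
  · rw [mul_div_cancel₀ _ h1.2]

/-- the residue field of `ratioField z` -/
theorem red_ratio {r : ℕ} (z : Fin r → N) (i₁ : Fin r) (h1 : z i₁ = 1) (κ₁ : IntermediateField ℂ κ)
    (hmem : ∀ a ∈ ratioField z, ∃ h : a ∈ D.O, D.ρ ⟨a, h⟩ ∈ κ₁)
    (hsur : ∀ b ∈ κ₁, ∃ a ∈ ratioField z, ∃ h : a ∈ D.O, D.ρ ⟨a, h⟩ = b) :
    ∃ hz : ∀ i, z i ∈ D.O, ratioField (fun i => D.ρ ⟨z i, hz i⟩) = κ₁ ∧
      (∀ P : MvPolynomial (Fin r) ℂ, aeval (fun i => D.ρ ⟨z i, hz i⟩) P = 0 → aeval z P = 0) := by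
  have hzK : ∀ i, z i ∈ ratioField z := by
    intro i
    have : z i = z i / z i₁ := by rw [h1, div_one]
    rw [this]
    exact subset_adjoin ℂ _ ⟨i, i₁, rfl⟩
  have hO : ∀ a ∈ ratioField z, a ∈ D.O := fun a ha => (hmem a ha).1
  have hz : ∀ i, z i ∈ D.O := fun i => hO _ (hzK i)
  have hC : ∀ c : ℂ, algebraMap ℂ N c ∈ D.O := fun c => hO _ ((ratioField z).algebraMap_mem c)
  have hinj : ∀ a ∈ ratioField z, ∀ h : a ∈ D.O, D.ρ ⟨a, h⟩ = 0 → a = 0 := by
    intro a ha h h0
    by_contra hne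
    have h2 := hO _ ((ratioField z).inv_mem ha)
    have h3 : D.ρ ⟨a * a⁻¹, D.O.mul_mem h h2⟩ = 1 := by
      rw [red_proof D (mul_inv_cancel₀ hne) _ D.O.one_mem]
      exact map_one D.ρ
    rw [red_mul D h h2, h0, zero_mul] at h3
    exact zero_ne_one h3
  refine ⟨hz, le_antisymm ?_ ?_, ?_⟩
  · unfold ratioField
    rw [IntermediateField.adjoin_le_iff]
    rintro _ ⟨i, j, rfl⟩
    exact κ₁.div_mem (hmem _ (hzK i)).2 (hmem _ (hzK j)).2
  · intro b hb
    obtain ⟨a, ha, h, rfl⟩ := hsur b hb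
    set S := ratioField (fun i => D.ρ ⟨z i, hz i⟩) with hS
    have key : ∀ a ∈ ratioField z, ∀ h : a ∈ D.O, D.ρ ⟨a, h⟩ ∈ S := by
      intro a ha
      unfold ratioField at ha
      induction ha using IntermediateField.adjoin_induction with
      | mem x hx =>
        obtain ⟨i, j, rfl⟩ := hx
        intro h
        by_cases hj : z j = 0
        · have h2 : z i / z j = 0 := by rw [hj, div_zero]
          rw [red_proof D h2 h D.O.zero_mem]
          have : D.ρ ⟨0, D.O.zero_mem⟩ = 0 := map_zero D.ρ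
          rw [this]
          exact S.zero_mem
        · have h2 : D.ρ ⟨z j, hz j⟩ ≠ 0 := fun h0 => hj (hinj _ (hzK j) _ h0)
          have h3 : D.ρ ⟨z i / z j, h⟩ = D.ρ ⟨z i, hz i⟩ / D.ρ ⟨z j, hz j⟩ := by
            rw [eq_div_iff h2, ← red_mul D h (hz j) (by rw [div_mul_cancel₀ _ hj]; exact hz i)]
            exact red_proof D (div_mul_cancel₀ _ hj) _ _
          rw [h3]
          exact subset_adjoin ℂ _ ⟨i, j, rfl⟩
      | algebraMap c =>
        intro h
        rw [D.const]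
        exact S.algebraMap_mem c
      | add x y hx hy ihx ihy =>
        intro h
        have h1 : x ∈ D.O := hO x hx
        have h2 : y ∈ D.O := hO y hy
        rw [red_add D h1 h2]
        exact add_mem (ihx h1) (ihy h2)
      | inv x hx ihx =>
        intro h
        have h1 : x ∈ D.O := hO x hx
        by_cases hx0 : x = 0
        · have h2 : x⁻¹ = 0 := by rw [hx0, inv_zero]
          rw [red_proof D h2 h D.O.zero_mem]
          have : D.ρ ⟨0, D.O.zero_mem⟩ = 0 := map_zero D.ρ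
          rw [this]
          exact S.zero_mem
        · have h2 : D.ρ ⟨x, h1⟩ ≠ 0 := fun h0 => hx0 (hinj _ hx _ h0)
          have h3 : D.ρ ⟨x⁻¹, h⟩ = (D.ρ ⟨x, h1⟩)⁻¹ := by
            refine eq_inv_of_mul_eq_one_left ?_
            rw [← red_mul D h h1 (by rw [inv_mul_cancel₀ hx0]; exact D.O.one_mem),
              red_proof D (inv_mul_cancel₀ hx0) _ D.O.one_mem]
            exact map_one D.ρ
          rw [h3]
          exact S.inv_mem (ihx h1)
      | mul x y hx hy ihx ihy =>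
        intro h
        have h1 : x ∈ D.O := hO x hx
        have h2 : y ∈ D.O := hO y hy
        rw [red_mul D h1 h2]
        exact mul_mem (ihx h1) (ihy h2)
    exact key a ha h
  · intro P hP
    obtain ⟨h, h2⟩ := red_aeval D hC z hz P
    rw [hP] at h2
    refine hinj _ ?_ h h2
    rw [aeval_def, eval₂_eq']
    exact sum_mem fun m _ => mul_mem ((ratioField z).algebraMap_mem _)
      (prod_mem fun i _ => pow_mem (hzK i) _)

end dv

end

end Pool.Agent.Y201.LI
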