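import Mathlib
import Pool.Agent.TH314.PD.Core
import Pool.Agent.Y201.C3.Tri

/-! # Project LI, sixth part: sections in arbitrary small subvarieties (statements) -/

set_option autoImplicit false

namespace Pool.Agent.Y201.LI

open MvPolynomial Pool.Agent.TH314.PD IntermediateField Module Pool.Agent.Y201.C3

noncomputable section

/-- the linear forms `h i` have no common nonzero complex zero on the cone of `lam` -/
def Misses {r k : ℕ} {M : Type} [Field M] [Algebra ℂ M] (lam : Fin r → M)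
    (h : Fin k → Fin r → ℂ) : Prop :=
  ∀ η : Fin r → ℂ,
    (∀ (e : ℕ) (H : MvPolynomial (Fin r) ℂ), H.IsHomogeneous e → aeval lam H = 0 →
      eval η H = 0) →
    (∀ i, ∑ j, h i j * η j = 0) → η = 0

/-- job NOETH: linear Noether normalization -/
def S_NOETH : Prop :=
  ∀ (r : ℕ) (M : Type) [Field M] [Algebra ℂ M] (lam : Fin r → M), lam ≠ 0 →
    ∀ k : ℕ, Algebra.trdeg ℂ (ratioField lam) = k →
    ∃ h : Fin (k + 1) → Fin r → ℂ, Misses lam h

/-- job RK3: existence of the point `η` -/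
def S_RK3 : Prop :=
  ∀ (r : ℕ) (T : Fin r → Fin r → Fin r → ℂ), SymG T →
    ∀ (M : Type) [Field M] [Algebra ℂ M] (lam : Fin r → M) (k : ℕ) (h : Fin k → Fin r → ℂ),
      Misses lam h →
      finrank ℂ (Submodule.span ℂ {z : M | ∃ i j, z = lam i * lam j}) + k + 1 ≤ r →
      ∃ (η : Fin r → ℂ) (l₀ : ℂ) (c : Fin r → ℂ),
        Bg T η η η = l₀ ^ 2 ∧
        3 * Bg T (fun i => algebraMap ℂ M (η i)) (fun i => algebraMap ℂ M (η i)) lam =
          2 * algebraMap ℂ M l₀ * ∑ i, algebraMap ℂ M (c i) * lam i ∧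
        3 * Bg T (fun i => algebraMap ℂ M (η i)) lam lam =
          (∑ i, algebraMap ℂ M (c i) * lam i) ^ 2 ∧
        ∃ (e : ℕ) (H : MvPolynomial (Fin r) ℂ), H.IsHomogeneous e ∧ aeval lam H = 0 ∧
          eval η H ≠ 0

end

end Pool.Agent.Y201.LI
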