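import Mathlib
import Pool.Agent.Y201.LI.GenA
import Pool.Agent.Y201.LI.Fam
import Pool.Agent.Y201.LI.CoreW
import Pool.Agent.Y201.LI.Stm6
import Pool.Agent.Y624.LI.Odd
import Pool.Agent.Y523.LI.Lam2
import Pool.Agent.Y768.LI.Fld
import Pool.Agent.TH314.PD.Hilb

/-! # Project LI, sixth part: sections in arbitrary small subvarieties, assembly -/

set_option autoImplicit false

namespace Pool.Agent.Y201.LI

open MvPolynomial Pool.Agent.TH314.PD IntermediateField Module Pool.Agent.Y201.C3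

noncomputable section

theorem hlam2 : S_LAM2 := Pool.Agent.Y523.LI.lam2 hlam Pool.Agent.Y220.LI.ext

theorem gen2 {r : ℕ} (hr : 2 ≤ r) {F : MvPolynomial (Fin r) ℂ} (hF : F.IsHomogeneous 3)
    (hsm : ∀ z : Fin r → ℂ, (∀ i, eval z (pderiv i F) = 0) → z = 0)
    {T : Fin r → Fin r → Fin r → ℂ} (hT : SymG T) (hFT : F = Bg T X X X)
    {N : Type} [Field N] [Algebra ℂ N] (z : Fin r → N)
    (hz : ∀ (e : ℕ) (H : MvPolynomial (Fin r) ℂ), H.IsHomogeneous e → aeval z H = 0 → H = 0)
    (ho : Odd (finrank (ratioField z) N)) (lm : Fin r → N) (hlm : lm ≠ 0)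
    (η : Fin r → ℂ) (l₀ : ℂ) (c : Fin r → ℂ) (k1 : Bg T η η η = l₀ ^ 2)
    (k2 : 3 * Bg T (fun i => algebraMap ℂ N (η i)) (fun i => algebraMap ℂ N (η i)) lm =
      2 * algebraMap ℂ N l₀ * ∑ i, algebraMap ℂ N (c i) * lm i)
    (k3 : 3 * Bg T (fun i => algebraMap ℂ N (η i)) lm lm =
      (∑ i, algebraMap ℂ N (c i) * lm i) ^ 2)
    (e : ℕ) (G : MvPolynomial (Fin r) ℂ) (hG : G.IsHomogeneous e) (hGl : aeval lm G = 0)
    (hGη : eval η G ≠ 0) (hη0 : η ≠ 0)
    (h1 : aeval (fun i => z i + lm i) F = 0) (h2 : aeval lm F = 0) : False := by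
  classical
  have hev : ∀ {R' : Type} [CommRing R'] [Algebra ℂ R'] (z : Fin r → R'),
      aeval z F = Bg T z z z := by
    intro R' _ _ z
    rw [hFT, aeval_frmG]
  obtain ⟨i₀, hi₀⟩ : ∃ i₀, η i₀ ≠ 0 := by
    by_contra hcon
    push Not at hcon
    exact hη0 (funext hcon)
  obtain ⟨i₁, hi₁⟩ : ∃ i₁ : Fin r, i₁ ≠ i₀ := by
    by_contra hcon
    push Not at hcon
    have h3 := hcon ⟨0, by omega⟩
    have h4 := hcon ⟨1, by omega⟩
    rw [← h4] at h3
    simp at h3
  have hzi : z i₀ ≠ 0 := by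
    intro h
    have h3 := hz 1 (X i₀) (isHomogeneous_X _ _) (by rw [aeval_X]; exact h)
    exact X_ne_zero i₀ h3
  have hηN : algebraMap ℂ N (η i₀) ≠ 0 := (_root_.map_ne_zero _).2 hi₀
  set s : N := algebraMap ℂ N (η i₀) * z i₁ / z i₀ - algebraMap ℂ N (η i₁) with hs
  have hs0 : s ≠ 0 := by
    intro h
    have h3 := hz 1 (C (η i₀) * X i₁ - C (η i₁) * X i₀)
      (((isHomogeneous_C _ _).mul (isHomogeneous_X _ _)).sub
        ((isHomogeneous_C _ _).mul (isHomogeneous_X _ _))) (by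
        rw [map_sub, map_mul, map_mul, aeval_C, aeval_C, aeval_X, aeval_X]
        rw [hs, sub_eq_zero, div_eq_iff hzi] at h
        rw [h, sub_self])
    have h4 := congrArg (eval (Pi.single i₁ (1 : ℂ))) h3
    simp [Ne.symm hi₁] at h4
    exact hi₀ h4
  set z₁ : Fin r → N := fun i =>
    (algebraMap ℂ N (η i₀) * z i / z i₀ - algebraMap ℂ N (η i)) / s with hz₁
  have hsz : ∀ i, s * z₁ i = algebraMap ℂ N (η i₀) * z i / z i₀ - algebraMap ℂ N (η i) :=
    fun i => mul_div_cancel₀ _ hs0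
  obtain ⟨-, e0, e1, e2, e3, e4⟩ :=
    Pool.Agent.Y768.LI.fld r η i₀ i₁ hi₀ hi₁ N z hz s z₁ hs hsz
  obtain ⟨κ, _, _, D, κ₁, d1, d2, d3, d4, d5⟩ :=
    Pool.Agent.Y624.LI.odd N (ratioField z₁) s e3 (by rw [e4]; exact ho)
  obtain ⟨hzO, f1, f2⟩ := red_ratio D z₁ i₁ e1 κ₁ d3 d4
  have hC : ∀ c : ℂ, algebraMap ℂ N c ∈ D.O := fun c =>
    (d3 _ ((ratioField z₁).algebraMap_mem c)).1
  -- scaling
  set α : N := algebraMap ℂ N (η i₀) / z i₀ with hα
  have hα0 : α ≠ 0 := div_ne_zero hηN hzi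
  have hαc : (fun a => α * lm a) ≠ 0 := by
    intro h
    apply hlm
    funext a
    have := congrFun h a
    exact (mul_eq_zero.1 this).resolve_left hα0
  obtain ⟨τ, lam, j₀, hlamO, g2, g3⟩ := normalise D (fun a => α * lm a) hαc
  have hτ0 : τ ≠ 0 := by
    intro h
    apply hαc
    funext a
    have := g3 a
    rw [h, zero_mul] at this
    exact this
  have hvec : (fun i => α * lm i) = fun i => τ * lam i := funext g3
  set lN : N := ∑ i, algebraMap ℂ N (c i) * lam i with hlN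
  have hlNO : lN ∈ D.O := sum_mem fun a _ => mul_mem (hC _) (hlamO a)
  have hsum : α * ∑ i, algebraMap ℂ N (c i) * lm i = τ * lN := by
    rw [hlN, Finset.mul_sum, Finset.mul_sum]
    refine Finset.sum_congr rfl fun i _ => ?_
    linear_combination (algebraMap ℂ N (c i)) * g3 i
  have q2 : 3 * Bg T (fun i => algebraMap ℂ N (η i)) (fun i => algebraMap ℂ N (η i)) lam =
      2 * algebraMap ℂ N l₀ * lN := by
    have h3 := congrArg (fun v => Bg T (fun i => algebraMap ℂ N (η i))
      (fun i => algebraMap ℂ N (η i)) v) hvec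
    simp only [Bg_smul3] at h3
    apply mul_left_cancel₀ hτ0
    linear_combination (-3 : N) * h3 + α * k2 + (2 * algebraMap ℂ N l₀) * hsum
  have q3 : 3 * Bg T (fun i => algebraMap ℂ N (η i)) lam lam = lN ^ 2 := by
    have h3 := congrArg (fun v => Bg T (fun i => algebraMap ℂ N (η i)) v v) hvec
    simp only [Bg_smul2, Bg_smul3] at h3
    apply mul_left_cancel₀ (pow_ne_zero 2 hτ0)
    linear_combination (-3 : N) * h3 + α ^ 2 * k3 +
      (α * ∑ i, algebraMap ℂ N (c i) * lm i + τ * lN) * hsum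
  -- the equation of `lam`
  set w : Fin r → N := fun i => algebraMap ℂ N (η i) + s * z₁ i with hw
  have hwz : ∀ i, w i = α * z i := by
    intro i
    rw [hw]
    change algebraMap ℂ N (η i) + s * z₁ i = _
    rw [hsz i, hα]
    field_simp
    ring
  have r1 : Bg T (fun i => 1 * w i + τ * lam i) (fun i => 1 * w i + τ * lam i)
      (fun i => 1 * w i + τ * lam i) = 0 := by
    have h3 : (fun i => 1 * w i + τ * lam i) = fun i => α * (z i + lm i) := by
      funext i
      rw [one_mul, hwz, ← g3 i, mul_add]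
    rw [h3, Bg_smul1, Bg_smul2, Bg_smul3, ← hev, h1]
    ring
  have r2 : τ ^ 3 * Bg T lam lam lam = 0 := by
    have h3 : Bg T (fun i => τ * lam i) (fun i => τ * lam i) (fun i => τ * lam i) = 0 := by
      rw [← hvec, Bg_smul1, Bg_smul2, Bg_smul3, ← hev, h2]
      ring
    rw [Bg_smul1, Bg_smul2, Bg_smul3] at h3
    linear_combination h3
  rw [Bg_cube hT] at r1
  -- the relation `G`
  have hGlam : aeval lam G = 0 := by
    have h3 : α ^ e * aeval lm G = τ ^ e * aeval lam G := by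
      rw [← aeval_smul_form hG, ← aeval_smul_form hG, hvec]
    rw [hGl, mul_zero] at h3
    exact (mul_eq_zero.1 h3.symm).resolve_left (pow_ne_zero e hτ0)
  have hG0 : aeval (fun i => D.ρ ⟨lam i, hlamO i⟩) G = 0 := by
    obtain ⟨h3, h4⟩ := red_aeval D hC lam hlamO G
    rw [← h4, red_proof D hGlam h3 D.O.zero_mem]
    exact map_zero D.ρ
  refine CoreW.core N κ D r T hT η l₀ z₁ lam lN s (6 * τ * Bg T w lam lam + 3 * Bg T w w lam) hzO
    hlamO hlNO hs0 d1 d2 k1 q2 q3 ?_ ?_
  · change _ = 9 * Bg T w w lam ^ 2 - 12 * Bg T w w w * Bg T w lam lam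
    linear_combination (12 * Bg T w lam lam) * r1 - (12 * Bg T w lam lam) * r2
  · intro a b hab hηy hζy
    set y : Fin r → κ := fun i => a * algebraMap ℂ κ (η i) + b * D.ρ ⟨lam i, hlamO i⟩ with hy
    have hρ1 : D.ρ ⟨lam j₀, hlamO j₀⟩ = 1 := by
      rw [red_proof D g2 (hlamO j₀) D.O.one_mem]
      exact map_one D.ρ
    have hy0 : y ≠ 0 := by
      intro h
      have hyi : ∀ i, a * algebraMap ℂ κ (η i) + b * D.ρ ⟨lam i, hlamO i⟩ = 0 := fun i =>
        congrFun h i
      by_cases hb : b = 0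
      · have ha : a ≠ 0 := hab.resolve_right (fun h => h hb)
        have h3 := hyi i₀
        rw [hb, zero_mul, add_zero] at h3
        exact hi₀ ((_root_.map_eq_zero _).1 ((mul_eq_zero.1 h3).resolve_left ha))
      · have h3 : (fun i => D.ρ ⟨lam i, hlamO i⟩) = fun i => (-a / b) * algebraMap ℂ κ (η i) := by
          funext i
          have h4 := hyi i
          field_simp
          linear_combination h4
        have h4 : (-a / b) ≠ 0 := by
          intro h5
          have h6 := congrFun h3 j₀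
          rw [h5, zero_mul, hρ1] at h6
          exact one_ne_zero h6
        rw [h3, aeval_smul_form hG] at hG0
        have h5 := (mul_eq_zero.1 hG0).resolve_left (pow_ne_zero e h4)
        apply hGη
        have h6 : aeval (fun i => algebraMap ℂ κ (η i)) G = algebraMap ℂ κ (eval η G) := by
          rw [← MvPolynomial.coe_aeval_eq_eval]
          exact aeval_algebraMap_apply κ η G
        rw [h6] at h5
        exact (_root_.map_eq_zero _).1 h5
    have h3 := hlam2 r 3 F hF (by norm_num) hsm η i₀ i₁ hi₀ hi₁ κ (fun i => D.ρ ⟨z₁ i, hzO i⟩)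
      (by
        rw [red_proof D e0 (hzO i₀) D.O.zero_mem]
        exact map_zero D.ρ)
      (by
        rw [red_proof D e1 (hzO i₁) D.O.one_mem]
        exact map_one D.ρ)
      (fun e H hH h0 => e2 e H hH (f2 H h0)) y hy0
      (by rw [sum_pderiv hT hFT, hζy, mul_zero])
      (by rw [sum_pderiv hT hFT, hηy, mul_zero])
    rw [f1] at h3
    rcases d5 with ⟨k, hk⟩
    omega

end

end Pool.Agent.Y201.LI
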