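import Mathlib
import Pool.Agent.Y201.LI.GenD

/-! # Project LI, sixth part: sections in arbitrary small subvarieties, families of conics -/

set_option autoImplicit false

namespace Pool.Agent.Y201.LI

open MvPolynomial Pool.Agent.TH314.PD IntermediateField Module Pool.Agent.Y201.C3

noncomputable section

theorem ne_zero_of_form {r : ℕ} {M : Type} [Field M] [Algebra ℂ M] (lam : Fin r → M)
    (η : Fin r → ℂ) (e : ℕ) (G : MvPolynomial (Fin r) ℂ) (hG : G.IsHomogeneous e)
    (hGl : aeval lam G = 0) (hGη : eval η G ≠ 0) : η ≠ 0 := by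
  intro h
  rcases Nat.eq_zero_or_pos e with he | he
  · subst he
    have h1 := hG.totalDegree_le
    rw [Nat.le_zero, totalDegree_eq_zero_iff_eq_C] at h1
    rw [h1, aeval_C, _root_.map_eq_zero] at hGl
    rw [hGl, C_0] at h1
    rw [h1, map_zero] at hGη
    exact hGη rfl
  · apply hGη
    have h1 := aeval_smul_form hG (0 : ℂ) η
    rw [zero_pow (by omega), zero_mul] at h1
    have h2 : (fun i => (0 : ℂ) * η i) = η := by
      funext i
      rw [h, zero_mul]
      rfl
    rw [h2] at h1
    rw [← MvPolynomial.coe_aeval_eq_eval]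
    exact h1

/-- the section of a family of conics of odd degree is in no small subvariety -/
theorem conic_dim (hno : S_NOETH) (hrk : S_RK3) {n : ℕ} {F : MvPolynomial (Fin (n + 2)) ℂ}
    {M : Type} [Field M] [Algebra ℂ M]
    (hF : F.IsHomogeneous 3)
    (hsm : ∀ z : Fin (n + 2) → ℂ, (∀ i, eval z (pderiv i F) = 0) → z = 0)
    (L : IntermediateField ℂ M) (t : M) (ht : Transcendental L t)
    (lam Q R : Fin (n + 2) → M) (hl : ∀ i, lam i ∈ L) (hQ : ∀ i, Q i ∈ L) (hR : ∀ i, R i ∈ L)
    (hx : aeval (fun i => t ^ 2 * lam i + t * Q i + R i) F = 0)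
    (hgen : ∀ (e : ℕ) (H : MvPolynomial (Fin (n + 2)) ℂ), H.IsHomogeneous e →
      aeval (fun i => t ^ 2 * lam i + t * Q i + R i) H = 0 → F ∣ H)
    (hodd : Odd (finrank (ratioField fun i => t ^ 2 * lam i + t * Q i + R i) M)) :
    (n : Cardinal) < finrank ℂ (Submodule.span ℂ {z : M | ∃ i j, z = lam i * lam j}) +
      Algebra.trdeg ℂ (ratioField lam) := by
  obtain ⟨hl0, hFl, hz, ho⟩ := conic_core hthree hF hsm L t ht lam Q R hl hQ hR hx hgen hodd
  by_contra hcon
  rw [not_lt] at hcon
  have hlt : Algebra.trdeg ℂ (ratioField lam) < Cardinal.aleph0 :=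
    lt_of_le_of_lt (le_add_self.trans hcon) Cardinal.natCast_lt_aleph0
  obtain ⟨k, hk⟩ := Cardinal.lt_aleph0.1 hlt
  rw [hk] at hcon
  have hcon' : finrank ℂ (Submodule.span ℂ {z : M | ∃ i j, z = lam i * lam j}) + k ≤ n := by
    exact_mod_cast hcon
  obtain ⟨T, hT, hFT⟩ := exists_tri F hF
  obtain ⟨h, hh⟩ := hno (n + 2) M lam hl0 k hk
  obtain ⟨η, l₀, c, k1, k2, k3, e, G, hG, hGl, hGη⟩ :=
    hrk (n + 2) T hT M lam (k + 1) h hh (by omega)
  let f : M →ₐ[ℂ] RatFunc M := IsScalarTower.toAlgHom ℂ M (RatFunc M)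
  have hf : ∀ m, f m = algebraMap M (RatFunc M) m := fun _ => rfl
  set lm : Fin (n + 2) → RatFunc M := fun i => - RatFunc.X * f (lam i) with hlm
  have hX : (- RatFunc.X : RatFunc M) ≠ 0 := neg_ne_zero.2 RatFunc.X_ne_zero
  have hlm0 : lm ≠ 0 := by
    intro h
    apply hl0
    funext i
    have h1 := congrFun h i
    exact (_root_.map_eq_zero _).1 ((mul_eq_zero.1 h1).resolve_left hX)
  have hη0 := ne_zero_of_form lam η e G hG hGl hGη
  have hfη : ∀ i, f (algebraMap ℂ M (η i)) = algebraMap ℂ (RatFunc M) (η i) := fun i =>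
    f.commutes _
  have hsum : ∑ i, algebraMap ℂ (RatFunc M) (c i) * lm i =
      - RatFunc.X * f (∑ i, algebraMap ℂ M (c i) * lam i) := by
    rw [map_sum, Finset.mul_sum]
    refine Finset.sum_congr rfl fun i _ => ?_
    rw [map_mul, f.commutes]
    ring
  have hFl' : aeval (fun i => f (lam i)) F = 0 := by
    have h3 := aeval_algebraMap_apply (RatFunc M) lam F
    rw [hFl, map_zero] at h3
    exact h3
  refine gen2 (by omega) hF hsm hT hFT (zz t lam Q R) hz ho lm hlm0 η l₀ c k1 ?_ ?_ e G hG ?_ hGη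
    hη0 ?_ ?_
  · rw [hsum, hlm, Bg_smul3]
    have h4 := congrArg f k2
    rw [map_mul, map_Bg, map_mul, map_mul, map_ofNat, map_ofNat, f.commutes] at h4
    simp only [hfη] at h4
    linear_combination (- RatFunc.X) * h4
  · rw [hsum, hlm, Bg_smul3, Bg_smul2]
    have h4 := congrArg f k3
    rw [map_mul, map_Bg, map_pow, map_ofNat] at h4
    simp only [hfη] at h4
    linear_combination (RatFunc.X ^ 2) * h4
  · rw [hlm, aeval_smul_form hG]
    have h3 := aeval_algebraMap_apply (RatFunc M) lam G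
    rw [hGl, map_zero] at h3
    have h4 : aeval (fun i => f (lam i)) G = 0 := h3
    rw [h4, mul_zero]
  · have h5 : (fun i => zz t lam Q R i + lm i) = fun i =>
        algebraMap M (RatFunc M) (t ^ 2 * lam i + t * Q i + R i) := by
      funext i
      rw [zz, hlm]
      change _ + - RatFunc.X * algebraMap M (RatFunc M) (lam i) = _
      ring
    rw [h5]
    have h3 := aeval_algebraMap_apply (RatFunc M) (fun i => t ^ 2 * lam i + t * Q i + R i) F
    rw [hx, map_zero] at h3
    exact h3
  · rw [hlm, aeval_smul_form hF, hFl', mul_zero]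

end

end Pool.Agent.Y201.LI
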