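import Mathlib
import Pool.Agent.Y201.LI.GenE
import Pool.Agent.Y454.LI.Noeth
import Pool.Agent.Y641.LI.Rk3

/-! # Project LI, sixth part: residual points of points in small subvarieties -/

set_option autoImplicit false

namespace Pool.Agent.Y201.LI

open MvPolynomial Pool.Agent.TH314.PD IntermediateField Module Pool.Agent.Y201.C3

noncomputable section

variable {n : ℕ} {F : MvPolynomial (Fin (n + 2)) ℂ} {M : Type} [Field M] [Algebra ℂ M]

/-- `dim V` plus the number of conditions imposed on quadrics by the closure `V` of `lam` -/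
def sz (lam : Fin (n + 2) → M) : Cardinal :=
  finrank ℂ (Submodule.span ℂ {z : M | ∃ i j, z = lam i * lam j}) +
    Algebra.trdeg ℂ (ratioField lam)

theorem one_le_fin {lam : Fin (n + 2) → M} (hl0 : lam ≠ 0) :
    1 ≤ finrank ℂ (Submodule.span ℂ {z : M | ∃ i j, z = lam i * lam j}) := by
  have hfin : ({z : M | ∃ i j, z = lam i * lam j}).Finite := by
    refine (Set.finite_range (fun p : Fin (n + 2) × Fin (n + 2) => lam p.1 * lam p.2)).subset ?_
    rintro _ ⟨i, j, rfl⟩
    exact ⟨(i, j), rfl⟩
  have : FiniteDimensional ℂ (Submodule.span ℂ {z : M | ∃ i j, z = lam i * lam j}) :=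
    FiniteDimensional.span_of_finite ℂ hfin
  obtain ⟨j, hj⟩ : ∃ j, lam j ≠ 0 := by
    by_contra hcon
    push Not at hcon
    exact hl0 (funext hcon)
  have hmem : lam j * lam j ∈ Submodule.span ℂ {z : M | ∃ i j, z = lam i * lam j} :=
    Submodule.subset_span ⟨j, j, rfl⟩
  have hnt : Nontrivial (Submodule.span ℂ {z : M | ∃ i j, z = lam i * lam j}) := by
    refine ⟨⟨lam j * lam j, hmem⟩, 0, fun h => ?_⟩
    exact mul_ne_zero hj hj (congrArg Subtype.val h)
  exact Module.finrank_pos

/-- a small point is not generic -/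
theorem nongen_of_size {d : ℕ} (hF : F.IsHomogeneous d) (hd : 1 ≤ d) (hF0 : F ≠ 0)
    (lam : Fin (n + 2) → M) (hl0 : lam ≠ 0) (hs : sz lam ≤ n) :
    ∃ (e : ℕ) (H : MvPolynomial (Fin (n + 2)) ℂ), H.IsHomogeneous e ∧ aeval lam H = 0 ∧
      ¬ F ∣ H := by
  by_contra hcon
  push Not at hcon
  obtain ⟨j, hj, hind⟩ := exists_indep' hF hd hF0 hcon
  have h1 : ∀ l : Fin n, lam (j.succAbove l.succ) / lam (j.succAbove 0) ∈ ratioField lam :=
    fun l => subset_adjoin ℂ _ ⟨_, _, rfl⟩
  have h2 : AlgebraicIndependent ℂ (fun l : Fin n => (⟨_, h1 l⟩ : ratioField lam)) := by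
    rw [← AlgHom.algebraicIndependent_iff (ratioField lam).val (ratioField lam).val.injective]
    exact hind
  have h3 := h2.lift_cardinalMk_le_trdeg
  simp only [Cardinal.mk_fin, Cardinal.lift_id] at h3
  have h4 : ((1 : ℕ) : Cardinal) ≤ (finrank ℂ (Submodule.span ℂ
      {z : M | ∃ i j, z = lam i * lam j}) : Cardinal) := by
    exact_mod_cast one_le_fin hl0
  have h5 := (add_le_add h4 h3).trans hs
  have h6 : 1 + n ≤ n := by exact_mod_cast h5
  omega

/-- a small point does not give an odd point on the line through it -/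
theorem no_small (hF : F.IsHomogeneous 3)
    (hsm : ∀ z : Fin (n + 2) → ℂ, (∀ i, eval z (pderiv i F) = 0) → z = 0)
    (x lam : Fin (n + 2) → M) (hx : aeval x F = 0) (hl0 : lam ≠ 0) (hFl : aeval lam F = 0)
    (hz : ∀ (e : ℕ) (H : MvPolynomial (Fin (n + 2)) ℂ), H.IsHomogeneous e →
      aeval (fun i => algebraMap M (RatFunc M) (x i) +
        RatFunc.X * algebraMap M (RatFunc M) (lam i)) H = 0 → H = 0)
    (ho : Odd (finrank (ratioField fun i => algebraMap M (RatFunc M) (x i) +
        RatFunc.X * algebraMap M (RatFunc M) (lam i)) (RatFunc M))) (hs : sz lam ≤ n) :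
    False := by
  have hcon := hs
  unfold sz at hcon
  have hlt : Algebra.trdeg ℂ (ratioField lam) < Cardinal.aleph0 :=
    lt_of_le_of_lt (le_add_self.trans hcon) Cardinal.natCast_lt_aleph0
  obtain ⟨k, hk⟩ := Cardinal.lt_aleph0.1 hlt
  rw [hk] at hcon
  have hcon' : finrank ℂ (Submodule.span ℂ {z : M | ∃ i j, z = lam i * lam j}) + k ≤ n := by
    exact_mod_cast hcon
  obtain ⟨T, hT, hFT⟩ := exists_tri F hF
  obtain ⟨h, hh⟩ := Pool.Agent.Y454.LI.noeth (n + 2) M lam hl0 k hk
  obtain ⟨η, l₀, c, k1, k2, k3, e, G, hG, hGl, hGη⟩ :=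
    Pool.Agent.Y641.LI.rk3 (n + 2) T hT M lam (k + 1) h hh (by omega)
  let f : M →ₐ[ℂ] RatFunc M := IsScalarTower.toAlgHom ℂ M (RatFunc M)
  have hf : ∀ m, f m = algebraMap M (RatFunc M) m := fun _ => rfl
  set lm : Fin (n + 2) → RatFunc M := fun i => - RatFunc.X * f (lam i) with hlm
  have hX : (- RatFunc.X : RatFunc M) ≠ 0 := neg_ne_zero.2 RatFunc.X_ne_zero
  have hlm0 : lm ≠ 0 := by
    intro h
    apply hl0
    funext i
    have h1 := congrFun h i
    exact (_root_.map_eq_zero _).1 ((mul_eq_zero.1 h1).resolve_left hX)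
  have hη0 := ne_zero_of_form lam η e G hG hGl hGη
  have hfη : ∀ i, f (algebraMap ℂ M (η i)) = algebraMap ℂ (RatFunc M) (η i) := fun i =>
    f.commutes _
  have hsum : ∑ i, algebraMap ℂ (RatFunc M) (c i) * lm i =
      - RatFunc.X * f (∑ i, algebraMap ℂ M (c i) * lam i) := by
    rw [map_sum, Finset.mul_sum]
    refine Finset.sum_congr rfl fun i _ => ?_
    rw [map_mul, f.commutes]
    ring
  have hFl' : aeval (fun i => f (lam i)) F = 0 := by
    have h3 := aeval_algebraMap_apply (RatFunc M) lam F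
    rw [hFl, map_zero] at h3
    exact h3
  refine gen2 (by omega) hF hsm hT hFT _ hz ho lm hlm0 η l₀ c k1 ?_ ?_ e G hG ?_ hGη
    hη0 ?_ ?_
  · rw [hsum, hlm, Bg_smul3]
    have h4 := congrArg f k2
    rw [map_mul, map_Bg, map_mul, map_mul, map_ofNat, map_ofNat, f.commutes] at h4
    simp only [hfη] at h4
    linear_combination (- RatFunc.X) * h4
  · rw [hsum, hlm, Bg_smul3, Bg_smul2]
    have h4 := congrArg f k3
    rw [map_mul, map_Bg, map_pow, map_ofNat] at h4
    simp only [hfη] at h4
    linear_combination (RatFunc.X ^ 2) * h4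
  · rw [hlm, aeval_smul_form hG]
    have h3 := aeval_algebraMap_apply (RatFunc M) lam G
    rw [hGl, map_zero] at h3
    have h4 : aeval (fun i => f (lam i)) G = 0 := h3
    rw [h4, mul_zero]
  · have h5 : (fun i => algebraMap M (RatFunc M) (x i) +
        RatFunc.X * algebraMap M (RatFunc M) (lam i) + lm i) = fun i =>
        algebraMap M (RatFunc M) (x i) := by
      funext i
      rw [hlm]
      change _ + - RatFunc.X * algebraMap M (RatFunc M) (lam i) = _
      ring
    rw [h5]
    have h3 := aeval_algebraMap_apply (RatFunc M) x F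
    rw [hx, map_zero] at h3
    exact h3
  · rw [hlm, aeval_smul_form hF, hFl', mul_zero]

section line

variable (hF : F.IsHomogeneous 3)
    (hsm : ∀ z : Fin (n + 2) → ℂ, (∀ i, eval z (pderiv i F) = 0) → z = 0)
    (x lam : Fin (n + 2) → M) (hx : aeval x F = 0)
    (hgen : ∀ (e : ℕ) (H : MvPolynomial (Fin (n + 2)) ℂ), H.IsHomogeneous e → aeval x H = 0 →
      F ∣ H)
    (hodd : Odd (finrank (ratioField x) M)) (hl0 : lam ≠ 0) (hFl : aeval lam F = 0)
    (hnon : ∃ (e : ℕ) (H : MvPolynomial (Fin (n + 2)) ℂ), H.IsHomogeneous e ∧ aeval lam H = 0 ∧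
      ¬ F ∣ H)

include hF hsm hx hgen hodd hl0 hFl hnon

/-- the points of the line through `x` and `lam` -/
theorem line_case (P : Prop)
    (h0 : ∑ i, lam i * aeval x (pderiv i F) = 0 → ∑ i, x i * aeval lam (pderiv i F) ≠ 0 → P)
    (h1 : (∀ (e : ℕ) (H : MvPolynomial (Fin (n + 2)) ℂ), H.IsHomogeneous e →
        aeval (fun i => algebraMap M (RatFunc M) (x i) +
          RatFunc.X * algebraMap M (RatFunc M) (lam i)) H = 0 → H = 0) →
      Odd (finrank (ratioField fun i => algebraMap M (RatFunc M) (x i) +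
          RatFunc.X * algebraMap M (RatFunc M) (lam i)) (RatFunc M)) → P)
    (h2 : ∑ i, x i * aeval lam (pderiv i F) ≠ 0 →
      ¬ Even (finrank (ratioField fun i => (∑ k, x k * aeval lam (pderiv k F)) * x i -
        (∑ k, lam k * aeval x (pderiv k F)) * lam i) M) → P) : P := by
  classical
  have hF0 : F ≠ 0 := ne_zero_of_smooth hsm
  have hirr := irreducible_of_generic hF hF0 x hx hgen
  obtain ⟨T, hT, hFT⟩ := exists_tri F hF
  have hev : ∀ {R' : Type} [CommRing R'] [Algebra ℂ R'] (z : Fin (n + 2) → R'),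
      aeval z F = Bg T z z z := by
    intro R' _ _ z
    rw [hFT, aeval_frmG]
  have hind : LinearIndependent M ![x, lam] := by
    rw [LinearIndependent.pair_symm_iff, LinearIndependent.pair_iff' hl0]
    intro a ha
    obtain ⟨e, H, hH, hHl, hnd⟩ := hnon
    apply hnd
    apply hgen e H hH
    have h3 : x = fun i => a * lam i := by
      rw [← ha]
      rfl
    rw [h3, aeval_smul_form hH, hHl, mul_zero]
  have hAeq : ∑ i, lam i * aeval x (pderiv i F) = 3 * Bg T x x lam := by
    rw [sum_pderiv hT hFT, Bg_swap12 hT lam x x, Bg_swap23 hT x lam x]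
  have hBeq : ∑ i, x i * aeval lam (pderiv i F) = 3 * Bg T x lam lam := sum_pderiv hT hFT x lam
  have hBC : ∀ u v w : Fin (n + 2) → M, Bg T (fun i => Polynomial.C (u i))
      (fun i => Polynomial.C (v i)) (fun i => Polynomial.C (w i)) = Polynomial.C (Bg T u v w) :=
    fun u v w => (map_Bg (IsScalarTower.toAlgHom ℂ M (Polynomial M)) T u v w).symm
  have hxxx : Bg T x x x = 0 := by rw [← hev]; exact hx
  have hlll : Bg T lam lam lam = 0 := by rw [← hev]; exact hFl
  set A : M := ∑ i, lam i * aeval x (pderiv i F) with hA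
  set B : M := ∑ i, x i * aeval lam (pderiv i F) with hB
  have hpoly : (aeval (fun i => Polynomial.C (x i) + Polynomial.X * Polynomial.C (lam i)) F :
      Polynomial M) = Polynomial.X * Polynomial.C A + Polynomial.X ^ 2 * Polynomial.C B := by
    have h1 := Bg_cube hT (1 : Polynomial M) Polynomial.X (fun i => Polynomial.C (x i))
      (fun i => Polynomial.C (lam i))
    simp only [one_mul, hBC, hxxx, hlll] at h1
    rw [hev, h1, hAeq, hBeq, Polynomial.C_mul, Polynomial.C_mul]
    have h3 : (Polynomial.C (3 : M)) = 3 := by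
      rw [← Polynomial.C_ofNat]
    rw [h3, Polynomial.C_0]
    ring
  by_cases hA0 : A = 0
  · apply h0 hA0
    intro hB0
    have h3 := contact hF (by norm_num) hsm x hx hgen lam hind 0 (by
      rw [hpoly, hA0, hB0]
      simp)
    rcases hodd with ⟨k, hk⟩
    omega
  · by_cases hcase : B ≠ 0 → Even (finrank (ratioField fun i => B * x i - A * lam i) M)
    · obtain ⟨e1, e2⟩ := hthree (n + 2) F hF hirr hsm M (RatFunc M) x lam RatFunc.X hx hgen hodd
        hnon RatFunc.transcendental_X RatFunc.adjoin_X A B hA0 hpoly hcase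
      exact h1 e1 e2
    · push Not at hcase
      exact h2 hcase.1 (by rw [Nat.not_even_iff_odd]; exact (Nat.not_even_iff_odd.1 hcase.2))

/-- the tangent hyperplane of `lam` does not contain `x` -/
theorem tangent_point : ∑ i, x i * aeval lam (pderiv i F) ≠ 0 := by
  refine line_case hF hsm x lam hx hgen hodd hl0 hFl hnon _ (fun _ h => h) ?_ (fun h _ => h)
  intro hz ho hsum
  set y : Fin (n + 2) → RatFunc M := fun i => algebraMap M (RatFunc M) (lam i) with hy
  have hay : ∀ P : MvPolynomial (Fin (n + 2)) ℂ, aeval y P =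
      algebraMap M (RatFunc M) (aeval lam P) := fun P => aeval_algebraMap_apply (RatFunc M) lam P
  have hy0 : y ≠ 0 := by
    intro h
    apply hl0
    funext i
    have h1 := congrFun h i
    rw [hy, Pi.zero_apply] at h1
    exact (_root_.map_eq_zero _).1 h1
  have hE : ∑ i, lam i * aeval lam (pderiv i F) = 0 := by
    have h1 := congrArg (aeval lam) hF.sum_X_mul_pderiv
    rw [map_sum, map_nsmul, hFl, smul_zero] at h1
    simp only [map_mul, aeval_X] at h1
    exact h1
  have h1 := hlam (n + 2) 3 F hF (by norm_num) hsm (RatFunc M) _ hz y hy0 (by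
    have h3 : ∀ i, (algebraMap M (RatFunc M) (x i) + RatFunc.X * algebraMap M (RatFunc M) (lam i)) *
        aeval y (pderiv i F) = algebraMap M (RatFunc M) (x i * aeval lam (pderiv i F)) +
        RatFunc.X * algebraMap M (RatFunc M) (lam i * aeval lam (pderiv i F)) := by
      intro i
      rw [hay, map_mul, map_mul]
      ring
    rw [Finset.sum_congr rfl (fun i _ => h3 i), Finset.sum_add_distrib, ← map_sum, hsum,
      ← Finset.mul_sum, ← map_sum, hE, map_zero, mul_zero, add_zero])
  rcases ho with ⟨a, ha⟩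
  omega

/-- the residual point of a small point has odd degree -/
theorem residual_odd (hobs : (∀ (e : ℕ) (H : MvPolynomial (Fin (n + 2)) ℂ), H.IsHomogeneous e →
        aeval (fun i => algebraMap M (RatFunc M) (x i) +
          RatFunc.X * algebraMap M (RatFunc M) (lam i)) H = 0 → H = 0) →
      Odd (finrank (ratioField fun i => algebraMap M (RatFunc M) (x i) +
          RatFunc.X * algebraMap M (RatFunc M) (lam i)) (RatFunc M)) → False) :
    Odd (finrank (ratioField fun i => (∑ k, x k * aeval lam (pderiv k F)) * x i -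
        (∑ k, lam k * aeval x (pderiv k F)) * lam i) M) := by
  refine line_case hF hsm x lam hx hgen hodd hl0 hFl hnon _ ?_ ?_ ?_
  · intro hA0 hB0
    have h1 : (fun i => (∑ k, x k * aeval lam (pderiv k F)) * x i -
        (∑ k, lam k * aeval x (pderiv k F)) * lam i) =
        fun i => (∑ k, x k * aeval lam (pderiv k F)) * x i := by
      funext i
      rw [hA0, zero_mul, sub_zero]
    have h2 : ratioField (fun i => (∑ k, x k * aeval lam (pderiv k F)) * x i) = ratioField x := by
      unfold ratioField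
      congr 1
      ext z
      constructor
      · rintro ⟨i, j, rfl⟩
        exact ⟨i, j, mul_div_mul_left _ _ hB0⟩
      · rintro ⟨i, j, rfl⟩
        exact ⟨i, j, (mul_div_mul_left _ _ hB0).symm⟩
    rw [h1, h2]
    exact hodd
  · intro hz ho
    exact (hobs hz ho).elim
  · intro _ h
    exact Nat.not_even_iff_odd.1 h

end line

/-- the third point of the line through a small point is an odd generic point -/
theorem third_point (hF : F.IsHomogeneous 3)
    (hsm : ∀ z : Fin (n + 2) → ℂ, (∀ i, eval z (pderiv i F) = 0) → z = 0)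
    (x lam : Fin (n + 2) → M) (hx : aeval x F = 0)
    (hgen : ∀ (e : ℕ) (H : MvPolynomial (Fin (n + 2)) ℂ), H.IsHomogeneous e → aeval x H = 0 →
      F ∣ H)
    (hodd : Odd (finrank (ratioField x) M)) (hl0 : lam ≠ 0) (hFl : aeval lam F = 0)
    (hnl : ∃ (e : ℕ) (H : MvPolynomial (Fin (n + 2)) ℂ), H.IsHomogeneous e ∧ aeval lam H = 0 ∧
      ¬ F ∣ H)
    (hobs : (∀ (e : ℕ) (H : MvPolynomial (Fin (n + 2)) ℂ), H.IsHomogeneous e →
        aeval (fun i => algebraMap M (RatFunc M) (x i) +
          RatFunc.X * algebraMap M (RatFunc M) (lam i)) H = 0 → H = 0) →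
      Odd (finrank (ratioField fun i => algebraMap M (RatFunc M) (x i) +
          RatFunc.X * algebraMap M (RatFunc M) (lam i)) (RatFunc M)) → False) :
    aeval (fun i => (∑ k, x k * aeval lam (pderiv k F)) * x i -
        (∑ k, lam k * aeval x (pderiv k F)) * lam i) F = 0 ∧
    (∀ (e : ℕ) (H : MvPolynomial (Fin (n + 2)) ℂ), H.IsHomogeneous e →
      aeval (fun i => (∑ k, x k * aeval lam (pderiv k F)) * x i -
        (∑ k, lam k * aeval x (pderiv k F)) * lam i) H = 0 → F ∣ H) ∧
    Odd (finrank (ratioField fun i => (∑ k, x k * aeval lam (pderiv k F)) * x i -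
        (∑ k, lam k * aeval x (pderiv k F)) * lam i) M) := by
  classical
  have hF0 : F ≠ 0 := ne_zero_of_smooth hsm
  have hirr := irreducible_of_generic hF hF0 x hx hgen
  have hB := tangent_point hF hsm x lam hx hgen hodd hl0 hFl hnl
  have hO := residual_odd hF hsm x lam hx hgen hodd hl0 hFl hnl hobs
  obtain ⟨T, hT, hFT⟩ := exists_tri F hF
  have hev : ∀ {R' : Type} [CommRing R'] [Algebra ℂ R'] (z : Fin (n + 2) → R'),
      aeval z F = Bg T z z z := by
    intro R' _ _ z
    rw [hFT, aeval_frmG]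
  have hAeq : ∑ i, lam i * aeval x (pderiv i F) = 3 * Bg T x x lam := by
    rw [sum_pderiv hT hFT, Bg_swap12 hT lam x x, Bg_swap23 hT x lam x]
  have hBeq : ∑ i, x i * aeval lam (pderiv i F) = 3 * Bg T x lam lam := sum_pderiv hT hFT x lam
  set A : M := ∑ i, lam i * aeval x (pderiv i F) with hA
  set B : M := ∑ i, x i * aeval lam (pderiv i F) with hBd
  have hF3 : aeval (fun i => B * x i - A * lam i) F = 0 := by
    have h1 := Bg_cube hT B (-A) x lam
    have h2 : (fun i => B * x i + -A * lam i) = fun i => B * x i - A * lam i := by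
      funext i
      ring
    rw [h2, ← hev, ← hev x, hx, ← hev lam, hFl] at h1
    rw [h1]
    linear_combination (A * B ^ 2) * hAeq - (A ^ 2 * B) * hBeq
  have hfd : FiniteDimensional (ratioField fun i => B * x i - A * lam i) M :=
    FiniteDimensional.of_finrank_pos hO.pos
  have halg : Algebra.IsAlgebraic (ratioField fun i => B * x i - A * lam i) M :=
    Algebra.IsAlgebraic.of_finite _ _
  have hfd' : FiniteDimensional (ratioField x) M := FiniteDimensional.of_finrank_pos hodd.pos
  have halg' : Algebra.IsAlgebraic (ratioField x) M := Algebra.IsAlgebraic.of_finite _ _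
  have htr := trdeg_generic hF (by norm_num) hF0 x hx hgen halg'
  obtain ⟨j, hj⟩ : ∃ j, B * x j - A * lam j ≠ 0 := by
    by_contra h3
    push Not at h3
    have h4 : x = fun i => (A / B) * lam i := by
      funext i
      have h5 := h3 i
      field_simp
      linear_combination h5
    obtain ⟨e, H, hH, hHl, hnd⟩ := hnl
    exact (hnd (hgen e H hH (by rw [h4, aeval_smul_form hH, hHl, mul_zero]))).elim
  exact ⟨hF3, generic_of_trdeg hF (by norm_num) hirr htr _ hF3 halg j hj, hO⟩

/-- secants: the third point of the line through a small point and a nongeneric point -/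
theorem secant (hF : F.IsHomogeneous 3)
    (hsm : ∀ z : Fin (n + 2) → ℂ, (∀ i, eval z (pderiv i F) = 0) → z = 0)
    (x lam mu : Fin (n + 2) → M) (hx : aeval x F = 0)
    (hgen : ∀ (e : ℕ) (H : MvPolynomial (Fin (n + 2)) ℂ), H.IsHomogeneous e → aeval x H = 0 →
      F ∣ H)
    (hodd : Odd (finrank (ratioField x) M)) (hl0 : lam ≠ 0) (hFl : aeval lam F = 0)
    (hFm : aeval mu F = 0)
    (hnon : ∃ (e : ℕ) (H : MvPolynomial (Fin (n + 2)) ℂ), H.IsHomogeneous e ∧ aeval mu H = 0 ∧
      ¬ F ∣ H)
    (hnl : ∃ (e : ℕ) (H : MvPolynomial (Fin (n + 2)) ℂ), H.IsHomogeneous e ∧ aeval lam H = 0 ∧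
      ¬ F ∣ H)
    (hobs : (∀ (e : ℕ) (H : MvPolynomial (Fin (n + 2)) ℂ), H.IsHomogeneous e →
        aeval (fun i => algebraMap M (RatFunc M) (x i) +
          RatFunc.X * algebraMap M (RatFunc M) (lam i)) H = 0 → H = 0) →
      Odd (finrank (ratioField fun i => algebraMap M (RatFunc M) (x i) +
          RatFunc.X * algebraMap M (RatFunc M) (lam i)) (RatFunc M)) → False)
    (a b : M) (hab : ∀ i, x i = a * lam i + b * mu i) : False := by
  classical
  have hF0 : F ≠ 0 := ne_zero_of_smooth hsm
  have hirr := irreducible_of_generic hF hF0 x hx hgen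
  have hB := tangent_point hF hsm x lam hx hgen hodd hl0 hFl hnl
  have hO := residual_odd hF hsm x lam hx hgen hodd hl0 hFl hnl hobs
  obtain ⟨T, hT, hFT⟩ := exists_tri F hF
  have hev : ∀ {R' : Type} [CommRing R'] [Algebra ℂ R'] (z : Fin (n + 2) → R'),
      aeval z F = Bg T z z z := by
    intro R' _ _ z
    rw [hFT, aeval_frmG]
  have hAeq : ∑ i, lam i * aeval x (pderiv i F) = 3 * Bg T x x lam := by
    rw [sum_pderiv hT hFT, Bg_swap12 hT lam x x, Bg_swap23 hT x lam x]
  have hBeq : ∑ i, x i * aeval lam (pderiv i F) = 3 * Bg T x lam lam := sum_pderiv hT hFT x lam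
  set A : M := ∑ i, lam i * aeval x (pderiv i F) with hA
  set B : M := ∑ i, x i * aeval lam (pderiv i F) with hBd
  have ha : a ≠ 0 := by
    intro h
    obtain ⟨e, H, hH, hHl, hnd⟩ := hnon
    apply hnd
    apply hgen e H hH
    have h3 : x = fun i => b * mu i := by
      funext i
      rw [hab i, h]
      ring
    rw [h3, aeval_smul_form hH, hHl, mul_zero]
  have hb : b ≠ 0 := by
    intro h
    obtain ⟨e, H, hH, hHl, hnd⟩ := hnl
    apply hnd
    apply hgen e H hH
    have h3 : x = fun i => a * lam i := by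
      funext i
      rw [hab i, h]
      ring
    rw [h3, aeval_smul_form hH, hHl, mul_zero]
  have hAB : A = a * B := by
    have h1 := Bg_cube hT 1 (-a) x lam
    have h2 : (fun i => 1 * x i + -a * lam i) = fun i => b * mu i := by
      funext i
      rw [hab i]
      ring
    rw [h2, ← hev, aeval_smul_form hF, hFm, ← hev x, hx, ← hev lam, hFl] at h1
    have h3 : a * (A - a * B) = 0 := by
      rw [hAeq, hBeq]
      linear_combination h1
    exact sub_eq_zero.1 ((mul_eq_zero.1 h3).resolve_left ha)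
  have hx' : (fun i => B * x i - A * lam i) = fun i => (B * b) * mu i := by
    funext i
    rw [hAB, hab i]
    ring
  rw [hx'] at hO
  have hBb : B * b ≠ 0 := mul_ne_zero hB hb
  have h2 : ratioField (fun i => (B * b) * mu i) = ratioField mu := by
    unfold ratioField
    congr 1
    ext z
    constructor
    · rintro ⟨i, j, rfl⟩
      exact ⟨i, j, mul_div_mul_left _ _ hBb⟩
    · rintro ⟨i, j, rfl⟩
      exact ⟨i, j, (mul_div_mul_left _ _ hBb).symm⟩
  rw [h2] at hO
  have hfd : FiniteDimensional (ratioField mu) M := FiniteDimensional.of_finrank_pos hO.pos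
  have halg : Algebra.IsAlgebraic (ratioField mu) M := Algebra.IsAlgebraic.of_finite _ _
  have hfd' : FiniteDimensional (ratioField x) M := FiniteDimensional.of_finrank_pos hodd.pos
  have halg' : Algebra.IsAlgebraic (ratioField x) M := Algebra.IsAlgebraic.of_finite _ _
  have htr := trdeg_generic hF (by norm_num) hF0 x hx hgen halg'
  obtain ⟨j, hj⟩ : ∃ j, mu j ≠ 0 := by
    by_contra h3
    push Not at h3
    apply ne_zero_of_smooth hsm
    have h4 : x = fun i => a * lam i := by
      funext i
      rw [hab i, h3 i]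
      ring
    obtain ⟨e, H, hH, hHl, hnd⟩ := hnl
    exact (hnd (hgen e H hH (by rw [h4, aeval_smul_form hH, hHl, mul_zero]))).elim
  obtain ⟨e, H, hH, hHl, hnd⟩ := hnon
  exact hnd (generic_of_trdeg hF (by norm_num) hirr htr mu hFm halg j hj e H hH hHl)

/-- points of a linear subspace of the hypersurface are not generic -/
theorem nongen_lin {d m : ℕ} (hF : F.IsHomogeneous d) (hd : 2 ≤ d) (hF0 : F ≠ 0)
    (p : Fin m → Fin (n + 2) → ℂ) (hpF : ∀ c : Fin m → ℂ, eval (∑ a, c a • p a) F = 0)
    (lam : Fin (n + 2) → M) (c : Fin m → M)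
    (hc : ∀ i, lam i = ∑ a, c a * algebraMap ℂ M (p a i)) :
    ∃ (e : ℕ) (H : MvPolynomial (Fin (n + 2)) ℂ), H.IsHomogeneous e ∧ aeval lam H = 0 ∧
      ¬ F ∣ H := by
  classical
  have hlt : Submodule.span ℂ (Set.range p) < ⊤ := by
    rw [lt_top_iff_ne_top]
    intro htop
    apply hF0
    apply MvPolynomial.funext
    intro v
    have hv : v ∈ Submodule.span ℂ (Set.range p) := by
      rw [htop]
      exact Submodule.mem_top
    obtain ⟨c', hc'⟩ := (Submodule.mem_span_range_iff_exists_fun ℂ).1 hv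
    rw [← hc', hpF, map_zero]
  obtain ⟨f, hf0, hf⟩ := Submodule.exists_le_ker_of_lt_top _ hlt
  have hfp : ∀ a, f (p a) = 0 := fun a => hf (Submodule.subset_span ⟨a, rfl⟩)
  have hfv : ∀ v : Fin (n + 2) → ℂ, f v = ∑ i, v i * f (Pi.single i 1) := by
    intro v
    conv_lhs => rw [← Finset.univ_sum_single v]
    rw [map_sum]
    refine Finset.sum_congr rfl fun i _ => ?_
    have : (Pi.single i (v i) : Fin (n + 2) → ℂ) = v i • Pi.single i 1 := by
      rw [← Pi.single_smul, smul_eq_mul, mul_one]
    rw [this, map_smul, smul_eq_mul]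
  set H : MvPolynomial (Fin (n + 2)) ℂ := ∑ i, C (f (Pi.single i 1)) * X i with hH
  have hH1 : H.IsHomogeneous 1 := by
    refine IsHomogeneous.sum _ _ _ fun i _ => ?_
    have := (isHomogeneous_C (Fin (n + 2)) (f (Pi.single i 1))).mul (isHomogeneous_X ℂ i)
    rwa [zero_add] at this
  have hH0 : H ≠ 0 := by
    intro h
    apply hf0
    apply LinearMap.ext
    intro v
    have h1 := congrArg (eval v) h
    rw [hH, map_sum, map_zero] at h1
    simp only [map_mul, eval_C, eval_X] at h1
    rw [hfv, LinearMap.zero_apply, ← h1]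
    exact Finset.sum_congr rfl fun i _ => mul_comm _ _
  refine ⟨1, H, hH1, ?_, ?_⟩
  · rw [hH, map_sum]
    simp only [map_mul, aeval_C, aeval_X]
    have h1 : ∀ i, algebraMap ℂ M (f (Pi.single i 1)) * lam i =
        ∑ a, c a * algebraMap ℂ M (p a i * f (Pi.single i 1)) := by
      intro i
      rw [hc i, Finset.mul_sum]
      refine Finset.sum_congr rfl fun a _ => ?_
      rw [map_mul]
      ring
    rw [Finset.sum_congr rfl fun i _ => h1 i, Finset.sum_comm]
    refine Finset.sum_eq_zero fun a _ => ?_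
    rw [← Finset.mul_sum, ← map_sum, ← hfv, hfp, map_zero, mul_zero]
  · rintro ⟨G, hG⟩
    have hG0 : G ≠ 0 := by
      rintro rfl
      exact hH0 (by rw [hG, mul_zero])
    have h1 := totalDegree_mul_of_isDomain hF0 hG0
    rw [← hG, hH1.totalDegree hH0, hF.totalDegree hF0] at h1
    omega

/-- a point of a linear subspace without section does not give an odd point on the line through
it -/
theorem no_lin {m : ℕ} (hF : F.IsHomogeneous 3)
    (hsm : ∀ z : Fin (n + 2) → ℂ, (∀ i, eval z (pderiv i F) = 0) → z = 0)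
    (x lam : Fin (n + 2) → M) (hx : aeval x F = 0)
    (p : Fin m → Fin (n + 2) → ℂ) (hp : LinearIndependent ℂ p)
    (hpF : ∀ c : Fin m → ℂ, eval (∑ a, c a • p a) F = 0) (hns : ¬ HasSection F p)
    (c : Fin m → M) (hc : ∀ i, lam i = ∑ a, c a * algebraMap ℂ M (p a i))
    (hz : ∀ (e : ℕ) (H : MvPolynomial (Fin (n + 2)) ℂ), H.IsHomogeneous e →
      aeval (fun i => algebraMap M (RatFunc M) (x i) +
        RatFunc.X * algebraMap M (RatFunc M) (lam i)) H = 0 → H = 0)
    (ho : Odd (finrank (ratioField fun i => algebraMap M (RatFunc M) (x i) +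
        RatFunc.X * algebraMap M (RatFunc M) (lam i)) (RatFunc M))) : False := by
  apply hns
  refine hsec (n + 2) m F hF hsm p hp hpF (RatFunc M) _ hz ho
    (fun a => - (RatFunc.X * algebraMap M (RatFunc M) (c a))) ?_
  have h1 : (fun i => algebraMap M (RatFunc M) (x i) +
      RatFunc.X * algebraMap M (RatFunc M) (lam i) +
      ∑ a, - (RatFunc.X * algebraMap M (RatFunc M) (c a)) *
      algebraMap ℂ (RatFunc M) (p a i)) = fun i => algebraMap M (RatFunc M) (x i) := by
    funext i
    have h2 : ∑ a, - (RatFunc.X * algebraMap M (RatFunc M) (c a)) *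
        algebraMap ℂ (RatFunc M) (p a i) = - (RatFunc.X * algebraMap M (RatFunc M) (lam i)) := by
      rw [hc i, map_sum, Finset.mul_sum, ← Finset.sum_neg_distrib]
      refine Finset.sum_congr rfl fun a _ => ?_
      rw [IsScalarTower.algebraMap_apply ℂ M (RatFunc M), map_mul]
      ring
    rw [h2]
    ring
  rw [h1]
  have h2 := aeval_algebraMap_apply (RatFunc M) x F
  rw [hx, map_zero] at h2
  exact h2

end

end Pool.Agent.Y201.LI
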