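import Mathlib
import Pool.Agent.Y201.LI.GenF

/-! # Secants from a section of the residual quadric fibration -/

set_option autoImplicit false

namespace Pool.Agent.Y201.LI

open MvPolynomial Pool.Agent.TH314.PD IntermediateField Module Pool.Agent.Y201.C3

noncomputable section

/-- dual functionals -/
theorem exists_dual {r m : ℕ} (p : Fin m → Fin r → ℂ) (hp : LinearIndependent ℂ p)
    (v₀ : Fin r → ℂ) (hv : v₀ ∉ Submodule.span ℂ (Set.range p)) :
    ∃ f : Fin m → Fin r → ℂ, (∀ a b, ∑ k, f a k * p b k = if a = b then 1 else 0) ∧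
      ∀ a, ∑ k, f a k * v₀ k = 0 := by
  classical
  have hind : LinearIndependent ℂ (Fin.cons v₀ p : Fin (m + 1) → Fin r → ℂ) :=
    linearIndependent_finCons.2 ⟨hp, hv⟩
  have hinj : LinearMap.ker (Fintype.linearCombination ℂ (Fin.cons v₀ p : Fin (m + 1) → Fin r → ℂ))
      = ⊥ := by
    rw [LinearMap.ker_eq_bot']
    intro c hc
    rw [Fintype.linearCombination_apply] at hc
    exact funext fun i => Fintype.linearIndependent_iff.1 hind c hc i
  obtain ⟨L, hL⟩ := LinearMap.exists_leftInverse_of_injective _ hinj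
  have hLe : ∀ a : Fin (m + 1), L ((Fin.cons v₀ p : Fin (m + 1) → Fin r → ℂ) a) =
      Pi.single a 1 := by
    intro a
    have h3 := congrArg (fun f => f (Pi.single a 1)) hL
    simp only [LinearMap.comp_apply, LinearMap.id_apply, Fintype.linearCombination_apply_single,
      one_smul] at h3
    exact h3
  have hsum : ∀ (v : Fin r → ℂ) (b : Fin (m + 1)), ∑ k, L (Pi.single k 1) b * v k = L v b := by
    intro v b
    have h4 : v = ∑ i, v i • (Pi.single i 1 : Fin r → ℂ) := by
      funext j
      rw [Finset.sum_apply]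
      simp [Pi.single_apply]
    conv_rhs => rw [h4, map_sum, Finset.sum_apply]
    refine Finset.sum_congr rfl fun k _ => ?_
    rw [map_smul, Pi.smul_apply, smul_eq_mul, mul_comm]
  refine ⟨fun a k => L (Pi.single k 1) a.succ, fun a b => ?_, fun a => ?_⟩
  · rw [hsum (p b) a.succ]
    have h1 := hLe b.succ
    rw [Fin.cons_succ] at h1
    rw [h1, Pi.single_apply]
    simp only [Fin.succ_inj]
  · rw [hsum v₀ a.succ]
    have h1 := hLe 0
    rw [Fin.cons_zero] at h1
    rw [h1, Pi.single_apply, if_neg (Fin.succ_ne_zero a)]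

/-- the span of the coordinates of the projection -/
theorem finrank_proj {r m : ℕ} (p f : Fin m → Fin r → ℂ)
    (hf : ∀ a b, ∑ k, f a k * p b k = if a = b then 1 else 0) {M : Type} [Field M] [Algebra ℂ M]
    (u : Fin r → M) (hu : ∀ a, ∑ k, algebraMap ℂ M (f a k) * u k = 0) :
    finrank ℂ (Submodule.span ℂ (Set.range u)) + m ≤ r := by
  classical
  let Φ : (Fin r → ℂ) →ₗ[ℂ] M := Fintype.linearCombination ℂ u
  have h1 : LinearMap.range Φ = Submodule.span ℂ (Set.range u) :=
    Fintype.range_linearCombination ℂ u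
  have h2 := LinearMap.finrank_range_add_finrank_ker Φ
  rw [h1, Module.finrank_fin_fun] at h2
  have hfi : LinearIndependent ℂ f := by
    rw [Fintype.linearIndependent_iff]
    intro c hc b
    have h3 : ∑ k, (∑ a, c a • f a) k * p b k = 0 := by
      rw [hc]
      simp
    have h4 : ∑ k, (∑ a, c a • f a) k * p b k = ∑ a, c a * ∑ k, f a k * p b k := by
      simp only [Finset.sum_apply, Pi.smul_apply, smul_eq_mul, Finset.sum_mul, Finset.mul_sum]
      rw [Finset.sum_comm]
      exact Finset.sum_congr rfl fun a _ => Finset.sum_congr rfl fun k _ => by ring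
    rw [h4] at h3
    simp only [hf] at h3
    rw [Finset.sum_eq_single b] at h3
    · simpa using h3
    · intro a _ hab
      simp [hab]
    · simp
  have h5 : Submodule.span ℂ (Set.range f) ≤ LinearMap.ker Φ := by
    rw [Submodule.span_le]
    rintro _ ⟨a, rfl⟩
    rw [SetLike.mem_coe, LinearMap.mem_ker]
    change Fintype.linearCombination ℂ u (f a) = 0
    rw [Fintype.linearCombination_apply, ← hu a]
    exact Finset.sum_congr rfl fun k _ => by rw [Algebra.smul_def]
  have h6 := Submodule.finrank_mono h5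
  rw [finrank_span_eq_card hfi, Fintype.card_fin] at h6
  omega

open scoped IntermediateField.algebraAdjoinAdjoin in
/-- few linear combinations generate a field of small transcendence degree -/
theorem trdeg_le_span {r : ℕ} {M : Type} [Field M] [Algebra ℂ M] (u : Fin r → M)
    (halg : Algebra.IsAlgebraic (adjoin ℂ (Set.range u)) M) :
    Algebra.trdeg ℂ M ≤ finrank ℂ (Submodule.span ℂ (Set.range u)) := by
  classical
  set S := Submodule.span ℂ (Set.range u) with hS
  have hfin : FiniteDimensional ℂ S := FiniteDimensional.span_of_finite ℂ (Set.finite_range u)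
  let b := Module.finBasis ℂ S
  let s : Set M := Set.range fun i => (b i : M)
  have h1 : ∀ w ∈ S, w ∈ Algebra.adjoin ℂ s := by
    intro w hw
    have h2 := b.sum_repr ⟨w, hw⟩
    have h3 : ((∑ i, b.repr ⟨w, hw⟩ i • b i : S) : M) = w := congrArg Subtype.val h2
    rw [← h3, AddSubmonoidClass.coe_finsetSum]
    refine sum_mem fun i _ => ?_
    rw [SetLike.val_smul]
    have h4 : (b i : M) ∈ Algebra.adjoin ℂ s := Algebra.subset_adjoin (Set.mem_range_self i)
    exact Subalgebra.smul_mem _ h4 _
  have h2 : adjoin ℂ (Set.range u) ≤ adjoin ℂ s := by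
    rw [IntermediateField.adjoin_le_iff]
    rintro _ ⟨i, rfl⟩
    exact algebra_adjoin_le_adjoin ℂ s (h1 _ (Submodule.subset_span ⟨i, rfl⟩))
  have h3 : Algebra.IsAlgebraic (adjoin ℂ s) M := by
    let _ : Algebra (adjoin ℂ (Set.range u)) (adjoin ℂ s) :=
      (IntermediateField.inclusion h2).toRingHom.toAlgebra
    have : IsScalarTower (adjoin ℂ (Set.range u)) (adjoin ℂ s) M :=
      IsScalarTower.of_algebraMap_eq fun _ => rfl
    exact Algebra.IsAlgebraic.tower_top (K := adjoin ℂ (Set.range u)) (adjoin ℂ s)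
  have h4 : Algebra.IsAlgebraic (Algebra.adjoin ℂ s) (adjoin ℂ s) :=
    IsLocalization.isAlgebraic _ (nonZeroDivisors (Algebra.adjoin ℂ s))
  have h5 : Algebra.IsAlgebraic (Algebra.adjoin ℂ s) M :=
    Algebra.IsAlgebraic.trans (Algebra.adjoin ℂ s) (adjoin ℂ s) M
  have h6 := Algebra.IsAlgebraic.trdeg_le_cardinalMk ℂ s (A := M)
  refine h6.trans ?_
  have h7 : Cardinal.mk s ≤ Cardinal.mk (Fin (finrank ℂ S)) := Cardinal.mk_range_le
  rwa [Cardinal.mk_fin] at h7

/-- projection along the `p a` -/
def prj {r m : ℕ} (p f : Fin m → Fin r → ℂ) {R : Type} [CommRing R] [Algebra ℂ R]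
    (x : Fin r → R) : Fin r → R := fun i =>
  x i - ∑ a, (∑ k, algebraMap ℂ R (f a k) * x k) * algebraMap ℂ R (p a i)

theorem map_prj {r m : ℕ} (p f : Fin m → Fin r → ℂ) {R R' : Type} [CommRing R] [Algebra ℂ R]
    [CommRing R'] [Algebra ℂ R'] (φ : R →ₐ[ℂ] R') (x : Fin r → R) (i : Fin r) :
    φ (prj p f x i) = prj p f (fun i => φ (x i)) i := by
  unfold prj
  simp only [map_sub, map_sum, map_mul, AlgHom.commutes]

theorem prj_f {r m : ℕ} (p f : Fin m → Fin r → ℂ)
    (hf : ∀ a b, ∑ k, f a k * p b k = if a = b then 1 else 0) {R : Type} [CommRing R]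
    [Algebra ℂ R] (x : Fin r → R) (a : Fin m) :
    ∑ k, algebraMap ℂ R (f a k) * prj p f x k = 0 := by
  classical
  unfold prj
  have h1 : ∀ k, algebraMap ℂ R (f a k) * (x k - ∑ b, (∑ l, algebraMap ℂ R (f b l) * x l) *
      algebraMap ℂ R (p b k)) = algebraMap ℂ R (f a k) * x k -
      ∑ b, (∑ l, algebraMap ℂ R (f b l) * x l) * algebraMap ℂ R (f a k * p b k) := by
    intro k
    rw [mul_sub, Finset.mul_sum]
    congr 1
    refine Finset.sum_congr rfl fun b _ => ?_
    rw [map_mul]
    ring
  rw [Finset.sum_congr rfl fun k _ => h1 k, Finset.sum_sub_distrib, Finset.sum_comm]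
  have h2 : ∀ b, ∑ k, (∑ l, algebraMap ℂ R (f b l) * x l) * algebraMap ℂ R (f a k * p b k) =
      (∑ l, algebraMap ℂ R (f b l) * x l) * algebraMap ℂ R (if a = b then 1 else 0) := by
    intro b
    rw [← Finset.mul_sum, ← map_sum, hf]
  rw [Finset.sum_congr rfl fun b _ => h2 b, Finset.sum_eq_single a]
  · simp
  · intro b _ hb
    simp [Ne.symm hb]
  · simp

theorem prj_add {r m : ℕ} (p f : Fin m → Fin r → ℂ)
    (hf : ∀ a b, ∑ k, f a k * p b k = if a = b then 1 else 0) (x : Fin r → ℂ) (c : ℂ)
    (b : Fin m) : prj p f (fun i => x i + c * p b i) = prj p f x := by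
  classical
  funext i
  unfold prj
  have h1 : ∀ a, ∑ k, f a k * (x k + c * p b k) =
      ∑ k, f a k * x k + c * (if a = b then 1 else 0) := by
    intro a
    rw [← hf a b, Finset.mul_sum, ← Finset.sum_add_distrib]
    refine Finset.sum_congr rfl fun k _ => ?_
    ring
  simp only [Algebra.algebraMap_self, RingHom.id_apply]
  simp only [h1, add_mul, Finset.sum_add_distrib]
  have h2 : ∑ a, c * (if a = b then 1 else 0) * p a i = c * p b i := by
    rw [Finset.sum_eq_single b]
    · simp
    · intro a _ hab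
      simp [hab]
    · simp
  rw [h2]
  ring

end

end Pool.Agent.Y201.LI
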