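import Mathlib
import Pool.Agent.Y201.LI.SecC

/-! # Secants from a section of the residual quadric fibration, main lemma -/

set_option autoImplicit false

namespace Pool.Agent.Y201.LI

open MvPolynomial Pool.Agent.TH314.PD IntermediateField Module Pool.Agent.Y201.C3

noncomputable section

variable {n m : ℕ} {F : MvPolynomial (Fin (n + 2)) ℂ} {M : Type} [Field M] [Algebra ℂ M]

theorem aeval_aeval' {r : ℕ} {R : Type} [CommRing R] [Algebra ℂ R] (w : Fin r → R)
    (g : Fin r → MvPolynomial (Fin r) ℂ) (P : MvPolynomial (Fin r) ℂ) :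
    aeval w (aeval g P) = aeval (fun i => aeval w (g i)) P := by
  have h := comp_aeval g (aeval w : MvPolynomial (Fin r) ℂ →ₐ[ℂ] R)
  exact congrArg (fun φ : MvPolynomial (Fin r) ℂ →ₐ[ℂ] R => φ P) h

theorem eval_eq_aeval' {r : ℕ} (v : Fin r → ℂ) (P : MvPolynomial (Fin r) ℂ) :
    eval v P = aeval v P := by
  rw [MvPolynomial.aeval_def, MvPolynomial.eval₂_eq_eval_map]
  simp

/-- the form `G` is not zero at the generic point -/
theorem proj_ne_zero (hF : F.IsHomogeneous 3)
    (hsm : ∀ z : Fin (n + 2) → ℂ, (∀ i, eval z (pderiv i F) = 0) → z = 0)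
    (p f : Fin m → Fin (n + 2) → ℂ)
    (hf : ∀ a b, ∑ k, f a k * p b k = if a = b then 1 else 0)
    (a₀ : Fin m) (hp0 : p a₀ ≠ 0) (hFp : eval (p a₀) F = 0)
    (x : Fin (n + 2) → M)
    (hgen : ∀ (e : ℕ) (H : MvPolynomial (Fin (n + 2)) ℂ), H.IsHomogeneous e → aeval x H = 0 →
      F ∣ H) (e : ℕ) (U : MvPolynomial (Fin (n + 2)) ℂ) (hU : U.IsHomogeneous e)
    (v₀ : Fin (n + 2) → ℂ) (hv : ∀ a, ∑ k, f a k * v₀ k = 0) (hUv : eval v₀ U ≠ 0) :
    aeval (prj p f x) U ≠ 0 := by
  classical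
  obtain ⟨T, hT, hFT⟩ := exists_tri F hF
  set g : Fin (n + 2) → MvPolynomial (Fin (n + 2)) ℂ := prj p f X with hg
  have hghom : ∀ i, (g i).IsHomogeneous 1 := by
    intro i
    have h1 : ∀ (c : ℂ) (P : MvPolynomial (Fin (n + 2)) ℂ), P.IsHomogeneous 1 →
        (algebraMap ℂ (MvPolynomial (Fin (n + 2)) ℂ) c * P).IsHomogeneous 1 := by
      intro c P hP
      have := (isHomogeneous_C (Fin (n + 2)) c).mul hP
      rwa [zero_add] at this
    refine (isHomogeneous_X _ _).sub (IsHomogeneous.sum _ _ _ fun a _ => ?_)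
    rw [mul_comm]
    exact h1 _ _ (IsHomogeneous.sum _ _ _ fun k _ => h1 _ _ (isHomogeneous_X _ _))
  set G : MvPolynomial (Fin (n + 2)) ℂ := aeval g U with hG
  have hGhom : G.IsHomogeneous e := by
    have := hU.aeval g hghom
    rwa [one_mul] at this
  have hGev : ∀ {R : Type} [CommRing R] [Algebra ℂ R] (y : Fin (n + 2) → R),
      aeval y G = aeval (prj p f y) U := by
    intro R _ _ y
    rw [hG, aeval_aeval']
    congr 2
    funext i
    rw [hg, map_prj]
    congr 1
    funext j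
    rw [aeval_X]
  have hG0 : G ≠ 0 := by
    intro h
    apply hUv
    have h1 := hGev v₀
    rw [h, map_zero] at h1
    have h2 : prj p f v₀ = v₀ := by
      funext i
      unfold prj
      simp only [Algebra.algebraMap_self, RingHom.id_apply, hv, zero_mul, Finset.sum_const_zero,
        sub_zero]
    rw [h2] at h1
    rw [eval_eq_aeval', ← h1]
  intro h0
  rw [← hGev] at h0
  obtain ⟨Q, hQ⟩ := hgen e G hGhom h0
  obtain ⟨i₀, hi₀⟩ : ∃ i, eval (p a₀) (pderiv i F) ≠ 0 := by
    by_contra hcon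
    push Not at hcon
    exact hp0 (hsm _ hcon)
  set B₀ : MvPolynomial (Fin (n + 2)) ℂ := ∑ i, C (eval (p a₀) (pderiv i F)) * X i with hB₀
  have hB₀v : ∀ v : Fin (n + 2) → ℂ, eval v B₀ = 3 * Bg T v (p a₀) (p a₀) := by
    intro v
    rw [← sum_pderiv hT hFT, hB₀, map_sum]
    refine Finset.sum_congr rfl fun i _ => ?_
    rw [map_mul, eval_C, eval_X, eval_eq_aeval', mul_comm]
  have hB₀0 : B₀ ≠ 0 := by
    intro h
    apply hi₀
    have h1 := congrArg (eval (Pi.single i₀ (1 : ℂ))) h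
    rw [hB₀, map_sum, map_zero, Finset.sum_eq_single i₀] at h1
    · simpa using h1
    · intro j _ hj
      simp [hj]
    · simp
  obtain ⟨v₁, hv₁⟩ : ∃ v₁ : Fin (n + 2) → ℂ, eval v₁ (G * B₀) ≠ 0 := by
    by_contra hcon
    push Not at hcon
    exact mul_ne_zero hG0 hB₀0 (MvPolynomial.funext fun v => by rw [hcon v, map_zero])
  rw [map_mul] at hv₁
  have hGv := left_ne_zero_of_mul hv₁
  have hBv := right_ne_zero_of_mul hv₁
  rw [hB₀v] at hBv
  obtain ⟨s, hs⟩ := IsAlgClosed.exists_eq_mul_self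
    (discrim (3 * Bg T v₁ (p a₀) (p a₀)) (3 * Bg T v₁ v₁ (p a₀)) (Bg T v₁ v₁ v₁))
  obtain ⟨c, hc⟩ := exists_quadratic_eq_zero hBv ⟨s, hs⟩
  have hFp' : Bg T (p a₀) (p a₀) (p a₀) = 0 := by
    rw [← aeval_frmG, ← hFT, ← eval_eq_aeval']
    exact hFp
  have hFv : aeval (fun i => v₁ i + c * p a₀ i) F = 0 := by
    have h1 := Bg_cube hT 1 c v₁ (p a₀)
    simp only [one_mul] at h1
    rw [hFT, aeval_frmG, h1, hFp']
    linear_combination hc
  have h2 : aeval (fun i => v₁ i + c * p a₀ i) G = 0 := by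
    rw [hQ, map_mul, hFv, zero_mul]
  rw [hGev, prj_add p f hf, ← hGev, ← eval_eq_aeval'] at h2
  exact hGv h2

theorem exists_secant (hm : 3 ≤ m) (hF : F.IsHomogeneous 3)
    (hsm : ∀ z : Fin (n + 2) → ℂ, (∀ i, eval z (pderiv i F) = 0) → z = 0)
    (p : Fin m → Fin (n + 2) → ℂ) (hp : LinearIndependent ℂ p)
    (hpF : ∀ c : Fin m → ℂ, eval (∑ a, c a • p a) F = 0) (hS : HasSection F p)
    (x : Fin (n + 2) → M) (hx : aeval x F = 0)
    (hgen : ∀ (e : ℕ) (H : MvPolynomial (Fin (n + 2)) ℂ), H.IsHomogeneous e → aeval x H = 0 →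
      F ∣ H) (hodd : Odd (finrank (ratioField x) M)) :
    ∃ (lam mu : Fin (n + 2) → M) (c : Fin m → M) (b : M),
      (∀ i, lam i = ∑ a, c a * algebraMap ℂ M (p a i)) ∧ lam ≠ 0 ∧ mu ≠ 0 ∧ aeval mu F = 0 ∧
      (∃ (e : ℕ) (H : MvPolynomial (Fin (n + 2)) ℂ), H.IsHomogeneous e ∧ aeval mu H = 0 ∧
        ¬ F ∣ H) ∧ ∀ i, x i = b * lam i + b * mu i := by
  classical
  have hF0 : F ≠ 0 := ne_zero_of_smooth hsm
  obtain ⟨V, W, hW, hVW⟩ := hS
  obtain ⟨e, he⟩ : ∃ e, homogeneousComponent e W ≠ 0 := by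
    by_contra hcon
    push Not at hcon
    apply hW
    rw [← sum_homogeneousComponent W]
    exact Finset.sum_eq_zero fun i _ => hcon i
  have hlt : Submodule.span ℂ (Set.range p) < ⊤ := by
    rw [lt_top_iff_ne_top]
    intro htop
    apply hF0
    apply MvPolynomial.funext
    intro v
    have hv : v ∈ Submodule.span ℂ (Set.range p) := by
      rw [htop]
      exact Submodule.mem_top
    obtain ⟨c', hc'⟩ := (Submodule.mem_span_range_iff_exists_fun ℂ).1 hv
    rw [← hc', hpF, map_zero]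
  obtain ⟨f₀, hf₀0, hf₀⟩ := Submodule.exists_le_ker_of_lt_top _ hlt
  have hfv : ∀ v : Fin (n + 2) → ℂ, f₀ v = ∑ i, f₀ (Pi.single i 1) * v i := by
    intro v
    conv_lhs => rw [← Finset.univ_sum_single v]
    rw [map_sum]
    refine Finset.sum_congr rfl fun i _ => ?_
    have : (Pi.single i (v i) : Fin (n + 2) → ℂ) = v i • Pi.single i 1 := by
      rw [← Pi.single_smul, smul_eq_mul, mul_one]
    rw [this, map_smul, smul_eq_mul, mul_comm]
  set ℓ : MvPolynomial (Fin (n + 2)) ℂ := ∑ i, C (f₀ (Pi.single i 1)) * X i with hℓ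
  have hℓv : ∀ v, eval v ℓ = f₀ v := by
    intro v
    rw [hℓ, map_sum, hfv]
    exact Finset.sum_congr rfl fun i _ => by rw [map_mul, eval_C, eval_X]
  have hℓ0 : ℓ ≠ 0 := by
    intro h
    apply hf₀0
    apply LinearMap.ext
    intro v
    rw [← hℓv, h, map_zero, LinearMap.zero_apply]
  obtain ⟨v₀, hv₀⟩ : ∃ v₀ : Fin (n + 2) → ℂ, eval v₀ (homogeneousComponent e W * ℓ) ≠ 0 := by
    by_contra hcon
    push Not at hcon
    exact mul_ne_zero he hℓ0 (MvPolynomial.funext fun v => by rw [hcon v, map_zero])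
  rw [map_mul] at hv₀
  have hWv := left_ne_zero_of_mul hv₀
  have hℓv₀ := right_ne_zero_of_mul hv₀
  rw [hℓv] at hℓv₀
  have hv₀n : v₀ ∉ Submodule.span ℂ (Set.range p) := fun h => hℓv₀ (hf₀ h)
  obtain ⟨f, hf, hfv₀⟩ := exists_dual p hp v₀ hv₀n
  have a₀ : Fin m := ⟨0, by omega⟩
  set u : Fin (n + 2) → M := prj p f x with hu
  have hpF' : eval (p a₀) F = 0 := by
    have h1 := hpF (Pi.single a₀ 1)
    rw [Finset.sum_eq_single a₀] at h1
    · simpa using h1
    · intro b _ hb
      simp [hb]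
    · simp
  have hWu : aeval u (homogeneousComponent e W) ≠ 0 :=
    proj_ne_zero hF hsm p f hf a₀ (hp.ne_zero a₀) hpF' x hgen e _
      (homogeneousComponent_isHomogeneous e W) v₀ hfv₀ hWv
  -- scaling
  obtain ⟨s₀, hs₀, hWs⟩ : ∃ s₀ : ℂ, s₀ ≠ 0 ∧
      aeval (fun i => algebraMap ℂ M s₀ * u i) W ≠ 0 := by
    by_contra hcon
    push Not at hcon
    set P : Polynomial M := ∑ i ∈ Finset.range (W.totalDegree + 1),
      Polynomial.C (aeval u (homogeneousComponent i W)) * Polynomial.X ^ i with hP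
    have h1 : ∀ s : ℂ, P.eval (algebraMap ℂ M s) =
        aeval (fun i => algebraMap ℂ M s * u i) W := by
      intro s
      conv_rhs => rw [← sum_homogeneousComponent W, map_sum]
      rw [hP, Polynomial.eval_finsetSum]
      refine Finset.sum_congr rfl fun i _ => ?_
      rw [aeval_smul_form (homogeneousComponent_isHomogeneous i W), Polynomial.eval_mul,
        Polynomial.eval_C, Polynomial.eval_pow, Polynomial.eval_X, mul_comm]
    have h2 : P = 0 := by
      apply Polynomial.eq_zero_of_infinite_isRoot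
      have h3 : ((algebraMap ℂ M) '' ({0}ᶜ : Set ℂ)).Infinite :=
        (Set.finite_singleton (0 : ℂ)).infinite_compl.image
          (Set.injOn_of_injective (algebraMap ℂ M).injective)
      refine h3.mono ?_
      rintro _ ⟨s, hs, rfl⟩
      change P.eval (algebraMap ℂ M s) = 0
      rw [h1]
      exact hcon s hs
    have h3 : e ∈ Finset.range (W.totalDegree + 1) := by
      rw [Finset.mem_range]
      by_contra h4
      exact he (homogeneousComponent_eq_zero e W (by omega))
    have h4 := congrArg (fun Q => Polynomial.coeff Q e) h2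
    simp only [hP, Polynomial.finsetSum_coeff, Polynomial.coeff_C_mul, Polynomial.coeff_X_pow,
      Polynomial.coeff_zero] at h4
    rw [Finset.sum_eq_single e] at h4
    · rw [if_pos rfl, mul_one] at h4
      exact hWu h4
    · intro j _ hj
      rw [if_neg (Ne.symm hj), mul_zero]
    · intro h5
      exact absurd h3 h5
  set w : Fin (n + 2) → M := fun i => algebraMap ℂ M s₀ * u i with hw
  set K : M := aeval w W * algebraMap ℂ M s₀ with hK
  have hK0 : K ≠ 0 := mul_ne_zero hWs ((_root_.map_ne_zero _).2 hs₀)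
  set mu : Fin (n + 2) → M := fun i => aeval w W * w i +
    ∑ a, aeval w (V a) * algebraMap ℂ M (p a i) with hmu
  set c : Fin m → M := fun a => K * (∑ k, algebraMap ℂ M (f a k) * x k) - aeval w (V a) with hc
  set lam : Fin (n + 2) → M := fun i => ∑ a, c a * algebraMap ℂ M (p a i) with hlam
  have hFmu : aeval mu F = 0 := by
    have h1 := congrArg (aeval w) hVW
    rw [map_zero, aeval_aeval'] at h1
    rw [← h1]
    congr 2
    funext i
    change aeval w W * w i + ∑ a, aeval w (V a) * algebraMap ℂ M (p a i) = _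
    rw [map_add, map_mul, aeval_X, map_sum]
    congr 1
    exact Finset.sum_congr rfl fun a _ => by rw [map_mul, aeval_C]
  have hxK : ∀ i, K * x i = lam i + mu i := by
    intro i
    have h1 : lam i = K * (∑ a, (∑ k, algebraMap ℂ M (f a k) * x k) * algebraMap ℂ M (p a i)) -
        ∑ a, aeval w (V a) * algebraMap ℂ M (p a i) := by
      rw [hlam, Finset.mul_sum, ← Finset.sum_sub_distrib]
      refine Finset.sum_congr rfl fun a _ => ?_
      rw [hc]
      ring
    have h2 : u i = x i - ∑ a, (∑ k, algebraMap ℂ M (f a k) * x k) * algebraMap ℂ M (p a i) := rfl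
    rw [h1, hmu, hw, hK]
    simp only [h2]
    ring
  have hxb : ∀ i, x i = K⁻¹ * lam i + K⁻¹ * mu i := by
    intro i
    rw [← mul_add, ← hxK, inv_mul_cancel_left₀ hK0]
  -- `mu` is special
  have hfd' : FiniteDimensional (ratioField x) M := FiniteDimensional.of_finrank_pos hodd.pos
  have halg' : Algebra.IsAlgebraic (ratioField x) M := Algebra.IsAlgebraic.of_finite _ _
  have htr := trdeg_generic hF (by norm_num) hF0 x hx hgen halg'
  have huL : ∀ i, u i ∈ adjoin ℂ (Set.range u) := fun i => subset_adjoin ℂ _ ⟨i, rfl⟩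
  have hwL : ∀ i, w i ∈ adjoin ℂ (Set.range u) := fun i =>
    mul_mem ((adjoin ℂ (Set.range u)).algebraMap_mem _) (huL i)
  have hPL : ∀ P : MvPolynomial (Fin (n + 2)) ℂ, aeval w P ∈ adjoin ℂ (Set.range u) := by
    intro P
    rw [aeval_def, eval₂_eq']
    exact sum_mem fun m _ => mul_mem ((adjoin ℂ (Set.range u)).algebraMap_mem _)
      (prod_mem fun i _ => pow_mem (hwL i) _)
  have hmuL : ∀ i, mu i ∈ adjoin ℂ (Set.range u) := fun i =>
    add_mem (mul_mem (hPL W) (hwL i)) (sum_mem fun a _ => mul_mem (hPL (V a))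
      ((adjoin ℂ (Set.range u)).algebraMap_mem _))
  obtain ⟨t, ht⟩ : ∃ t : M, Transcendental (adjoin ℂ (Set.range u)) t := by
    by_contra hcon
    push Not at hcon
    have halg : Algebra.IsAlgebraic (adjoin ℂ (Set.range u)) M := by
      refine ⟨fun t => ?_⟩
      have := hcon t
      unfold Transcendental at this
      rwa [not_not] at this
    have h1 := trdeg_le_span u halg
    have h2 := finrank_proj p f hf u fun a => prj_f p f hf x a
    rw [htr] at h1
    have h3 : n ≤ finrank ℂ (Submodule.span ℂ (Set.range u)) := by exact_mod_cast h1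
    omega
  have hspec := nongeneric hF (by norm_num) hF0 htr _ t ht mu hmuL
  refine ⟨lam, mu, c, K⁻¹, fun i => rfl, ?_, ?_, hFmu, hspec, hxb⟩
  · intro h
    obtain ⟨e', H, hH, hHm, hnd⟩ := hspec
    apply hnd
    apply hgen e' H hH
    have h3 : x = fun i => K⁻¹ * mu i := by
      funext i
      rw [hxb i, congrFun h i]
      simp
    rw [h3, aeval_smul_form hH, hHm, mul_zero]
  · intro h
    obtain ⟨e', H, hH, hHm, hnd⟩ := nongen_lin hF (by norm_num) hF0 p hpF lam c fun i => rfl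
    apply hnd
    apply hgen e' H hH
    have h3 : x = fun i => K⁻¹ * lam i := by
      funext i
      rw [hxb i, congrFun h i]
      simp
    rw [h3, aeval_smul_form hH, hHm, mul_zero]

end

end Pool.Agent.Y201.LI
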